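import Mathlib

/-! # K3M: functions of level two on the line `tau = (1 + i v)/2`

Everything is a real function of `v > 0`; the nome is `q v = exp (2 pi i tau) = - exp (- pi v)`. -/

namespace Pool.Agent.K3M

open scoped Real
open ArithmeticFunction
open scoped ArithmeticFunction.sigma

noncomputable section

/-- the (real, negative) nome `q = exp (2 π i τ)`, `τ = (1 + i v)/2`. -/
def q (v : ℝ) : ℝ := -Real.exp (-(π * v))

/-- Eisenstein series `E2` as a function of the nome. -/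
def P (x : ℝ) : ℝ := 1 - 24 * ∑' n : ℕ+, ((σ 1 (n : ℕ) : ℕ) : ℝ) * x ^ (n : ℕ)

/-- `x P'(x)`, the logarithmic derivative of `E2`. -/
def P1 (x : ℝ) : ℝ := -24 * ∑' n : ℕ+, ((n : ℕ) : ℝ) * ((σ 1 (n : ℕ) : ℕ) : ℝ) * x ^ (n : ℕ)

/-- `e = 2 E2(2τ) - E2(τ)` -/
def e (v : ℝ) : ℝ := 2 * P (q v ^ 2) - P (q v)

/-- `p = (E2(τ) - E2(2τ))/3` -/
def p (v : ℝ) : ℝ := (P (q v) - P (q v ^ 2)) / 3

/-- `h = (p e - q de/dq)/2`; it is also `-16 η(2τ)^16/η(τ)^8`. -/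
def h (v : ℝ) : ℝ := (p v * e v - (4 * P1 (q v ^ 2) - P1 (q v))) / 2

/-- the modular unit `w = -4096 (η(2τ)/η(τ))^24` -/
def w (v : ℝ) : ℝ := 4096 * Real.exp (-(π * v)) * ∏' n : ℕ, (1 + q v ^ (n + 1)) ^ 24

/-- the weight four form `Ψ = e √h` (an Eisenstein series of level 4) -/
def Psi (v : ℝ) : ℝ := e v * Real.sqrt (h v)

end

end Pool.Agent.K3M
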