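import Mathlib

/-! # K3M law side: the abstract system

`e, p, h, w` are the level two functions on the line `tau = (1 + i v)/2`; this file only
records the properties which the law side uses. -/

namespace Pool.Agent.K3M

open scoped Real Topology
open Filter MeasureTheory Set

/-- The differential system of level two, with its values at `1` and at infinity. -/
structure Sys (e p h w : ℝ → ℝ) : Prop where
  he : ∀ v, 0 < v → HasDerivAt e (-π * (p v * e v - 2 * h v)) v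
  hp : ∀ v, 0 < v → HasDerivAt p (-(π / 2) * (p v ^ 2 + h v)) v
  hh : ∀ v, 0 < v → HasDerivAt h (-π * h v * (2 * p v + e v)) v
  hw : ∀ v, 0 < v → w v = 256 * h v / (e v ^ 2 + 4 * h v)
  hpos : ∀ v, 0 < v → 0 < h v
  e_one : e 1 = 0
  p_one : p 1 = 1 / π
  e_lim : Tendsto e atTop (𝓝 1)
  p_bd : ∃ C, ∀ v, 1 ≤ v → |p v| ≤ C * Real.exp (-π * v)
  h_bd : ∃ C, ∀ v, 1 ≤ v → h v ≤ C * Real.exp (-π * v)
  w_seven : w (√7) = 1

noncomputable section

/-- `B = sqrt (e^2 + 4 h)` (it is `θ_3^4`). -/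
def BB (e h : ℝ → ℝ) (v : ℝ) : ℝ := √(e v ^ 2 + 4 * h v)

/-- `X = w/64 = 4 h / B^2 = 1 - e^2/B^2`. -/
def XX (e h : ℝ → ℝ) (v : ℝ) : ℝ := 4 * h v / (e v ^ 2 + 4 * h v)

/-- the odd density `sqrt w (v^2-1) Psi = 4 X B e (v^2-1)` -/
def dens (e h : ℝ → ℝ) (v : ℝ) : ℝ := 4 * XX e h v * BB e h v * e v * (v ^ 2 - 1)

/-- the law density `(v^2-1) e sqrt h` -/
def rho (e h : ℝ → ℝ) (v : ℝ) : ℝ := (v ^ 2 - 1) * (e v * √(h v))

/-- odd moments of `2|cos|` -/
def cc (k : ℕ) : ℝ := 4 ^ (k + 1) / π * ∏ i ∈ Finset.range k, (2 * (i : ℝ) + 2) / (2 * i + 3)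

end

end Pool.Agent.K3M
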