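import Pool.Agent.K3M.Law0

/-! # K3M law side: elementary consequences of the system -/

namespace Pool.Agent.K3M

open scoped Real Topology
open Filter MeasureTheory Set

namespace Sys

variable {e p h w : ℝ → ℝ}

theorem B2pos (S : Sys e p h w) {v : ℝ} (hv : 0 < v) : 0 < e v ^ 2 + 4 * h v := by
  have := S.hpos v hv
  positivity

theorem Bpos (S : Sys e p h w) {v : ℝ} (hv : 0 < v) : 0 < BB e h v :=
  Real.sqrt_pos.2 (S.B2pos hv)

theorem Bsq (S : Sys e p h w) {v : ℝ} (hv : 0 < v) : BB e h v ^ 2 = e v ^ 2 + 4 * h v :=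
  Real.sq_sqrt (S.B2pos hv).le

theorem hBe (S : Sys e p h w) {v : ℝ} (hv : 0 < v) : h v = (BB e h v ^ 2 - e v ^ 2) / 4 := by
  rw [S.Bsq hv]; ring

theorem hB (S : Sys e p h w) {v : ℝ} (hv : 0 < v) :
    HasDerivAt (BB e h) (-π * p v * BB e h v) v := by
  have h1 : HasDerivAt (fun v => e v ^ 2 + 4 * h v)
      (2 * e v * (-π * (p v * e v - 2 * h v)) + 4 * (-π * h v * (2 * p v + e v))) v := by
    have := ((S.he v hv).pow 2).add ((S.hh v hv).const_mul 4)
    refine this.congr_deriv ?_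
    simp
  have h2 := h1.sqrt (S.B2pos hv).ne'
  refine h2.congr_deriv ?_
  have hb := S.Bpos hv
  have hb2 := S.Bsq hv
  change _ / (2 * BB e h v) = _
  rw [div_eq_iff (by positivity)]
  have : 2 * e v * (-π * (p v * e v - 2 * h v)) + 4 * (-π * h v * (2 * p v + e v))
      = -2 * π * p v * (e v ^ 2 + 4 * h v) := by ring
  rw [this, ← hb2]; ring

theorem XBB (S : Sys e p h w) {v : ℝ} (hv : 0 < v) :
    XX e h v = 1 - e v ^ 2 / BB e h v ^ 2 := by
  rw [S.Bsq hv, XX]
  have := S.B2pos hv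
  field_simp
  ring

theorem wX (S : Sys e p h w) {v : ℝ} (hv : 0 < v) : w v = 64 * XX e h v := by
  rw [S.hw v hv, XX]; ring

theorem hX (S : Sys e p h w) {v : ℝ} (hv : 0 < v) :
    HasDerivAt (XX e h) (-π * e v * XX e h v) v := by
  have h1 : HasDerivAt (fun v => e v ^ 2 + 4 * h v)
      (2 * e v * (-π * (p v * e v - 2 * h v)) + 4 * (-π * h v * (2 * p v + e v))) v := by
    have := ((S.he v hv).pow 2).add ((S.hh v hv).const_mul 4)
    refine this.congr_deriv ?_
    simp
  have h2 := (((S.hh v hv).const_mul 4).div h1 (S.B2pos hv).ne')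
  refine h2.congr_deriv ?_
  rw [XX]
  have := S.B2pos hv
  field_simp
  ring

theorem hwd (S : Sys e p h w) {v : ℝ} (hv : 0 < v) :
    HasDerivAt w (-π * e v * w v) v := by
  have h1 := (S.hX hv).const_mul 64
  have h2 : w =ᶠ[𝓝 v] fun v => 64 * XX e h v := by
    filter_upwards [lt_mem_nhds hv] with u hu using S.wX hu
  refine (h1.congr_of_eventuallyEq h2).congr_deriv ?_
  rw [S.wX hv]; ring

/-- `e > 0` to the right of `1`. -/
theorem epos (S : Sys e p h w) {v : ℝ} (hv : 1 < v) : 0 < e v := by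
  -- first zero argument
  by_contra hneg
  push Not at hneg
  have hcont : ContinuousOn e (Ioi 0) := fun u hu => (S.he u hu).continuousAt.continuousWithinAt
  -- near 1 on the right e is positive
  have hd1 : HasDerivAt e (2 * π * h 1) 1 := by
    refine (S.he 1 one_pos).congr_deriv ?_
    rw [S.e_one]; ring
  have hpos1 : 0 < 2 * π * h 1 := by have := S.hpos 1 one_pos; positivity
  have key : ∀ u, 0 < u → e u = 0 → ∀ᶠ t in 𝓝[>] u, 0 < e t := by
    intro u hu he0
    have hd : HasDerivAt e (2 * π * h u) u := by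
      refine (S.he u hu).congr_deriv ?_
      rw [he0]; ring
    have hpos : 0 < 2 * π * h u := by have := S.hpos u hu; positivity
    have h3 := (hasDerivAt_iff_tendsto_slope.1 hd)
    have h4 : Tendsto (slope e u) (𝓝[>] u) (𝓝 (2 * π * h u)) :=
      h3.mono_left (nhdsWithin_mono _ (fun x hx => ne_of_gt hx))
    have h5 := h4.eventually (lt_mem_nhds hpos)
    filter_upwards [h5, self_mem_nhdsWithin] with t ht htu
    have htu' : u < t := htu
    rw [slope_def_field, he0, sub_zero] at ht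
    exact (div_pos_iff_of_pos_right (sub_pos.2 htu')).1 ht
  have key2 : ∀ u, 0 < u → e u = 0 → ∀ᶠ t in 𝓝[<] u, e t < 0 := by
    intro u hu he0
    have hd : HasDerivAt e (2 * π * h u) u := by
      refine (S.he u hu).congr_deriv ?_
      rw [he0]; ring
    have hpos : 0 < 2 * π * h u := by have := S.hpos u hu; positivity
    have h3 := (hasDerivAt_iff_tendsto_slope.1 hd)
    have h4 : Tendsto (slope e u) (𝓝[<] u) (𝓝 (2 * π * h u)) :=
      h3.mono_left (nhdsWithin_mono _ (fun x hx => ne_of_lt hx))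
    have h5 := h4.eventually (lt_mem_nhds hpos)
    filter_upwards [h5, self_mem_nhdsWithin] with t ht htu
    have htu' : t < u := htu
    rw [slope_def_field, he0, sub_zero] at ht
    by_contra hc
    push Not at hc
    have : e t / (t - u) ≤ 0 := div_nonpos_of_nonneg_of_nonpos hc (sub_neg.2 htu').le
    linarith
  -- pick a point t0 in (1, v) with e t0 > 0
  obtain ⟨t0, ht0, ht0v⟩ : ∃ t0, 0 < e t0 ∧ t0 ∈ Ioo 1 v := by
    have h1 := key 1 one_pos S.e_one
    have h2 : ∀ᶠ t in 𝓝[>] (1:ℝ), t ∈ Ioo 1 v := Ioo_mem_nhdsGT hv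
    exact (h1.and h2).exists
  -- the set of zeros in [t0, v]
  let Z := {t | t ∈ Icc t0 v ∧ e t ≤ 0}
  have hZne : Z.Nonempty := ⟨v, ⟨ht0v.2.le, le_rfl⟩, hneg⟩
  have hZbd : BddBelow Z := ⟨t0, fun t ht => ht.1.1⟩
  have hcont2 : ContinuousOn e (Icc t0 v) := hcont.mono (fun t ht => lt_of_lt_of_le
    (by linarith [ht0v.1] : (0:ℝ) < t0) ht.1)
  have hZcl : IsClosed Z := by
    have : Z = Icc t0 v ∩ e ⁻¹' (Iic 0) := by ext t; simp [Z]
    rw [this]
    exact hcont2.preimage_isClosed_of_isClosed isClosed_Icc isClosed_Iic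
  have hmem := hZcl.csInf_mem hZne hZbd
  set s := sInf Z with hs
  have hs0 : 0 < s := lt_of_lt_of_le (by linarith [ht0v.1] : (0:ℝ) < t0) hmem.1.1
  have hst : t0 < s := by
    rcases lt_or_eq_of_le hmem.1.1 with h | h
    · exact h
    · exfalso; rw [← h] at hmem; linarith [hmem.2]
  have hlt : ∀ t ∈ Ico t0 s, 0 < e t := by
    intro t ht
    by_contra hc
    push Not at hc
    have : t ∈ Z := ⟨⟨ht.1, ht.2.le.trans hmem.1.2⟩, hc⟩
    have := csInf_le hZbd this
    linarith [ht.2]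
  have hes : e s = 0 := by
    refine le_antisymm hmem.2 ?_
    have hc : ContinuousAt e s := (S.he s hs0).continuousAt
    refine ge_of_tendsto (hc.tendsto.mono_left (nhdsWithin_le_nhds : 𝓝[<] s ≤ 𝓝 s)) ?_
    filter_upwards [Ico_mem_nhdsLT hst] with t ht using (hlt t ht).le
  have h6 := key2 s hs0 hes
  have h7 : ∀ᶠ t in 𝓝[<] s, t ∈ Ico t0 s := Ico_mem_nhdsLT hst
  obtain ⟨t, ht1, ht2⟩ := (h6.and h7).exists
  linarith [hlt t ht2]

end Sys

end Pool.Agent.K3M
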