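import Pool.Agent.K3M.Law1

/-! # K3M law side: odd moments of the theta side -/

namespace Pool.Agent.K3M

open scoped Real Topology
open Filter MeasureTheory Set

namespace Sys

variable {e p h w : ℝ → ℝ}

/-- the antiderivative -/
noncomputable def QQ (e p h : ℝ → ℝ) (k : ℕ) (v : ℝ) : ℝ :=
  XX e h v ^ k * (BB e h v * ((2 / π ^ 2 - 2 * v * p v / π + 2 * v * k * e v / π +
    (v ^ 2 - 1) * ((p v ^ 2 + h v) / 2 - k * p v * e v)) / BB e h v ^ 2 +
    (v ^ 2 - 1) * ((k : ℝ) ^ 2 - XX e h v * ((k : ℝ) ^ 2 + k / 2 + 1 / 4))))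

theorem hQ (S : Sys e p h w) (k : ℕ) {v : ℝ} (hv : 0 < v) :
    HasDerivAt (QQ e p h k)
      (-π * XX e h v ^ k * BB e h v * e v * (v ^ 2 - 1) *
        ((k : ℝ) ^ 3 - ((k : ℝ) + 1 / 2) ^ 3 * XX e h v)) v := by
  have hB := S.hB hv
  have hX := S.hX hv
  have he := S.he v hv
  have hp := S.hp v hv
  have hh := S.hh v hv
  have hid : HasDerivAt (fun v : ℝ => v) 1 v := hasDerivAt_id v
  have hBp := S.Bpos hv
  have hv2 : HasDerivAt (fun v : ℝ => v ^ 2 - 1) (2 * v) v := by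
    simpa using (hid.pow 2).sub_const 1
  have hXk : HasDerivAt (fun v => XX e h v ^ k) (k * XX e h v ^ k * (-π * e v)) v := by
    refine (hX.pow k).congr_deriv ?_
    rcases k with _ | k
    · simp
    · simp [pow_succ]; ring
  have hT : HasDerivAt (fun v => 2 / π ^ 2 - 2 * v * p v / π + 2 * v * k * e v / π +
      (v ^ 2 - 1) * ((p v ^ 2 + h v) / 2 - k * p v * e v))
      (-(2 * p v / π) - 2 * v * (-(π / 2) * (p v ^ 2 + h v)) / π + (2 * k * e v / π +
        2 * v * k * (-π * (p v * e v - 2 * h v)) / π) +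
        (2 * v * ((p v ^ 2 + h v) / 2 - k * p v * e v) +
         (v ^ 2 - 1) * ((2 * p v * (-(π / 2) * (p v ^ 2 + h v)) +
          (-π * h v * (2 * p v + e v))) / 2 - k * ((-(π / 2) * (p v ^ 2 + h v)) * e v +
            p v * (-π * (p v * e v - 2 * h v)))))) v := by
    have h1 : HasDerivAt (fun v : ℝ => 2 / π ^ 2 - 2 * v * p v / π)
        (-(2 * p v / π) - 2 * v * (-(π / 2) * (p v ^ 2 + h v)) / π) v := by
      refine (((hid.const_mul 2).mul hp).div_const π |>.const_sub (2 / π ^ 2)).congr_deriv ?_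
      ring
    have h2 : HasDerivAt (fun v : ℝ => 2 * v * k * e v / π)
        (2 * k * e v / π + 2 * v * k * (-π * (p v * e v - 2 * h v)) / π) v := by
      refine ((((hid.const_mul 2).mul_const (k : ℝ)).mul he).div_const π).congr_deriv ?_
      ring
    have h3 : HasDerivAt (fun v : ℝ => (p v ^ 2 + h v) / 2 - k * p v * e v)
        ((2 * p v * (-(π / 2) * (p v ^ 2 + h v)) +
          (-π * h v * (2 * p v + e v))) / 2 - k * ((-(π / 2) * (p v ^ 2 + h v)) * e v +
            p v * (-π * (p v * e v - 2 * h v)))) v := by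
      refine ((((hp.pow 2).add hh).div_const 2).sub ((hp.const_mul (k : ℝ)).mul he)).congr_deriv ?_
      simp
      ring
    exact (h1.add h2).add (hv2.mul h3)
  have hY : HasDerivAt (fun v => (k : ℝ) ^ 2 - XX e h v * ((k : ℝ) ^ 2 + k / 2 + 1 / 4))
      (-((-π * e v * XX e h v) * ((k : ℝ) ^ 2 + k / 2 + 1 / 4))) v :=
    (hX.mul_const _).const_sub _
  have hall := hXk.mul (hB.mul ((hT.div (hB.pow 2) (pow_ne_zero 2 hBp.ne')).add (hv2.mul hY)))
  refine hall.congr_deriv ?_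
  simp only [Pi.pow_apply, Pi.add_apply, Pi.mul_apply, Pi.div_apply, Nat.cast_ofNat,
    Nat.add_one_sub_one, pow_one]
  have hX0 : XX e h v = 1 - e v ^ 2 / BB e h v ^ 2 := S.XBB hv
  have hh0 : h v = (BB e h v ^ 2 - e v ^ 2) / 4 := S.hBe hv
  generalize hXX : XX e h v ^ k = Y
  rw [hX0, hh0]
  have hB0 : BB e h v ≠ 0 := hBp.ne'
  generalize BB e h v = B at hB0 ⊢
  generalize e v = E
  generalize p v = p'
  have hpi : π ≠ 0 := Real.pi_ne_zero
  field_simp
  ring

end Sys

end Pool.Agent.K3M
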