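import Pool.Agent.K3M.Law2

/-! # K3M law side: odd moments of the theta side, limits and integrals -/

namespace Pool.Agent.K3M

open scoped Real Topology
open Filter MeasureTheory Set

namespace Sys

variable {e p h w : ℝ → ℝ}

theorem exp_lim (n : ℕ) : Tendsto (fun v : ℝ => v ^ n * Real.exp (-π * v)) atTop (𝓝 0) := by
  have h1 := (Real.tendsto_pow_mul_exp_neg_atTop_nhds_zero n).comp
    (tendsto_id.const_mul_atTop Real.pi_pos)
  have h2 := h1.const_mul (1 / π ^ n)
  rw [mul_zero] at h2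
  refine h2.congr fun v => ?_
  simp only [Function.comp, id]
  have : π ^ n ≠ 0 := by positivity
  rw [mul_pow]
  field_simp

theorem h_lim (S : Sys e p h w) (n : ℕ) : Tendsto (fun v => v ^ n * h v) atTop (𝓝 0) := by
  obtain ⟨C, hC⟩ := S.h_bd
  have h1 := (exp_lim n).const_mul C
  rw [mul_zero] at h1
  refine squeeze_zero' ?_ ?_ h1
  · filter_upwards [eventually_ge_atTop 1] with v hv
    have := S.hpos v (by linarith)
    positivity
  · filter_upwards [eventually_ge_atTop 1] with v hv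
    have h2 := hC v hv
    have h3 : (0:ℝ) ≤ v ^ n := by positivity
    calc v ^ n * h v ≤ v ^ n * (C * Real.exp (-π * v)) := mul_le_mul_of_nonneg_left h2 h3
      _ = _ := by ring

theorem p_lim (S : Sys e p h w) (n : ℕ) : Tendsto (fun v => v ^ n * p v) atTop (𝓝 0) := by
  obtain ⟨C, hC⟩ := S.p_bd
  have h1 := (exp_lim n).const_mul C
  rw [mul_zero] at h1
  refine squeeze_zero_norm' ?_ h1
  filter_upwards [eventually_ge_atTop 1] with v hv
  have h2 := hC v hv
  have h3 : (0:ℝ) ≤ v ^ n := by positivity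
  rw [norm_mul, Real.norm_eq_abs, Real.norm_eq_abs, abs_of_nonneg h3]
  calc v ^ n * |p v| ≤ v ^ n * (C * Real.exp (-π * v)) := mul_le_mul_of_nonneg_left h2 h3
    _ = _ := by ring

theorem B2_lim (S : Sys e p h w) : Tendsto (fun v => e v ^ 2 + 4 * h v) atTop (𝓝 1) := by
  have h1 := (S.e_lim.pow 2).add ((S.h_lim 0).const_mul 4)
  simpa using h1

theorem B_lim (S : Sys e p h w) : Tendsto (BB e h) atTop (𝓝 1) := by
  have := S.B2_lim.sqrt
  rw [Real.sqrt_one] at this
  exact this

theorem X_lim (S : Sys e p h w) (n : ℕ) : Tendsto (fun v => v ^ n * XX e h v) atTop (𝓝 0) := by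
  have h1 := ((S.h_lim n).const_mul 4).div S.B2_lim one_ne_zero
  simp only [mul_zero, zero_div] at h1
  refine h1.congr fun v => ?_
  simp only [XX, Pi.div_apply]
  ring

theorem X_lim' (S : Sys e p h w) (k n : ℕ) :
    Tendsto (fun v => XX e h v ^ (k + 1) * v ^ n) atTop (𝓝 0) := by
  have h1 := ((S.X_lim 0).pow k).mul (S.X_lim n)
  simp only [mul_zero] at h1
  refine h1.congr fun v => ?_
  simp only [pow_zero, one_mul]
  ring

theorem v2_lim (f : ℝ → ℝ) (h0 : Tendsto (fun v => v ^ 2 * f v) atTop (𝓝 0))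
    (h1 : Tendsto f atTop (𝓝 0)) : Tendsto (fun v => (v ^ 2 - 1) * f v) atTop (𝓝 0) := by
  have := h0.sub h1
  simp only [sub_zero] at this
  refine this.congr fun v => ?_
  ring

theorem Q_lim_zero (S : Sys e p h w) : Tendsto (QQ e p h 0) atTop (𝓝 (2 / π ^ 2)) := by
  have hp1 : Tendsto (fun v => 2 * v * p v / π) atTop (𝓝 0) := by
    have := ((S.p_lim 1).const_mul 2).div_const π
    simp only [mul_zero, zero_div] at this
    refine this.congr fun v => ?_
    ring
  have hp2 : Tendsto (fun v => (v ^ 2 - 1) * ((p v ^ 2 + h v) / 2)) atTop (𝓝 0) := by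
    refine v2_lim _ ?_ ?_
    · have := (((S.p_lim 2).mul (S.p_lim 0)).add (S.h_lim 2)).div_const 2
      simp only [mul_zero, zero_div, add_zero] at this
      refine this.congr fun v => ?_
      ring
    · have := (((S.p_lim 0).mul (S.p_lim 0)).add (S.h_lim 0)).div_const 2
      simp only [mul_zero, zero_div, add_zero] at this
      refine this.congr fun v => ?_
      ring
  have hX2 : Tendsto (fun v => (v ^ 2 - 1) * (-(XX e h v * (1 / 4)))) atTop (𝓝 0) := by
    refine v2_lim _ ?_ ?_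
    · have := ((S.X_lim 2).mul_const (1/4)).neg
      simp only [zero_mul, neg_zero] at this
      refine this.congr fun v => ?_
      ring
    · have := ((S.X_lim 0).mul_const (1/4)).neg
      simp only [zero_mul, neg_zero] at this
      refine this.congr fun v => ?_
      ring
  have hT : Tendsto (fun v => 2 / π ^ 2 - 2 * v * p v / π +
      (v ^ 2 - 1) * ((p v ^ 2 + h v) / 2)) atTop (𝓝 (2 / π ^ 2)) := by
    have := (hp1.const_sub (2 / π ^ 2)).add hp2
    simpa using this
  have hall := S.B_lim.mul ((hT.div (S.B_lim.pow 2) (by norm_num)).add hX2)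
  simp only [one_pow, div_one, add_zero, one_mul] at hall
  refine hall.congr fun v => ?_
  simp only [QQ, Pi.div_apply]
  push_cast
  ring

theorem Q_lim_succ (S : Sys e p h w) (k : ℕ) : Tendsto (QQ e p h (k + 1)) atTop (𝓝 0) := by
  have hX0 := S.X_lim' k 0
  have hX1 := S.X_lim' k 1
  have hX2 : Tendsto (fun v => (v ^ 2 - 1) * XX e h v ^ (k + 1)) atTop (𝓝 0) := by
    refine v2_lim _ ?_ ?_
    · refine (S.X_lim' k 2).congr fun v => ?_
      ring
    · refine (S.X_lim' k 0).congr fun v => ?_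
      ring
  have hp0 : Tendsto p atTop (𝓝 0) := by simpa using S.p_lim 0
  have hh0 : Tendsto h atTop (𝓝 0) := by simpa using S.h_lim 0
  have hXX0 : Tendsto (XX e h) atTop (𝓝 0) := by simpa using S.X_lim 0
  have ha : Tendsto (fun v => XX e h v ^ (k + 1) * v ^ 0 * (2 / π ^ 2)) atTop (𝓝 0) := by
    simpa using hX0.mul_const (2 / π ^ 2)
  have hb : Tendsto (fun v => XX e h v ^ (k + 1) * v ^ 1 * (2 * p v / π)) atTop (𝓝 0) := by
    simpa using hX1.mul ((hp0.const_mul 2).div_const π)
  have hc : Tendsto (fun v => XX e h v ^ (k + 1) * v ^ 1 * (2 * ((k + 1 : ℕ) : ℝ) * e v / π))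
      atTop (𝓝 0) := by
    have := hX1.mul ((S.e_lim.const_mul (2 * ((k + 1 : ℕ) : ℝ))).div_const π)
    simpa using this
  have hd : Tendsto (fun v => (v ^ 2 - 1) * XX e h v ^ (k + 1) *
      ((p v ^ 2 + h v) / 2 - ((k + 1 : ℕ) : ℝ) * p v * e v)) atTop (𝓝 0) := by
    have := hX2.mul ((((hp0.pow 2).add hh0).div_const 2).sub
      ((hp0.const_mul ((k + 1 : ℕ) : ℝ)).mul S.e_lim))
    simpa using this
  have he : Tendsto (fun v => (v ^ 2 - 1) * XX e h v ^ (k + 1) *
      (((k + 1 : ℕ) : ℝ) ^ 2 - XX e h v * (((k + 1 : ℕ) : ℝ) ^ 2 + ((k + 1 : ℕ) : ℝ) / 2 + 1 / 4)))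
      atTop (𝓝 0) := by
    have := hX2.mul ((hXX0.mul_const (((k + 1 : ℕ) : ℝ) ^ 2 + ((k + 1 : ℕ) : ℝ) / 2 + 1 / 4)).const_sub
      (((k + 1 : ℕ) : ℝ) ^ 2))
    simpa using this
  have hall := S.B_lim.mul ((((((ha.sub hb).add hc).add hd)).div (S.B_lim.pow 2)
    (by norm_num)).add he)
  simp only [one_pow, div_one, add_zero, one_mul, sub_zero] at hall
  refine hall.congr fun v => ?_
  simp only [QQ, Pi.div_apply]
  push_cast
  ring

theorem Q_one (S : Sys e p h w) (k : ℕ) : QQ e p h k 1 = 0 := by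
  simp only [QQ, S.e_one, S.p_one]
  have : (2 / π ^ 2 - 2 * 1 * (1 / π) / π + 2 * 1 * (k : ℝ) * 0 / π + (1 ^ 2 - 1) *
      (((1 / π) ^ 2 + h 1) / 2 - k * (1 / π) * 0)) = 0 := by
    field_simp
    ring
  rw [this]
  ring

/-- a crude bound for the density times anything bounded -/
theorem dens_bound (S : Sys e p h w) : ∃ C, ∀ v, 1 ≤ v →
    |dens e h v| ≤ C * (v ^ 2 * Real.exp (-π * v)) := by
  obtain ⟨C, hC⟩ := S.h_bd
  refine ⟨16 * C, fun v hv => ?_⟩
  have hv0 : 0 < v := by linarith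
  have hB := S.Bpos hv0
  have hB2 := S.Bsq hv0
  have hh := S.hpos v hv0
  have heB : |e v| ≤ BB e h v := by
    apply abs_le_of_sq_le_sq _ hB.le
    rw [hB2]; linarith
  have h1 : dens e h v = 16 * h v * (v ^ 2 - 1) * (e v / BB e h v) := by
    unfold dens
    have : XX e h v = 4 * h v / BB e h v ^ 2 := by rw [hB2]; rfl
    rw [this]
    field_simp
    ring
  have h2 : |e v / BB e h v| ≤ 1 := by
    rw [abs_div, abs_of_pos hB]
    exact (div_le_one hB).2 heB
  have h3 : 0 ≤ v ^ 2 - 1 := by nlinarith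
  rw [h1, abs_mul, abs_of_nonneg (by positivity : 0 ≤ 16 * h v * (v ^ 2 - 1))]
  have h4 := hC v hv
  have h5 : 0 ≤ Real.exp (-π * v) := (Real.exp_pos _).le
  calc 16 * h v * (v ^ 2 - 1) * |e v / BB e h v| ≤ 16 * h v * (v ^ 2 - 1) * 1 :=
        mul_le_mul_of_nonneg_left h2 (by positivity)
    _ ≤ 16 * (C * Real.exp (-π * v)) * (v ^ 2) := by
        rw [mul_one]
        apply mul_le_mul (by linarith) (by linarith) h3
        have := hh.le.trans h4
        linarith
    _ = _ := by ring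

theorem dens_cont (S : Sys e p h w) : ContinuousOn (dens e h) (Ioi 0) := by
  intro v hv
  have hv' : (0:ℝ) < v := hv
  have h1 := (S.hX hv').continuousAt
  have h2 := (S.hB hv').continuousAt
  have h3 := (S.he v hv').continuousAt
  unfold dens
  exact ((((continuousAt_const.mul h1).mul h2).mul h3).mul
    (by fun_prop)).continuousWithinAt

theorem X_nonneg (S : Sys e p h w) {v : ℝ} (hv : 0 < v) : 0 < XX e h v := by
  have := S.hpos v hv
  have := S.B2pos hv
  unfold XX
  positivity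

theorem X_le (S : Sys e p h w) {v : ℝ} (hv : 0 < v) : XX e h v ≤ 1 := by
  rw [S.XBB hv]
  have := S.Bpos hv
  have : 0 ≤ e v ^ 2 / BB e h v ^ 2 := by positivity
  linarith

theorem int_exp (n : ℕ) : IntegrableOn (fun v : ℝ => v ^ n * Real.exp (-π * v)) (Ioi 1) := by
  have h1 := integrableOn_rpow_mul_exp_neg_mul_rpow (p := 1) (s := n) (b := π)
    (by have : (0:ℝ) ≤ n := Nat.cast_nonneg n; linarith) one_pos Real.pi_pos
  have h2 := h1.mono_set (Ioi_subset_Ioi (zero_le_one' ℝ))
  refine h2.congr_fun (fun v hv => ?_) measurableSet_Ioi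
  simp

theorem dens_int (S : Sys e p h w) (k : ℕ) :
    IntegrableOn (fun v => XX e h v ^ k * dens e h v) (Ioi 1) := by
  obtain ⟨C, hC⟩ := S.dens_bound
  refine Integrable.mono' ((int_exp 2).const_mul C) ?_ ?_
  · refine ContinuousOn.aestronglyMeasurable ?_ measurableSet_Ioi
    have h1 : ContinuousOn (XX e h) (Ioi 1) := fun v hv =>
      (S.hX (lt_trans zero_lt_one hv)).continuousAt.continuousWithinAt
    exact (h1.pow k).mul (S.dens_cont.mono (Ioi_subset_Ioi zero_le_one))
  · filter_upwards [ae_restrict_mem measurableSet_Ioi] with v hv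
    have hv1 : (1:ℝ) < v := hv
    have hv0 : (0:ℝ) < v := by linarith
    rw [norm_mul, norm_pow, Real.norm_eq_abs, Real.norm_eq_abs, abs_of_pos (S.X_nonneg hv0)]
    have h1 : XX e h v ^ k ≤ 1 := pow_le_one₀ (S.X_nonneg hv0).le (S.X_le hv0)
    calc XX e h v ^ k * |dens e h v| ≤ 1 * |dens e h v| :=
          mul_le_mul_of_nonneg_right h1 (abs_nonneg _)
      _ ≤ _ := by rw [one_mul]; exact hC v hv1.le

theorem M_zero (S : Sys e p h w) : ∫ v in Ioi 1, dens e h v = 64 / π ^ 3 := by
  have h1 := integral_Ioi_of_hasDerivAt_of_tendsto (a := 1) (f := QQ e p h 0)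
    (f' := fun v => (π / 32) * dens e h v) (m := 2 / π ^ 2)
    (S.hQ 0 one_pos).continuousAt.continuousWithinAt
    (fun v hv => (S.hQ 0 (lt_trans zero_lt_one hv)).congr_deriv (by
      simp only [dens]; push_cast; ring))
    (by
      have := (S.dens_int 0).const_mul (π / 32)
      simp only [pow_zero, one_mul] at this
      exact this) S.Q_lim_zero
  rw [S.Q_one, sub_zero, integral_const_mul] at h1
  have hpi := Real.pi_pos
  field_simp at h1 ⊢
  linarith

theorem M_succ (S : Sys e p h w) (k : ℕ) :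
    ∫ v in Ioi 1, XX e h v ^ (k + 1) * dens e h v =
      ((2 * (k : ℝ) + 2) / (2 * k + 3)) ^ 3 * ∫ v in Ioi 1, XX e h v ^ k * dens e h v := by
  have hi1 : Integrable (fun v => (-(π / 4) * ((k : ℝ) + 1) ^ 3) * (XX e h v ^ k * dens e h v))
      (volume.restrict (Ioi 1)) := (S.dens_int k).const_mul _
  have hi2 : Integrable (fun v => ((π / 4) * ((k : ℝ) + 3 / 2) ^ 3) *
      (XX e h v ^ (k + 1) * dens e h v)) (volume.restrict (Ioi 1)) :=
    (S.dens_int (k + 1)).const_mul _
  have h1 := integral_Ioi_of_hasDerivAt_of_tendsto (a := 1) (f := QQ e p h (k + 1))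
    (f' := fun v => (-(π / 4) * ((k : ℝ) + 1) ^ 3) * (XX e h v ^ k * dens e h v) +
      ((π / 4) * ((k : ℝ) + 3 / 2) ^ 3) * (XX e h v ^ (k + 1) * dens e h v)) (m := 0)
    (S.hQ (k + 1) one_pos).continuousAt.continuousWithinAt
    (fun v hv => (S.hQ (k + 1) (lt_trans zero_lt_one hv)).congr_deriv (by
      simp only [dens]; push_cast; ring))
    (by have hi3 := hi1.add hi2; exact hi3) (S.Q_lim_succ k)
  rw [S.Q_one, sub_zero, integral_add hi1 hi2, integral_const_mul, integral_const_mul] at h1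
  have hpi := Real.pi_pos
  have hk : (0:ℝ) ≤ k := Nat.cast_nonneg k
  have h2 : (((k : ℝ) + 3 / 2) ^ 3) * (∫ v in Ioi 1, XX e h v ^ (k + 1) * dens e h v) =
      ((k : ℝ) + 1) ^ 3 * ∫ v in Ioi 1, XX e h v ^ k * dens e h v := by
    have : π / 4 ≠ 0 := by positivity
    apply mul_left_cancel₀ this
    linarith
  have h3 : ((k : ℝ) + 3 / 2) ^ 3 ≠ 0 := by positivity
  apply mul_left_cancel₀ h3
  rw [h2, div_pow]
  field_simp

/-- the odd moments of the theta side -/
theorem M_eq (S : Sys e p h w) (k : ℕ) :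
    ∫ v in Ioi 1, w v ^ k * dens e h v = cc k ^ 3 := by
  have h0 : ∫ v in Ioi 1, w v ^ k * dens e h v =
      64 ^ k * ∫ v in Ioi 1, XX e h v ^ k * dens e h v := by
    rw [← integral_const_mul]
    refine setIntegral_congr_fun measurableSet_Ioi fun v hv => ?_
    rw [S.wX (lt_trans zero_lt_one hv)]
    ring
  rw [h0]
  clear h0
  induction k with
  | zero =>
    simp only [pow_zero, one_mul, S.M_zero, cc, Finset.range_zero, Finset.prod_empty]
    ring
  | succ k ih =>
    rw [S.M_succ]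
    have : cc (k + 1) = 4 * ((2 * (k : ℝ) + 2) / (2 * k + 3)) * cc k := by
      simp only [cc, Finset.prod_range_succ]
      ring
    rw [this, mul_pow, mul_pow, ← ih]
    ring

end Sys

end Pool.Agent.K3M
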