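import Mathlib

/-! # K3M: finite measures on a compact interval are determined by their moments -/

namespace Pool.Agent.K3M

open scoped Real Topology ENNReal NNReal BoundedContinuousFunction
open Filter MeasureTheory Set

theorem measure_eq_of_moments {μ ν : Measure ℝ} [IsFiniteMeasure μ] [IsFiniteMeasure ν]
    {a b : ℝ} (hμ : ∀ᵐ x ∂μ, x ∈ Icc a b) (hν : ∀ᵐ x ∂ν, x ∈ Icc a b)
    (hm : ∀ n : ℕ, ∫ x, x ^ n ∂μ = ∫ x, x ^ n ∂ν) : μ = ν := by
  have hpow : ∀ {κ : Measure ℝ} [IsFiniteMeasure κ], (∀ᵐ x ∂κ, x ∈ Icc a b) → ∀ n : ℕ,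
      Integrable (fun x => x ^ n) κ := by
    intro κ _ hκ n
    refine Integrable.of_bound (by fun_prop) (max |a| |b| ^ n) ?_
    filter_upwards [hκ] with x hx
    rw [norm_pow, Real.norm_eq_abs]
    exact pow_le_pow_left₀ (abs_nonneg _) (abs_le_max_abs_abs hx.1 hx.2) n
  have hpoly : ∀ p : Polynomial ℝ, Integrable (fun x => p.eval x) μ ∧
      Integrable (fun x => p.eval x) ν ∧ ∫ x, p.eval x ∂μ = ∫ x, p.eval x ∂ν := by
    intro p
    induction p using Polynomial.induction_on' with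
    | add p q hp hq =>
      obtain ⟨h1, h2, h3⟩ := hp
      obtain ⟨h4, h5, h6⟩ := hq
      simp only [Polynomial.eval_add]
      refine ⟨h1.add h4, h2.add h5, ?_⟩
      rw [integral_add h1 h4, integral_add h2 h5, h3, h6]
    | monomial n c =>
      simp only [Polynomial.eval_monomial]
      refine ⟨(hpow hμ n).const_mul c, (hpow hν n).const_mul c, ?_⟩
      rw [integral_const_mul, integral_const_mul, hm]
  apply ext_of_forall_integral_eq_of_IsFiniteMeasure
  intro f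
  rw [← sub_eq_zero]
  by_contra hne
  set d := ∫ x, f x ∂μ - ∫ x, f x ∂ν with hd
  have hdpos : 0 < |d| := abs_pos.2 hne
  set M := μ.real univ + ν.real univ + 1 with hM
  have hMpos : 0 < M := by positivity
  obtain ⟨p, hp⟩ := exists_polynomial_near_of_continuousOn a b f f.continuous.continuousOn
    (|d| / M) (by positivity)
  obtain ⟨h1, h2, h3⟩ := hpoly p
  have hf1 : Integrable (fun x => f x) μ := f.integrable μ
  have hf2 : Integrable (fun x => f x) ν := f.integrable ν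
  have e1 : |∫ x, (p.eval x - f x) ∂μ| ≤ |d| / M * μ.real univ := by
    rw [← Real.norm_eq_abs]
    apply norm_integral_le_of_norm_le_const
    filter_upwards [hμ] with x hx using (hp x hx).le
  have e2 : |∫ x, (p.eval x - f x) ∂ν| ≤ |d| / M * ν.real univ := by
    rw [← Real.norm_eq_abs]
    apply norm_integral_le_of_norm_le_const
    filter_upwards [hν] with x hx using (hp x hx).le
  rw [integral_sub h1 hf1] at e1
  rw [integral_sub h2 hf2] at e2
  have e3 : |d| ≤ |d| / M * μ.real univ + |d| / M * ν.real univ := by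
    have : d = (∫ x, p.eval x ∂ν - ∫ x, f x ∂ν) - (∫ x, p.eval x ∂μ - ∫ x, f x ∂μ) := by
      rw [hd, h3]; ring
    calc |d| = |(∫ x, p.eval x ∂ν - ∫ x, f x ∂ν) - (∫ x, p.eval x ∂μ - ∫ x, f x ∂μ)| := by
          rw [← this]
      _ ≤ |∫ x, p.eval x ∂ν - ∫ x, f x ∂ν| + |∫ x, p.eval x ∂μ - ∫ x, f x ∂μ| := abs_sub _ _
      _ ≤ _ := by linarith
  have e4 : |d| / M * μ.real univ + |d| / M * ν.real univ < |d| := by
    have : |d| / M * μ.real univ + |d| / M * ν.real univ = |d| / M * (M - 1) := by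
      rw [hM]; ring
    rw [this]
    have h5 : |d| / M * (M - 1) = |d| - |d| / M := by field_simp
    rw [h5]
    have : 0 < |d| / M := by positivity
    linarith
  linarith

theorem integral_wlaw {Ω : Type*} [MeasurableSpace Ω] {P : Measure Ω} {W D : Ω → ℝ}
    (hW : AEMeasurable W P) (hD : Integrable D P) (hD0 : ∀ᵐ x ∂P, 0 ≤ D x)
    {g : ℝ → ℝ} (hg : Measurable g) :
    ∫ y, g y ∂((P.withDensity fun x => ENNReal.ofReal (D x)).map W) =
      ∫ x, D x * g (W x) ∂P := by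
  have hac : P.withDensity (fun x => ENNReal.ofReal (D x)) ≪ P :=
    withDensity_absolutelyContinuous _ _
  rw [integral_map (hW.mono_ac hac) hg.aestronglyMeasurable,
    integral_withDensity_eq_integral_toReal_smul₀ hD.aestronglyMeasurable.aemeasurable.ennreal_ofReal
      (by simp)]
  refine integral_congr_ae ?_
  filter_upwards [hD0] with x hx
  rw [ENNReal.toReal_ofReal hx, smul_eq_mul]

/-- Transfer of integrals between two weighted laws with equal moments. -/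
theorem moment_transfer {Ω₁ Ω₂ : Type*} [MeasurableSpace Ω₁] [MeasurableSpace Ω₂]
    {P₁ : Measure Ω₁} {P₂ : Measure Ω₂} {W₁ D₁ : Ω₁ → ℝ} {W₂ D₂ : Ω₂ → ℝ} {a b : ℝ}
    (hW₁ : AEMeasurable W₁ P₁) (hW₂ : AEMeasurable W₂ P₂)
    (hD₁ : Integrable D₁ P₁) (hD₂ : Integrable D₂ P₂)
    (hD₁0 : ∀ᵐ x ∂P₁, 0 ≤ D₁ x) (hD₂0 : ∀ᵐ x ∂P₂, 0 ≤ D₂ x)
    (hb₁ : ∀ᵐ x ∂P₁, W₁ x ∈ Icc a b) (hb₂ : ∀ᵐ x ∂P₂, W₂ x ∈ Icc a b)
    (hm : ∀ k : ℕ, ∫ x, D₁ x * W₁ x ^ k ∂P₁ = ∫ x, D₂ x * W₂ x ^ k ∂P₂)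
    {g : ℝ → ℝ} (hg : Measurable g) :
    ∫ x, D₁ x * g (W₁ x) ∂P₁ = ∫ x, D₂ x * g (W₂ x) ∂P₂ := by
  have hac₁ : P₁.withDensity (fun x => ENNReal.ofReal (D₁ x)) ≪ P₁ :=
    withDensity_absolutelyContinuous _ _
  have hac₂ : P₂.withDensity (fun x => ENNReal.ofReal (D₂ x)) ≪ P₂ :=
    withDensity_absolutelyContinuous _ _
  have : IsFiniteMeasure (P₁.withDensity fun x => ENNReal.ofReal (D₁ x)) :=
    isFiniteMeasure_withDensity_ofReal hD₁.2
  have : IsFiniteMeasure (P₂.withDensity fun x => ENNReal.ofReal (D₂ x)) :=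
    isFiniteMeasure_withDensity_ofReal hD₂.2
  have heq : (P₁.withDensity fun x => ENNReal.ofReal (D₁ x)).map W₁ =
      (P₂.withDensity fun x => ENNReal.ofReal (D₂ x)).map W₂ := by
    refine measure_eq_of_moments (a := a) (b := b) ?_ ?_ ?_
    · have h1 := (ae_map_iff (p := fun x => x ∈ Icc a b) (hW₁.mono_ac hac₁)
        measurableSet_Icc).2 (hac₁.ae_le hb₁)
      exact h1
    · have h1 := (ae_map_iff (p := fun x => x ∈ Icc a b) (hW₂.mono_ac hac₂)
        measurableSet_Icc).2 (hac₂.ae_le hb₂)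
      exact h1
    · intro n
      have hpm : Measurable (fun x : ℝ => x ^ n) := by fun_prop
      rw [integral_wlaw hW₁ hD₁ hD₁0 hpm, integral_wlaw hW₂ hD₂ hD₂0 hpm]
      exact hm n
  rw [← integral_wlaw hW₁ hD₁ hD₁0 hg, ← integral_wlaw hW₂ hD₂ hD₂0 hg, heq]

end Pool.Agent.K3M
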