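import Pool.Agent.K3M.Law0
import Pool.Agent.MM7.Defs

/-! # K3M law side: the three cosines -/

namespace Pool.Agent.K3M

open scoped Real Topology
open Filter MeasureTheory Set

noncomputable section

/-- uniform law on `(0,1]` -/
def U1 : Measure ℝ := volume.restrict (Ioc (0:ℝ) 1)

instance : IsProbabilityMeasure U1 := ⟨by simp [U1]⟩

/-- uniform law on the cube -/
def U3 : Measure (ℝ × ℝ × ℝ) := U1.prod (U1.prod U1)

instance : IsProbabilityMeasure U3 := by unfold U3; infer_instance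

/-- `2 |cos π a|` -/
def Cf (a : ℝ) : ℝ := 2 * |Real.cos (π * a)|

/-- `8 |cos cos cos|` -/
def RR (x : ℝ × ℝ × ℝ) : ℝ := Cf x.1 * (Cf x.2.1 * Cf x.2.2)

theorem Cf_nonneg (a : ℝ) : 0 ≤ Cf a := by unfold Cf; positivity

theorem Cf_le (a : ℝ) : Cf a ≤ 2 := by
  unfold Cf
  have := Real.abs_cos_le_one (π * a)
  linarith

theorem Cf_cont : Continuous Cf := by unfold Cf; fun_prop

theorem RR_cont : Continuous RR := by
  unfold RR
  exact (Cf_cont.comp continuous_fst).mul ((Cf_cont.comp (continuous_fst.comp continuous_snd)).mul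
    (Cf_cont.comp (continuous_snd.comp continuous_snd)))

theorem RR_nonneg (x : ℝ × ℝ × ℝ) : 0 ≤ RR x :=
  mul_nonneg (Cf_nonneg _) (mul_nonneg (Cf_nonneg _) (Cf_nonneg _))

theorem RR_le (x : ℝ × ℝ × ℝ) : RR x ≤ 8 := by
  have h1 := Cf_le x.1
  have h2 := Cf_le x.2.1
  have h3 := Cf_le x.2.2
  have h4 := Cf_nonneg x.1
  have h5 := Cf_nonneg x.2.1
  have h6 := Cf_nonneg x.2.2
  unfold RR
  have h7 : Cf x.2.1 * Cf x.2.2 ≤ 2 * 2 := mul_le_mul h2 h3 h6 (by norm_num)
  calc Cf x.1 * (Cf x.2.1 * Cf x.2.2) ≤ 2 * (2 * 2) :=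
        mul_le_mul h1 h7 (mul_nonneg h5 h6) (by norm_num)
    _ = 8 := by norm_num

/-- an integral over a period of `cos (π a)` through `sin` -/
theorem int_Cf (f : ℝ → ℝ) : ∫ a in (0:ℝ)..1, f (Cf a) =
    (1 / π) * ∫ x in (0:ℝ)..π, f (2 * Real.sin x) := by
  have h1 : ∫ a in (0:ℝ)..1, f (Cf a) = (1 / π) * ∫ x in (0:ℝ)..π, f (2 * |Real.cos x|) := by
    have := intervalIntegral.integral_comp_mul_left (a := 0) (b := 1)
      (fun x => f (2 * |Real.cos x|)) Real.pi_ne_zero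
    simp only [mul_zero, mul_one, smul_eq_mul] at this
    simp only [Cf]
    rw [this, one_div]
  rw [h1]
  congr 1
  have hper : Function.Periodic (fun x => f (2 * |Real.cos x|)) π := by
    intro x
    simp [Real.cos_add_pi, abs_neg]
  have h2 : ∫ x in (0:ℝ)..π, f (2 * |Real.cos x|) =
      ∫ x in (-(π/2))..(-(π/2) + π), f (2 * |Real.cos x|) := by
    have := hper.intervalIntegral_add_eq 0 (-(π/2))
    simpa using this
  rw [h2]
  have h3 : ∫ x in (0:ℝ)..π, f (2 * Real.sin x) =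
      ∫ x in (-(π/2))..(-(π/2) + π), f (2 * Real.cos x) := by
    have := intervalIntegral.integral_comp_add_right (a := -(π/2)) (b := -(π/2) + π)
      (fun x => f (2 * Real.sin x)) (π/2)
    simp only [Real.sin_add_pi_div_two] at this
    rw [this]
    congr 1 <;> ring
  rw [h3]
  refine intervalIntegral.integral_congr fun x hx => ?_
  have hx' : x ∈ Icc (-(π/2)) (π/2) := by
    rw [uIcc_of_le (by linarith [Real.pi_pos])] at hx
    exact ⟨hx.1, by linarith [hx.2]⟩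
  change f (2 * |Real.cos x|) = f (2 * Real.cos x)
  rw [abs_of_nonneg (Real.cos_nonneg_of_mem_Icc hx')]

theorem U1_int (f : ℝ → ℝ) : ∫ a, f a ∂U1 = ∫ a in (0:ℝ)..1, f a := by
  rw [intervalIntegral.integral_of_le zero_le_one]; rfl

theorem cos_moment (k : ℕ) : ∫ a, Cf a ^ (2 * k + 1) ∂U1 = cc k := by
  rw [U1_int, int_Cf (fun x => x ^ (2 * k + 1))]
  simp only [mul_pow]
  rw [intervalIntegral.integral_const_mul, integral_sin_pow_odd, cc, pow_succ, pow_mul, pow_succ]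
  norm_num
  ring

theorem RR_moment (k : ℕ) : ∫ x, RR x ^ (2 * k + 1) ∂U3 = cc k ^ 3 := by
  have h1 : ∀ x : ℝ × ℝ × ℝ, RR x ^ (2 * k + 1) =
      Cf x.1 ^ (2 * k + 1) * (Cf x.2.1 ^ (2 * k + 1) * Cf x.2.2 ^ (2 * k + 1)) := by
    intro x; simp only [RR, mul_pow]
  simp only [h1, U3]
  rw [integral_prod_mul (μ := U1) (ν := U1.prod U1) (fun a => Cf a ^ (2 * k + 1))
    (fun y : ℝ × ℝ => Cf y.1 ^ (2 * k + 1) * Cf y.2 ^ (2 * k + 1)),
    integral_prod_mul (μ := U1) (ν := U1) (fun a => Cf a ^ (2 * k + 1))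
      (fun a => Cf a ^ (2 * k + 1)), cos_moment]
  ring

theorem Cf_log_int : ∫ a, Real.log (Cf a) ∂U1 = 0 := by
  rw [U1_int, int_Cf Real.log]
  have h1 : ∫ x in (0:ℝ)..π, Real.log (2 * Real.sin x) =
      ∫ x in (0:ℝ)..π, (Real.log 2 + Real.log (Real.sin x)) := by
    refine intervalIntegral.integral_congr_ae ?_
    have : ∀ᵐ x : ℝ, x ≠ π := by
      simp [ae_iff, measure_singleton]
    filter_upwards [this] with x hx hx2
    rw [uIoc_of_le Real.pi_pos.le] at hx2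
    have : 0 < Real.sin x := Real.sin_pos_of_pos_of_lt_pi hx2.1 (lt_of_le_of_ne hx2.2 hx)
    rw [Real.log_mul (by norm_num) this.ne']
  have h2 : IntervalIntegrable (fun x => Real.log (Real.sin x)) volume 0 π :=
    intervalIntegrable_log_sin
  rw [h1, intervalIntegral.integral_add (by simp) h2, integral_log_sin_zero_pi]
  simp
  ring

theorem Cf_ne_zero : ∀ᵐ a ∂U1, Cf a ≠ 0 := by
  unfold U1
  have h1 : ∀ᵐ a ∂(volume.restrict (Ioc (0:ℝ) 1)), a ≠ 1/2 := by
    refine ae_restrict_of_ae ?_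
    simp [ae_iff, measure_singleton]
  filter_upwards [h1, ae_restrict_mem measurableSet_Ioc] with a ha hm h0
  apply ha
  have h2 : Real.cos (π * a) = 0 := by
    unfold Cf at h0
    have : |Real.cos (π * a)| = 0 := by linarith
    exact abs_eq_zero.1 this
  obtain ⟨k, hk⟩ := Real.cos_eq_zero_iff.1 h2
  have hpi := Real.pi_pos
  have h3 : a = (2 * (k : ℝ) + 1) / 2 := by
    have : π * a = π * ((2 * (k : ℝ) + 1) / 2) := by rw [hk]; ring
    exact mul_left_cancel₀ hpi.ne' this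
  have h4 : (0:ℝ) < (2 * (k : ℝ) + 1) / 2 := h3 ▸ hm.1
  have h5 : (2 * (k : ℝ) + 1) / 2 ≤ 1 := h3 ▸ hm.2
  have h6 : (-1 : ℝ) < k := by linarith
  have h7 : (k : ℝ) < 1 := by linarith
  have h8 : (-1 : ℤ) < k := by exact_mod_cast h6
  have h9 : k < 1 := by exact_mod_cast h7
  have h10 : k = 0 := by omega
  rw [h3, h10]; norm_num

theorem Cf_log_integrable : Integrable (fun a => Real.log (Cf a)) U1 := by
  have h1 : IntervalIntegrable (fun x => Real.log (Real.cos x)) volume (π * 0) (π * 1) :=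
    intervalIntegrable_log_cos
  have h2 : IntervalIntegrable (fun a => Real.log (Real.cos (π * a))) volume 0 1 := by
    have := h1.comp_mul_left (c := π)
    simpa [Real.pi_ne_zero] using this
  have h3 : Integrable (fun a => Real.log (Real.cos (π * a))) U1 :=
    (intervalIntegrable_iff_integrableOn_Ioc_of_le zero_le_one).1 h2
  have h4 : Integrable (fun a => Real.log 2 + Real.log (Real.cos (π * a))) U1 :=
    (integrable_const _).add h3
  refine h4.congr ?_
  filter_upwards [Cf_ne_zero] with a ha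
  have h5 : |Real.cos (π * a)| ≠ 0 := by
    intro h; apply ha; unfold Cf; rw [h]; ring
  unfold Cf
  rw [Real.log_mul (by norm_num) h5, Real.log_abs]

theorem RR_ne_zero : ∀ᵐ x ∂U3, Cf x.1 ≠ 0 ∧ Cf x.2.1 ≠ 0 ∧ Cf x.2.2 ≠ 0 := by
  unfold U3
  have h1 : ∀ᵐ x ∂(U1.prod (U1.prod U1)), Cf x.1 ≠ 0 :=
    Measure.quasiMeasurePreserving_fst.ae Cf_ne_zero
  have h2' : ∀ᵐ y ∂(U1.prod U1), Cf y.1 ≠ 0 := Measure.quasiMeasurePreserving_fst.ae Cf_ne_zero
  have h3' : ∀ᵐ y ∂(U1.prod U1), Cf y.2 ≠ 0 := Measure.quasiMeasurePreserving_snd.ae Cf_ne_zero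
  have h2 : ∀ᵐ x ∂(U1.prod (U1.prod U1)), Cf x.2.1 ≠ 0 ∧ Cf x.2.2 ≠ 0 :=
    Measure.quasiMeasurePreserving_snd.ae (h2'.and h3')
  exact h1.and h2

theorem RR_log_int : ∫ x, Real.log (RR x) ∂U3 = 0 := by
  have h1 : ∫ x, Real.log (RR x) ∂U3 =
      ∫ x, (Real.log (Cf x.1) + (Real.log (Cf x.2.1) + Real.log (Cf x.2.2))) ∂U3 := by
    refine integral_congr_ae ?_
    filter_upwards [RR_ne_zero] with x hx
    unfold RR
    rw [Real.log_mul hx.1 (mul_ne_zero hx.2.1 hx.2.2), Real.log_mul hx.2.1 hx.2.2]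
  rw [h1]
  unfold U3
  have i1 : Integrable (fun x : ℝ × ℝ × ℝ => Real.log (Cf x.1)) (U1.prod (U1.prod U1)) :=
    Cf_log_integrable.comp_fst _
  have j1 : Integrable (fun y : ℝ × ℝ => Real.log (Cf y.1)) (U1.prod U1) :=
    Cf_log_integrable.comp_fst _
  have j2 : Integrable (fun y : ℝ × ℝ => Real.log (Cf y.2)) (U1.prod U1) :=
    Cf_log_integrable.comp_snd _
  have i2 : Integrable (fun x : ℝ × ℝ × ℝ => Real.log (Cf x.2.1)) (U1.prod (U1.prod U1)) :=
    j1.comp_snd _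
  have i3 : Integrable (fun x : ℝ × ℝ × ℝ => Real.log (Cf x.2.2)) (U1.prod (U1.prod U1)) :=
    j2.comp_snd _
  have i23 : Integrable (fun x : ℝ × ℝ × ℝ => Real.log (Cf x.2.1) + Real.log (Cf x.2.2))
      (U1.prod (U1.prod U1)) := i2.add i3
  rw [integral_add i1 i23, integral_add i2 i3,
    integral_fun_fst (fun a => Real.log (Cf a)),
    integral_fun_snd (fun y : ℝ × ℝ => Real.log (Cf y.1)),
    integral_fun_snd (fun y : ℝ × ℝ => Real.log (Cf y.2)),
    integral_fun_fst (fun a => Real.log (Cf a)),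
    integral_fun_snd (fun a => Real.log (Cf a)), Cf_log_int]
  simp

end

end Pool.Agent.K3M
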