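import Pool.Agent.K3M.Law3
import Pool.Agent.K3M.Law4
import Pool.Agent.K3M.Law5

/-! # K3M law side: Jensen's formula and the transfer -/

namespace Pool.Agent.K3M

open scoped Real Topology
open Filter MeasureTheory Set

noncomputable section

theorem jensen (A : ℂ) : ∫ d in (0:ℝ)..1, Real.log ‖A + MM7.e d‖ = Real.posLog ‖A‖ := by
  have h1 := circleAverage_log_norm_add_const_eq_posLog (a := A)
  rw [← h1, Real.circleAverage_def]
  have h2 := intervalIntegral.integral_comp_mul_left (a := 0) (b := 1)
    (fun θ => Real.log ‖circleMap 0 1 θ + A‖) (c := 2 * π) (by positivity)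
  simp only [mul_zero, mul_one, smul_eq_mul] at h2 ⊢
  rw [← h2]
  refine intervalIntegral.integral_congr fun d _ => ?_
  simp only [circleMap, MM7.e]
  congr 2
  push_cast
  ring_nf

theorem norm_one_add_e (a : ℝ) : ‖1 + MM7.e a‖ = Cf a := by
  have h1 : 1 + MM7.e a = Complex.exp (π * a * Complex.I) * (2 * Complex.cos (π * a)) := by
    rw [MM7.e, Complex.cos]
    have : Complex.exp (2 * π * a * Complex.I) =
        Complex.exp (π * a * Complex.I) * Complex.exp (π * a * Complex.I) := by
      rw [← Complex.exp_add]; ring_nf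
    rw [this]
    have h2 : Complex.exp (π * a * Complex.I) * Complex.exp (-(π * a) * Complex.I) = 1 := by
      rw [← Complex.exp_add]; ring_nf; simp
    linear_combination - h2
  rw [h1, norm_mul]
  have h3 : ‖Complex.exp (π * a * Complex.I)‖ = 1 := by
    have : (π * a * Complex.I : ℂ) = ((π * a : ℝ) : ℂ) * Complex.I := by push_cast; ring
    rw [this, Complex.norm_exp_ofReal_mul_I]
  have h4 : Complex.cos (π * a) = ((Real.cos (π * a) : ℝ) : ℂ) := by push_cast; rfl
  rw [h3, one_mul, norm_mul, h4, Complex.norm_real, Real.norm_eq_abs, Cf]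
  simp

theorem mahler_U3 : MM7.mahler = ∫ x, Real.posLog (RR x) ∂U3 := by
  have hint : Integrable (fun x : ℝ × ℝ × ℝ => Real.posLog (RR x)) U3 := by
    refine Integrable.of_bound (Real.continuous_posLog.comp RR_cont).aestronglyMeasurable
      (Real.posLog 8) (Eventually.of_forall fun x => ?_)
    rw [Real.norm_eq_abs, abs_of_nonneg Real.posLog_nonneg]
    exact Real.posLog_le_posLog (RR_nonneg x) (RR_le x)
  unfold U3 at hint ⊢
  rw [integral_prod _ hint, U1_int]
  unfold MM7.mahler
  refine intervalIntegral.integral_congr fun a _ => ?_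
  have hint2 : Integrable (fun y : ℝ × ℝ => Real.posLog (RR (a, y))) (U1.prod U1) := by
    refine Integrable.of_bound (Real.continuous_posLog.comp
      (RR_cont.comp (by fun_prop : Continuous fun y : ℝ × ℝ => (a, y)))).aestronglyMeasurable
      (Real.posLog 8) (Eventually.of_forall fun x => ?_)
    rw [Real.norm_eq_abs, abs_of_nonneg Real.posLog_nonneg]
    exact Real.posLog_le_posLog (RR_nonneg _) (RR_le _)
  rw [integral_prod _ hint2, U1_int]
  refine intervalIntegral.integral_congr fun b _ => ?_
  rw [U1_int]
  refine intervalIntegral.integral_congr fun c _ => ?_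
  rw [jensen, norm_mul, norm_mul, norm_one_add_e, norm_one_add_e, norm_one_add_e]
  simp only [RR]
  rw [mul_assoc]

end

end Pool.Agent.K3M
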