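import Pool.Agent.K3M.Law6

/-! # K3M law side: the Mahler measure from the system -/

namespace Pool.Agent.K3M

open scoped Real Topology
open Filter MeasureTheory Set

noncomputable section

namespace Sys

variable {e p h w : ℝ → ℝ}

theorem w_cont (S : Sys e p h w) : ContinuousOn w (Ioi 0) := fun v hv =>
  (S.hwd (v := v) hv).continuousAt.continuousWithinAt

theorem w_pos (S : Sys e p h w) {v : ℝ} (hv : 0 < v) : 0 < w v := by
  rw [S.wX hv]; have := S.X_nonneg hv; positivity

theorem w_le (S : Sys e p h w) {v : ℝ} (hv : 0 < v) : w v ≤ 64 := by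
  rw [S.wX hv]; have := S.X_le hv; linarith

theorem e_nonneg (S : Sys e p h w) {v : ℝ} (hv : 1 ≤ v) : 0 ≤ e v := by
  rcases hv.lt_or_eq with h | h
  · exact (S.epos h).le
  · rw [← h, S.e_one]

theorem dens_nonneg (S : Sys e p h w) {v : ℝ} (hv : 1 ≤ v) : 0 ≤ dens e h v := by
  have h0 : 0 < v := by linarith
  have h1 := S.X_nonneg h0
  have h2 := S.Bpos h0
  have h3 := S.e_nonneg hv
  have h4 : 0 ≤ v ^ 2 - 1 := by nlinarith
  unfold dens
  positivity

theorem dens_rho (S : Sys e p h w) {v : ℝ} (hv : 0 < v) : dens e h v = √(w v) * rho e h v := by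
  have h1 := S.B2pos hv
  have h2 := S.hpos v hv
  have h3 : √(w v) = 16 * √(h v) / BB e h v := by
    rw [S.hw v hv, Real.sqrt_div (by positivity), Real.sqrt_mul (by norm_num),
      show (256:ℝ) = 16 ^ 2 by norm_num, Real.sqrt_sq (by norm_num)]
    rfl
  have h4 : XX e h v = 4 * h v / BB e h v ^ 2 := by rw [S.Bsq hv]; rfl
  have h5 := S.Bpos hv
  have h6 : √(h v) * √(h v) = h v := Real.mul_self_sqrt h2.le
  unfold dens rho
  rw [h3, h4]
  field_simp
  linear_combination (-16 * e v * (v ^ 2 - 1)) * h6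

theorem transfer (S : Sys e p h w) {g : ℝ → ℝ} (hg : Measurable g) :
    ∫ x, RR x * g (RR x ^ 2) ∂U3 = ∫ v in Ioi 1, dens e h v * g (w v) := by
  have hdi : Integrable (dens e h) (volume.restrict (Ioi 1)) := by
    have := S.dens_int 0
    simp only [pow_zero, one_mul] at this
    exact this
  have hwm : AEMeasurable w (volume.restrict (Ioi 1)) :=
    (S.w_cont.mono (Ioi_subset_Ioi zero_le_one)).aemeasurable measurableSet_Ioi
  refine moment_transfer (a := 0) (b := 64) (P₁ := U3) (P₂ := volume.restrict (Ioi 1))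
    (D₁ := RR) (W₁ := fun x => RR x ^ 2) (D₂ := dens e h) (W₂ := w)
    (RR_cont.pow 2).aemeasurable hwm ?_ hdi (Eventually.of_forall RR_nonneg) ?_ ?_ ?_ ?_ hg
  · exact Integrable.of_bound RR_cont.aestronglyMeasurable 8 (Eventually.of_forall fun x => by
      rw [Real.norm_eq_abs, abs_of_nonneg (RR_nonneg x)]; exact RR_le x)
  · filter_upwards [ae_restrict_mem measurableSet_Ioi] with v hv
    exact S.dens_nonneg (le_of_lt hv)
  · refine Eventually.of_forall fun x => ⟨by positivity, ?_⟩
    have h1 := RR_nonneg x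
    have h2 := RR_le x
    change RR x ^ 2 ≤ 64
    nlinarith
  · filter_upwards [ae_restrict_mem measurableSet_Ioi] with v hv
    have hv0 : (0:ℝ) < v := lt_trans zero_lt_one hv
    exact ⟨(S.w_pos hv0).le, S.w_le hv0⟩
  · intro k
    have h1 : ∀ x, RR x * (RR x ^ 2) ^ k = RR x ^ (2 * k + 1) := by
      intro x; rw [← pow_mul, pow_succ, mul_comm]
    simp only [h1]
    rw [RR_moment, ← S.M_eq k]
    refine integral_congr_ae (Eventually.of_forall fun v => ?_)
    exact mul_comm _ _

theorem dens_g (S : Sys e p h w) (g : ℝ → ℝ) {v : ℝ} (hv : 0 < v) :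
    dens e h v * (g (w v) / √(w v)) = rho e h v * g (w v) := by
  rw [S.dens_rho hv]
  have := Real.sqrt_pos.2 (S.w_pos hv)
  field_simp

theorem transfer' (S : Sys e p h w) {g : ℝ → ℝ} (hg : Measurable g) (hg0 : g 0 = 0) :
    ∫ x, g (RR x ^ 2) ∂U3 = ∫ v in Ioi 1, rho e h v * g (w v) := by
  have h1 := S.transfer (g := fun W => g W / √W) (hg.div (by fun_prop))
  have h2 : ∀ x, RR x * (g (RR x ^ 2) / √(RR x ^ 2)) = g (RR x ^ 2) := by
    intro x
    rw [Real.sqrt_sq (RR_nonneg x)]
    by_cases h : RR x = 0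
    · rw [h]; simp [hg0]
    · field_simp
  simp only [h2] at h1
  rw [h1]
  refine setIntegral_congr_fun measurableSet_Ioi fun v hv => ?_
  exact S.dens_g g (lt_trans zero_lt_one hv)

theorem log_zero (S : Sys e p h w) : ∫ v in Ioi 1, rho e h v * Real.log (w v) = 0 := by
  rw [← S.transfer' Real.measurable_log Real.log_zero]
  simp only [Real.log_pow]
  rw [integral_const_mul, RR_log_int, mul_zero]

theorem mahler_posLog (S : Sys e p h w) :
    MM7.mahler = (1 / 2) * ∫ v in Ioi 1, rho e h v * Real.posLog (w v) := by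
  rw [mahler_U3, ← S.transfer' Real.continuous_posLog.measurable Real.posLog_zero]
  simp only [Real.posLog_pow]
  rw [integral_const_mul]
  push_cast
  ring

end Sys

end

end Pool.Agent.K3M
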