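import Pool.Agent.K3M.Law7

/-! # K3M law side: bounds, integrability and the final splitting at `√7` -/

namespace Pool.Agent.K3M

open scoped Real Topology
open Filter MeasureTheory Set

noncomputable section

namespace Sys

variable {e p h w : ℝ → ℝ}

theorem e_bd (S : Sys e p h w) : ∃ M, 0 < M ∧ ∀ v, 1 ≤ v → |e v| ≤ M := by
  have h1 : ∀ᶠ v in atTop, |e v| ≤ 2 := by
    have := S.e_lim.abs
    rw [abs_one] at this
    filter_upwards [this.eventually (gt_mem_nhds (by norm_num : (1:ℝ) < 2))] with v hv using hv.le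
  obtain ⟨A, hA⟩ := eventually_atTop.1 h1
  have hc : ContinuousOn (fun v => |e v|) (Icc 1 (max A 1)) := fun v hv =>
    (S.he v (lt_of_lt_of_le zero_lt_one hv.1)).continuousAt.abs.continuousWithinAt
  obtain ⟨M, hM⟩ := isCompact_Icc.bddAbove_image hc
  refine ⟨max M 2, by positivity, fun v hv => ?_⟩
  rcases le_or_gt v (max A 1) with h2 | h2
  · exact (hM ⟨v, ⟨hv, h2⟩, rfl⟩).trans (le_max_left _ _)
  · exact (hA v ((le_max_left _ _).trans h2.le)).trans (le_max_right _ _)

theorem w_one (S : Sys e p h w) : w 1 = 64 := by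
  rw [S.hw 1 one_pos, S.e_one]
  have := S.hpos 1 one_pos
  field_simp
  ring

theorem logw_bd (S : Sys e p h w) : ∃ M, 0 < M ∧ ∀ v, 1 ≤ v → |Real.log (w v)| ≤ M * v := by
  obtain ⟨M, hM0, hM⟩ := S.e_bd
  refine ⟨π * M + Real.log 64, by have := Real.log_pos (by norm_num : (1:ℝ) < 64); positivity,
    fun v hv => ?_⟩
  have hd : ∀ u ∈ Icc 1 v, HasDerivWithinAt (fun u => Real.log (w u)) (-π * e u) (Icc 1 v) u := by
    intro u hu
    have hu0 : 0 < u := lt_of_lt_of_le zero_lt_one hu.1
    have h1 := (S.hwd hu0).log (S.w_pos hu0).ne'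
    have h2 : -π * e u * w u / w u = -π * e u := by
      have := S.w_pos hu0
      field_simp
    rw [h2] at h1
    exact h1.hasDerivWithinAt
  have h3 := (convex_Icc 1 v).norm_image_sub_le_of_norm_hasDerivWithin_le (C := π * M) hd
    (fun u hu => by
      rw [norm_mul, norm_neg, Real.norm_eq_abs, Real.norm_eq_abs, abs_of_pos Real.pi_pos]
      exact mul_le_mul_of_nonneg_left (hM u hu.1) Real.pi_pos.le)
    (left_mem_Icc.2 hv) (right_mem_Icc.2 hv)
  rw [S.w_one, Real.norm_eq_abs, Real.norm_eq_abs, abs_of_nonneg (by linarith : 0 ≤ v - 1)] at h3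
  have hl := Real.log_pos (by norm_num : (1:ℝ) < 64)
  have h4 : |Real.log (w v)| ≤ |Real.log (w v) - Real.log 64| + |Real.log 64| := by
    have := abs_add_le (Real.log (w v) - Real.log 64) (Real.log 64)
    simpa using this
  rw [abs_of_pos hl] at h4
  have h5 : 0 < π * M := by positivity
  nlinarith

theorem psi_bd (S : Sys e p h w) : ∃ C, ∀ v, 1 ≤ v →
    |e v * √(h v)| ≤ C * Real.exp (-(π / 2) * v) := by
  obtain ⟨M, hM0, hM⟩ := S.e_bd
  obtain ⟨C, hC⟩ := S.h_bd
  refine ⟨M * √C, fun v hv => ?_⟩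
  have h1 := hC v hv
  have h2 : √(h v) ≤ √C * Real.exp (-(π / 2) * v) := by
    have h3 : Real.exp (-π * v) = Real.exp (-(π / 2) * v) ^ 2 := by
      rw [← Real.exp_nat_mul]; congr 1; push_cast; ring
    rw [h3] at h1
    have hC0 : 0 ≤ C := by
      by_contra hc
      have h4 := S.hpos v (by linarith)
      have h5 : 0 < Real.exp (-(π / 2) * v) ^ 2 := by positivity
      push Not at hc
      nlinarith
    calc √(h v) ≤ √(C * Real.exp (-(π / 2) * v) ^ 2) := Real.sqrt_le_sqrt h1
      _ = _ := by rw [Real.sqrt_mul hC0, Real.sqrt_sq (Real.exp_pos _).le]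
  rw [abs_mul, abs_of_nonneg (Real.sqrt_nonneg _)]
  calc |e v| * √(h v) ≤ M * (√C * Real.exp (-(π / 2) * v)) :=
        mul_le_mul (hM v hv) h2 (Real.sqrt_nonneg _) hM0.le
    _ = _ := by ring

/-- exponential decay -/
theorem logw_psi_bd (S : Sys e p h w) : ∃ C, ∀ v, 1 ≤ v →
    |Real.log (w v) * (e v * √(h v))| ≤ C * Real.exp (-v) := by
  obtain ⟨M, hM0, hM⟩ := S.logw_bd
  obtain ⟨C, hC⟩ := S.psi_bd
  refine ⟨M * C * 2, fun v hv => ?_⟩
  have hC0 : 0 ≤ C := by
    have := (abs_nonneg _).trans (hC 1 le_rfl)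
    by_contra hc
    push Not at hc
    have h5 : 0 < Real.exp (-(π / 2) * 1) := by positivity
    nlinarith
  rw [abs_mul]
  have h1 : v * Real.exp (-(π / 2) * v) ≤ 2 * Real.exp (-v) := by
    have hpi := Real.pi_gt_three
    have h2 : v / 2 ≤ Real.exp (v / 2) := by
      have := Real.add_one_le_exp (v / 2); linarith
    have h3 : Real.exp (-(π / 2) * v) ≤ Real.exp (-v) * Real.exp (-(v / 2)) := by
      rw [← Real.exp_add]
      apply Real.exp_le_exp.2
      nlinarith
    have h4 : Real.exp (v / 2) * Real.exp (-(v / 2)) = 1 := by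
      rw [← Real.exp_add]; simp
    have h5 : 0 < Real.exp (-(v / 2)) := Real.exp_pos _
    have h6 : 0 < Real.exp (-v) := Real.exp_pos _
    have h7 : v * Real.exp (-(v / 2)) ≤ 2 := by
      have : v / 2 * Real.exp (-(v / 2)) ≤ Real.exp (v / 2) * Real.exp (-(v / 2)) :=
        mul_le_mul_of_nonneg_right h2 h5.le
      rw [h4] at this
      linarith
    calc v * Real.exp (-(π / 2) * v) ≤ v * (Real.exp (-v) * Real.exp (-(v / 2))) :=
          mul_le_mul_of_nonneg_left h3 (by linarith)
      _ = Real.exp (-v) * (v * Real.exp (-(v / 2))) := by ring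
      _ ≤ Real.exp (-v) * 2 := mul_le_mul_of_nonneg_left h7 h6.le
      _ = _ := by ring
  calc |Real.log (w v)| * |e v * √(h v)| ≤ (M * v) * (C * Real.exp (-(π / 2) * v)) :=
        mul_le_mul (hM v hv) (hC v hv) (abs_nonneg _) (by positivity)
    _ = M * C * (v * Real.exp (-(π / 2) * v)) := by ring
    _ ≤ M * C * (2 * Real.exp (-v)) := mul_le_mul_of_nonneg_left h1 (by positivity)
    _ = _ := by ring

theorem logw_psi_cont (S : Sys e p h w) :
    ContinuousOn (fun v => Real.log (w v) * (e v * √(h v))) (Ioi 0) := by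
  intro v hv
  have hv' : (0:ℝ) < v := hv
  have h1 := ((S.hwd hv').continuousAt).log (S.w_pos hv').ne'
  have h2 := (S.he v hv').continuousAt
  have h3 := (S.hh v hv').continuousAt.sqrt
  exact (h1.mul (h2.mul h3)).continuousWithinAt

theorem int_pow (S : Sys e p h w) (n : ℕ) :
    IntegrableOn (fun v => v ^ n * (Real.log (w v) * (e v * √(h v)))) (Ioi 1) := by
  obtain ⟨C, hC⟩ := S.logw_psi_bd
  have h1 : IntegrableOn (fun v : ℝ => v ^ n * Real.exp (-1 * v)) (Ioi 1) := by
    have h1 := integrableOn_rpow_mul_exp_neg_mul_rpow (p := 1) (s := n) (b := 1)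
      (by have : (0:ℝ) ≤ n := Nat.cast_nonneg n; linarith) one_pos one_pos
    have h2 := h1.mono_set (Ioi_subset_Ioi (zero_le_one' ℝ))
    refine h2.congr_fun (fun v hv => ?_) measurableSet_Ioi
    simp
  refine Integrable.mono' (h1.const_mul C) ?_ ?_
  · refine ContinuousOn.aestronglyMeasurable ?_ measurableSet_Ioi
    exact (continuousOn_pow n).mul (S.logw_psi_cont.mono (Ioi_subset_Ioi zero_le_one))
  · filter_upwards [ae_restrict_mem measurableSet_Ioi] with v hv
    have hv1 : (1:ℝ) < v := hv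
    have h3 : (0:ℝ) ≤ v ^ n := by positivity
    rw [norm_mul, Real.norm_eq_abs, Real.norm_eq_abs, abs_of_nonneg h3]
    calc v ^ n * |Real.log (w v) * (e v * √(h v))| ≤ v ^ n * (C * Real.exp (-v)) :=
          mul_le_mul_of_nonneg_left (hC v hv1.le) h3
      _ = _ := by ring_nf

theorem rho_log_int (S : Sys e p h w) :
    IntegrableOn (fun v => rho e h v * Real.log (w v)) (Ioi 1) := by
  have h1 := (S.int_pow 2).sub (S.int_pow 0)
  refine h1.congr (Eventually.of_forall fun v => ?_)
  simp only [rho, Pi.sub_apply]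
  ring

theorem w_anti (S : Sys e p h w) : AntitoneOn w (Ici 1) := by
  refine antitoneOn_of_deriv_nonpos (convex_Ici 1) (S.w_cont.mono fun v hv => ?_)
    (fun v hv => ?_) (fun v hv => ?_)
  · exact lt_of_lt_of_le (zero_lt_one' ℝ) hv
  · rw [interior_Ici] at hv
    exact (S.hwd (lt_trans zero_lt_one hv)).differentiableAt.differentiableWithinAt
  · rw [interior_Ici] at hv
    have hv0 : (0:ℝ) < v := lt_trans zero_lt_one hv
    rw [(S.hwd hv0).deriv]
    have h1 := S.epos hv
    have h2 := S.w_pos hv0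
    have := Real.pi_pos
    have : 0 < π * e v * w v := by positivity
    linarith

theorem one_lt_sqrt7 : (1:ℝ) < √7 := by
  rw [show (1:ℝ) = √1 by simp]
  exact Real.sqrt_lt_sqrt (by norm_num) (by norm_num)

/-- The Mahler measure in terms of the theta integral, from the abstract system. -/
theorem mahler_eq (S : Sys e p h w) :
    MM7.mahler = -(1 / 2) * ∫ v in Ioi √7, (v ^ 2 - 1) * Real.log (w v) * (e v * √(h v)) := by
  have h7 := one_lt_sqrt7
  have hsplit : Ioi (1:ℝ) = Ioc 1 √7 ∪ Ioi √7 := (Ioc_union_Ioi_eq_Ioi h7.le).symm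
  have hdisj : Disjoint (Ioc (1:ℝ) √7) (Ioi √7) := by
    rw [Set.disjoint_left]; intro x hx hx2; exact absurd hx2 (not_lt.2 hx.2)
  have hi := S.rho_log_int
  have h0 := S.log_zero
  rw [hsplit, setIntegral_union hdisj measurableSet_Ioi
    (hi.mono_set (hsplit ▸ subset_union_left)) (hi.mono_set (hsplit ▸ subset_union_right))] at h0
  -- the positive part
  have hge : ∀ v ∈ Ioc (1:ℝ) √7, 1 ≤ w v := by
    intro v hv
    rw [← S.w_seven]
    exact S.w_anti (le_of_lt hv.1) h7.le hv.2
  have hle : ∀ v ∈ Ioi √7, w v ≤ 1 := by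
    intro v hv
    rw [← S.w_seven]
    exact S.w_anti h7.le (h7.le.trans (le_of_lt hv)) (le_of_lt hv)
  have hp1 : ∀ v ∈ Ioc (1:ℝ) √7, rho e h v * Real.posLog (w v) = rho e h v * Real.log (w v) := by
    intro v hv
    rw [Real.posLog_eq_log]
    rw [abs_of_pos (S.w_pos (lt_trans zero_lt_one hv.1))]
    exact hge v hv
  have hp2 : ∀ v ∈ Ioi √7, rho e h v * Real.posLog (w v) = 0 := by
    intro v hv
    have hv0 : (0:ℝ) < v := lt_trans (lt_trans zero_lt_one h7) hv
    rw [(Real.posLog_eq_zero_iff _).2, mul_zero]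
    rw [abs_of_pos (S.w_pos hv0)]
    exact hle v hv
  have hint1 : IntegrableOn (fun v => rho e h v * Real.posLog (w v)) (Ioc 1 √7) :=
    (hi.mono_set (hsplit ▸ subset_union_left)).congr_fun (fun v hv => (hp1 v hv).symm)
      measurableSet_Ioc
  have hint2 : IntegrableOn (fun v => rho e h v * Real.posLog (w v)) (Ioi √7) :=
    (integrable_zero ℝ ℝ _).congr (by
      filter_upwards [ae_restrict_mem measurableSet_Ioi] with v hv using (hp2 v hv).symm)
  rw [S.mahler_posLog, hsplit, setIntegral_union hdisj measurableSet_Ioi hint1 hint2,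
    setIntegral_congr_fun measurableSet_Ioc hp1, setIntegral_congr_fun measurableSet_Ioi hp2]
  simp only [integral_zero, add_zero]
  have h3 : ∫ v in Ioi √7, rho e h v * Real.log (w v) =
      ∫ v in Ioi √7, (v ^ 2 - 1) * Real.log (w v) * (e v * √(h v)) := by
    refine setIntegral_congr_fun measurableSet_Ioi fun v _ => ?_
    simp only [rho]
    ring
  rw [← h3]
  linarith

end Sys

end

end Pool.Agent.K3M
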