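import Pool.Agent.K3M.ModRam

/-! # K3M, modular side: affine substitutions and transformation laws as equations -/

namespace K3M

open UpperHalfPlane hiding I
open ModularForm ModularGroup SlashInvariantForm Complex MatrixGroups Manifold Real Filter
open EisensteinSeries Topology Function


/-- the affine map `z ↦ a z + b` of the upper half plane -/
noncomputable def aff (a b : ℝ) (ha : 0 < a) (z : ℍ) : ℍ :=
  ⟨a * z + b, by simpa using mul_pos ha z.im_pos⟩

@[simp] theorem aff_coe (a b : ℝ) (ha : 0 < a) (z : ℍ) :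
    ((aff a b ha z : ℍ) : ℂ) = a * z + b := rfl

theorem mdiff_aff {F : ℍ → ℂ} (hF : MDiff F) (a b : ℝ) (ha : 0 < a) :
    MDiff (fun z => F (aff a b ha z)) := by
  rw [UpperHalfPlane.mdifferentiable_iff] at hF ⊢
  have h1 : DifferentiableOn ℂ (fun w : ℂ => (F ∘ ofComplex) (a * w + b)) {z | 0 < z.im} := by
    refine hF.comp (by fun_prop) ?_
    intro z hz
    simpa using mul_pos ha hz
  refine h1.congr ?_
  intro z hz
  have hz' : 0 < (a * z + b : ℂ).im := by simpa using mul_pos ha hz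
  simp only [comp_apply]
  rw [ofComplex_apply_of_im_pos hz, ofComplex_apply_of_im_pos hz']
  rfl

theorem DD_aff {F : ℍ → ℂ} (hF : MDiff F) (a b : ℝ) (ha : 0 < a) (z : ℍ) :
    Derivative.normalizedDerivOfComplex (fun z => F (aff a b ha z)) z = a * Derivative.normalizedDerivOfComplex F (aff a b ha z) := by
  have hd : DifferentiableAt ℂ (F ∘ ofComplex) ((aff a b ha z : ℍ) : ℂ) :=
    UpperHalfPlane.mdifferentiableAt_iff.mp (hF _)
  have h0 : HasDerivAt (fun w : ℂ => (a : ℂ) * w + b) (a : ℂ) (z : ℂ) := by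
    simpa using ((hasDerivAt_id (z : ℂ)).const_mul (a : ℂ)).add_const (b : ℂ)
  have h1 := HasDerivAt.comp (z : ℂ) (h₂ := F ∘ ofComplex) (h := fun w : ℂ => (a : ℂ) * w + b)
    hd.hasDerivAt h0
  have h2 : ((fun z => F (aff a b ha z)) ∘ ofComplex) =ᶠ[𝓝 (z : ℂ)]
      ((F ∘ ofComplex) ∘ fun w : ℂ => (a : ℂ) * w + b) := by
    filter_upwards [isOpen_upperHalfPlaneSet.mem_nhds z.im_pos] with w hw
    have hz' : 0 < (a * w + b : ℂ).im := by simpa using mul_pos ha hw
    simp only [comp_apply]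
    rw [ofComplex_apply_of_im_pos hw, ofComplex_apply_of_im_pos hz']
    rfl
  rw [Derivative.normalizedDerivOfComplex, Derivative.normalizedDerivOfComplex, h2.deriv_eq,
    h1.deriv]
  ring

theorem aff_im (a b : ℝ) (ha : 0 < a) (z : ℍ) : (aff a b ha z).im = a * z.im := by
  rw [← coe_im, aff_coe]
  simp only [add_im, mul_im, ofReal_re, ofReal_im, coe_im, zero_mul, add_zero]

theorem tendsto_aff (a b : ℝ) (ha : 0 < a) : Tendsto (aff a b ha) atImInfty atImInfty := by
  rw [atImInfty, tendsto_comap_iff]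
  have h1 : Tendsto (fun z : ℍ => a * z.im) (comap UpperHalfPlane.im atTop) atTop :=
    tendsto_comap.const_mul_atTop ha
  refine h1.congr ?_
  intro z
  exact (aff_im a b ha z).symm

theorem lvl1_zero' {k : ℤ} (hk : k < 12) {F : ℍ → ℂ} (hF : MDiff F)
    (hS : ∀ z w : ℍ, (w : ℂ) * z = -1 → F w = (z : ℂ) ^ k * F z)
    (hT : ∀ z w : ℍ, (w : ℂ) = z + 1 → F w = F z)
    (h0 : Tendsto F atImInfty (𝓝 0)) : ∀ z, F z = 0 := by
  refine lvl1_zero hk hF ?_ ?_ h0
  · ext z
    have hz := ne_zero z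
    rw [slash_S_apply, hS z _ (by
      show (-(z : ℂ))⁻¹ * z = -1
      field_simp)]
    rw [mul_comm, ← mul_assoc, ← zpow_add₀ hz]
    simp
  · ext z
    rw [SL_slash_apply, modular_T_smul, hT z ((1 : ℝ) +ᵥ z) (by simp [add_comm])]
    simp [ModularGroup.T, denom]

/-- the constant of the quasi-modularity of `E2` -/
noncomputable def kap : ℂ := -(6 * Complex.I) / π

theorem E2_T {z w : ℍ} (h : (w : ℂ) = z + 1) : E2 w = E2 z := by
  have h1 := per_E2 (z : ℂ)
  simp only [comp_apply, ofReal_one] at h1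
  rw [← h, ofComplex_apply, ofComplex_apply] at h1
  exact h1

theorem E2_S {z w : ℍ} (h : (w : ℂ) * z = -1) : E2 w = (z : ℂ) ^ 2 * E2 z + kap * z := by
  have h1 := congrFun (E2_slash_action S) z
  have hz := ne_zero z
  have hpi : (π : ℂ) ≠ 0 := by exact_mod_cast Real.pi_ne_zero
  have hw : (UpperHalfPlane.mk (-(z : ℂ))⁻¹ z.im_inv_neg_coe_pos : ℍ) = w := by
    apply UpperHalfPlane.ext
    show (-(z : ℂ))⁻¹ = w
    field_simp
    linear_combination -h
  rw [slash_S_apply, hw] at h1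
  simp only [Pi.sub_apply, Pi.smul_apply, smul_eq_mul, D2_S, riemannZeta_two] at h1
  have h2 : E2 w = (z : ℂ) ^ 2 * (E2 w * (z : ℂ) ^ (-2 : ℤ)) := by
    rw [zpow_neg]
    field_simp
  rw [h2, h1, kap]
  field_simp
  ring

theorem modform_T {k : ℤ} (f : ModularForm 𝒮ℒ k) {z w : ℍ} (h : (w : ℂ) = z + 1) :
    f w = f z := by
  have h1 := SlashInvariantFormClass.periodic_comp_ofComplex f one_mem_strictPeriods_SL (z : ℂ)
  simp only [comp_apply, ofReal_one] at h1
  rw [← h, ofComplex_apply, ofComplex_apply] at h1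
  exact h1

theorem modform_S {k : ℤ} (f : ModularForm 𝒮ℒ k) {z w : ℍ} (h : (w : ℂ) * z = -1) :
    f w = (z : ℂ) ^ k * f z := by
  have h1 : (f : ℍ → ℂ) ∣[k] S = f := f.slash_action_eq' _ ⟨S, rfl⟩
  have h2 := congrFun h1 z
  have hz := ne_zero z
  have hw : (UpperHalfPlane.mk (-(z : ℂ))⁻¹ z.im_inv_neg_coe_pos : ℍ) = w := by
    apply UpperHalfPlane.ext
    show (-(z : ℂ))⁻¹ = w
    field_simp
    linear_combination -h
  rw [slash_S_apply, hw] at h2
  rw [← h2, mul_comm (f w), ← mul_assoc, ← zpow_add₀ hz]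
  simp

end K3M
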