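import Mathlib

/-! # K3M, modular side: level one vanishing lemma

A holomorphic function on the upper half plane, invariant under `S` and `T` in weight
`k < 12`, and tending to zero at `i infinity`, is zero. -/

namespace K3M

open UpperHalfPlane ModularForm ModularGroup SlashInvariantForm Complex MatrixGroups Manifold

theorem lvl1_zero {k : ℤ} (hk : k < 12) {F : ℍ → ℂ} (hF : MDiff F)
    (hS : F ∣[k] S = F) (hT : F ∣[k] T = F) (h0 : IsZeroAtImInfty F) : ∀ z, F z = 0 := by
  have hinv := slash_action_generators_SL2Z hS hT
  let f : CuspForm 𝒮ℒ k :=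
    { toFun := F
      slash_action_eq' := by
        rintro _ ⟨γ, rfl⟩
        exact hinv γ
      holo' := hF
      zero_at_cusps' := by
        intro c hc
        rw [Subgroup.IsArithmetic.isCusp_iff_isCusp_SL2Z] at hc
        rw [OnePoint.isZeroAt_iff_forall_SL2Z hc]
        intro γ _
        have := hinv γ
        change IsZeroAtImInfty (F ∣[k] γ)
        rw [this]
        exact h0 }
  have hr := CuspForm.rank_eq_zero_of_weight_lt_twelve hk
  have hf : f = 0 := rank_zero_iff_forall_zero.mp hr f
  intro z
  have : f z = 0 := by rw [hf]; rfl
  exact this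

end K3M
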