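import Pool.Agent.K3M.ModRel

/-! # K3M, modular side: the differential system on the upper half plane -/

namespace K3M

open UpperHalfPlane hiding I
open ModularForm ModularGroup SlashInvariantForm Complex MatrixGroups Manifold Real Filter
open EisensteinSeries Topology Function


/-- `2 E2(2z) - E2(z)` -/
noncomputable def eC (z : ℍ) : ℂ := 2 * E2 (dbl z) - E2 z
/-- `(E2(z) - E2(2z))/3` -/
noncomputable def pC (z : ℍ) : ℂ := (E2 z - E2 (dbl z)) / 3
/-- `(e^2 - E4)/12` -/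
noncomputable def hC (z : ℍ) : ℂ := (eC z ^ 2 - E₄ z) / 12

theorem X1_eq (z : ℍ) : X1 z = 2 * eC z := by rw [X1, eC]; ring

theorem E4_eq (z : ℍ) : E₄ z = eC z ^ 2 - 12 * hC z := by rw [hC]; ring

theorem E2_eq (z : ℍ) : E2 z = 6 * pC z + eC z := by rw [pC, eC]; ring

theorem hC_eq (z : ℍ) : hC z = -(X2 z - X3 z) ^ 2 / 144 := by
  have h1 := rel1 z
  have h2 := rel2 z
  have e1 : eC z = X1 z / 2 := by rw [X1_eq]; ring
  have e2 : X1 z = -(X2 z + X3 z) := by linear_combination h1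
  rw [hC, e1]
  have e3 : E₄ z = (X1 z ^ 2 - X2 z * X3 z) / 3 := by
    rw [e2] at h2 ⊢; linear_combination h2 / 3
  rw [e3, e2]; ring

theorem E6_eq (z : ℍ) : E₆ z = eC z ^ 3 + 36 * eC z * hC z := by
  have h1 := rel1 z
  have h2 := rel2 z
  have h3 := rel3 z
  have e0 := E4_eq z
  have e1 := X1_eq z
  have e4 : X2 z + X3 z = -X1 z := by linear_combination h1
  have e5 : X2 z * X3 z = X1 z ^ 2 - 3 * E₄ z := by
    linear_combination h2 - X1 z * h1
  have e6 : E₆ z = X1 z * (X1 z ^ 2 - 3 * E₄ z) / 2 := by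
    linear_combination -h3 / 2 + X1 z / 2 * e5
  rw [e6, e0, e1]; ring

theorem E4dbl_eq (z : ℍ) : E₄ (dbl z) = eC z ^ 2 + 3 * hC z := by
  have h1 := (relZ z).1
  have h2 := E4_eq z
  rw [T1, Z1, X1_eq] at h1
  linear_combination h1 / 16 - h2 / 4

theorem E2dbl_eq (z : ℍ) : E2 (dbl z) = 3 * pC z + eC z := by rw [pC, eC]; ring

theorem disc_eq (z : ℍ) :
    ModularForm.discriminant z = -(eC z ^ 2 + 4 * hC z) ^ 2 * hC z / 16 := by
  rw [ModularForm.discriminant_eq_E₄_cube_sub_E₆_sq z, E4_eq, E6_eq]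
  ring

theorem hC_ne (z : ℍ) : hC z ≠ 0 := by
  intro h
  have := ModularForm.discriminant_ne_zero z
  rw [disc_eq, h] at this
  simp at this

theorem B_ne (z : ℍ) : eC z ^ 2 + 4 * hC z ≠ 0 := by
  intro h
  have := ModularForm.discriminant_ne_zero z
  rw [disc_eq, h] at this
  simp at this

theorem E2dbl_m : MDiff (fun z => E2 (dbl z)) := mdiff_aff E2_mdifferentiable _ _ _

theorem eC_m : MDiff eC := (E2dbl_m.const_smul (2 : ℂ)).sub E2_mdifferentiable

theorem pC_m : MDiff pC := by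
  have h1 : MDiff ((3 : ℂ)⁻¹ • (E2 - fun z => E2 (dbl z))) :=
    (E2_mdifferentiable.sub E2dbl_m).const_smul _
  have h2 : ((3 : ℂ)⁻¹ • (E2 - fun z => E2 (dbl z))) = pC := by
    ext z; simp [pC]; ring
  rwa [h2] at h1

theorem hC_m : MDiff hC := by
  have h1 : MDiff ((12 : ℂ)⁻¹ • (eC * eC - (E₄ : ℍ → ℂ))) :=
    ((eC_m.mul eC_m).sub E₄.holo').const_smul _
  have h2 : ((12 : ℂ)⁻¹ • (eC * eC - (E₄ : ℍ → ℂ))) = hC := by
    ext z; simp [hC]; ring
  rwa [h2] at h1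

theorem DD_E2dbl (z : ℍ) : Derivative.normalizedDerivOfComplex (fun z => E2 (dbl z)) z = (E2 (dbl z) ^ 2 - E₄ (dbl z)) / 6 := by
  have := DD_aff E2_mdifferentiable 2 0 (by norm_num) z
  rw [ram_E2] at this
  have h2 : Derivative.normalizedDerivOfComplex (fun z => E2 (dbl z)) z = ((2 : ℝ) : ℂ) * ((E2 (dbl z) ^ 2 - E₄ (dbl z)) / 12) :=
    this
  rw [h2]; push_cast; ring

theorem DD_eC (z : ℍ) : Derivative.normalizedDerivOfComplex eC z = pC z * eC z - 2 * hC z := by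
  have h1 : eC = (2 : ℂ) • (fun z => E2 (dbl z)) - E2 := rfl
  rw [h1, Derivative.normalizedDerivOfComplex_sub _ _ (E2dbl_m.const_smul _) E2_mdifferentiable,
    Derivative.normalizedDerivOfComplex_smul _ _ E2dbl_m]
  simp only [Pi.sub_apply, Pi.smul_apply, smul_eq_mul]
  rw [DD_E2dbl, ram_E2, E4dbl_eq, E4_eq, E2dbl_eq, E2_eq]
  ring

theorem DD_pC (z : ℍ) : Derivative.normalizedDerivOfComplex pC z = (pC z ^ 2 + hC z) / 2 := by
  have h1 : pC = (3 : ℂ)⁻¹ • (E2 - fun z => E2 (dbl z)) := by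
    ext z; simp [pC]; ring
  rw [h1, Derivative.normalizedDerivOfComplex_smul _ _ (E2_mdifferentiable.sub E2dbl_m),
    Derivative.normalizedDerivOfComplex_sub _ _ E2_mdifferentiable E2dbl_m]
  rw [← h1]
  simp only [Pi.sub_apply, Pi.smul_apply, smul_eq_mul]
  rw [DD_E2dbl, ram_E2, E4dbl_eq, E4_eq, E2dbl_eq, E2_eq]
  ring

theorem DD_hC (z : ℍ) : Derivative.normalizedDerivOfComplex hC z = hC z * (2 * pC z + eC z) := by
  have h1 : hC = (12 : ℂ)⁻¹ • (eC * eC - (E₄ : ℍ → ℂ)) := by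
    ext z; simp [hC]; ring
  have hE : MDiff (E₄ : ℍ → ℂ) := E₄.holo'
  rw [h1, Derivative.normalizedDerivOfComplex_smul _ _ ((eC_m.mul eC_m).sub hE),
    Derivative.normalizedDerivOfComplex_sub _ _ (eC_m.mul eC_m) hE,
    Derivative.normalizedDerivOfComplex_mul _ _ eC_m eC_m]
  rw [← h1]
  simp only [Pi.sub_apply, Pi.smul_apply, smul_eq_mul, Pi.add_apply, Pi.mul_apply]
  rw [DD_eC, ram_E4, E4_eq, E6_eq, E2_eq]
  ring

theorem eC_lim : Tendsto eC atImInfty (𝓝 1) := by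
  have := X1_lim.const_mul ((2 : ℂ)⁻¹)
  rw [show ((2 : ℂ)⁻¹ * 2 : ℂ) = 1 by norm_num] at this
  refine this.congr ?_
  intro z
  rw [X1_eq]; ring

theorem pC_lim : Tendsto pC atImInfty (𝓝 0) := by
  have := (tendsto_E2.sub (tendsto_E2.comp (tendsto_aff 2 0 (by norm_num)))).const_mul ((3 : ℂ)⁻¹)
  rw [show ((3 : ℂ)⁻¹ * (1 - 1) : ℂ) = 0 by norm_num] at this
  refine this.congr ?_
  intro z
  simp only [pC, comp_apply, dbl]; ring

theorem hC_lim : Tendsto hC atImInfty (𝓝 0) := by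
  have := ((eC_lim.pow 2).sub tE4).const_mul ((12 : ℂ)⁻¹)
  rw [show ((12 : ℂ)⁻¹ * (1 ^ 2 - 1) : ℂ) = 0 by norm_num] at this
  refine this.congr ?_
  intro z
  simp only [hC]; ring

theorem pC_T {z w : ℍ} (h : (w : ℂ) = z + 1) : pC w = pC z := by
  rw [pC, pC, E2dbl_T h, E2_T h]
theorem eC_T {z w : ℍ} (h : (w : ℂ) = z + 1) : eC w = eC z := by
  rw [eC, eC, E2dbl_T h, E2_T h]
theorem hC_T {z w : ℍ} (h : (w : ℂ) = z + 1) : hC w = hC z := by
  rw [hC, hC, eC_T h, modform_T E₄ h]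

theorem per_of_T {F : ℍ → ℂ} (hF : ∀ z w : ℍ, (w : ℂ) = z + 1 → F w = F z) :
    Function.Periodic (F ∘ ofComplex) ((1 : ℝ) : ℂ) := by
  intro z
  simp only [comp_apply, ofReal_one]
  by_cases hz : 0 < z.im
  · have hz' : 0 < (z + 1).im := by simpa using hz
    rw [ofComplex_apply_of_im_pos hz, ofComplex_apply_of_im_pos hz']
    exact hF _ _ rfl
  · have hz2 : z.im ≤ 0 := not_lt.mp hz
    rw [ofComplex_apply_of_im_nonpos hz2,
      ofComplex_apply_of_im_nonpos (show (z + 1).im ≤ 0 by simpa using hz2)]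

theorem pC_decay : pC =O[atImInfty] fun τ ↦ Real.exp (-2 * π * τ.im / 1) :=
  IsZeroAtImInfty.exp_decay_atImInfty pC_lim one_pos (per_of_T fun _ _ h => pC_T h) pC_m
    (pC_lim.isBigO_one ℝ)

theorem hC_decay : hC =O[atImInfty] fun τ ↦ Real.exp (-2 * π * τ.im / 1) :=
  IsZeroAtImInfty.exp_decay_atImInfty hC_lim one_pos (per_of_T fun _ _ h => hC_T h) hC_m
    (hC_lim.isBigO_one ℝ)

end K3M
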