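import Pool.Agent.K3M.ModLvl1

/-! # K3M, modular side: Ramanujan identities for `E2` and `E4` -/

namespace K3M

open UpperHalfPlane hiding I
open ModularForm ModularGroup SlashInvariantForm Complex MatrixGroups Manifold Real Filter
open EisensteinSeries Topology Function


theorem qParam_add_one (z : ℂ) : Function.Periodic.qParam 1 (z + 1) = Function.Periodic.qParam 1 z := by
  simp only [Periodic.qParam]
  rw [show 2 * π * Complex.I * (z + 1) / ((1 : ℝ) : ℂ)
    = 2 * π * Complex.I * z / ((1 : ℝ) : ℂ) + 2 * π * Complex.I by push_cast; ring]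
  exact Complex.exp_periodic _

theorem per_of_qexp {f : ℍ → ℂ} {c : ℕ → ℂ}
    (hf : ∀ τ : ℍ, HasSum (fun m ↦ c m • Function.Periodic.qParam 1 τ ^ m) (f τ)) :
    Function.Periodic (f ∘ ofComplex) ((1 : ℝ) : ℂ) := by
  intro z
  simp only [comp_apply, ofReal_one]
  by_cases hz : 0 < z.im
  · have hz' : 0 < (z + 1).im := by simpa using hz
    rw [ofComplex_apply_of_im_pos hz, ofComplex_apply_of_im_pos hz']
    have h1 := hf ⟨z + 1, hz'⟩
    have h2 := hf ⟨z, hz⟩
    have h3 : (((⟨z + 1, hz'⟩ : ℍ)) : ℂ) = (((⟨z, hz⟩ : ℍ)) : ℂ) + 1 := rfl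
    rw [h3, qParam_add_one] at h1
    exact h1.unique h2
  · have hz2 : z.im ≤ 0 := not_lt.mp hz
    rw [ofComplex_apply_of_im_nonpos hz2,
      ofComplex_apply_of_im_nonpos (show (z + 1).im ≤ 0 by simpa using hz2)]

theorem tendsto_of_nice {f : ℍ → ℂ} {c : ℕ → ℂ} (hF : MDiff f)
    (hf : ∀ τ : ℍ, HasSum (fun m ↦ c m • Function.Periodic.qParam 1 τ ^ m) (f τ)) :
    Tendsto f atImInfty (𝓝 (c 0)) := by
  have hper := per_of_qexp hf
  have hb := isBoundedAtImInfty_of_hasSum_qExpansion one_pos hf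
  have han := analyticAt_cuspFunction_zero one_pos hper hF hb
  have h1 := hasFPowerSeriesOnBall_cuspFunction one_pos han hf
  have h2 : cuspFunction 1 f 0 = c 0 := by
    have := h1.hasSum_sub (y := 0) (by simp)
    have h3 : HasSum (fun n => (FormalMultilinearSeries.ofScalars ℂ c n) fun _ => (0 - 0 : ℂ))
        (c 0) := by
      have := hasSum_single (f := fun n => (FormalMultilinearSeries.ofScalars ℂ c n)
        fun _ => (0 - 0 : ℂ)) 0 (by
          intro n hn
          simp [hn])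
      simpa using this
    exact this.unique h3
  have h4 : (cuspFunction 1 f ∘ fun τ ↦ Function.Periodic.qParam 1 τ : ℍ → ℂ) = f := by
    funext τ
    simpa using eq_cuspFunction τ one_ne_zero hper
  have h5 := han.continuousAt.tendsto.comp (qParam_tendsto_atImInfty one_pos)
  rw [h4, h2] at h5
  exact h5

theorem tendsto_D {F : ℍ → ℂ} (hF : MDiff F)
    (hper : Function.Periodic (F ∘ ofComplex) ((1 : ℝ) : ℂ)) (hb : IsBoundedAtImInfty F) :
    IsZeroAtImInfty (Derivative.normalizedDerivOfComplex F) := by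
  have han := analyticAt_cuspFunction_zero one_pos hper hF hb
  have key : ∀ z : ℍ, Derivative.normalizedDerivOfComplex F z = Function.Periodic.qParam 1 z * deriv (cuspFunction 1 F) (Function.Periodic.qParam 1 z) := by
    intro z
    have h1 : F ∘ ofComplex =ᶠ[𝓝 (z : ℂ)] fun w => cuspFunction 1 F (Function.Periodic.qParam 1 w) := by
      filter_upwards [isOpen_upperHalfPlaneSet.mem_nhds z.im_pos] with w hw
      have := eq_cuspFunction ⟨w, hw⟩ one_ne_zero hper
      rw [comp_apply, ofComplex_apply_of_im_pos hw, ← this]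
    have hq : HasDerivAt (fun w : ℂ => Function.Periodic.qParam 1 w) (Function.Periodic.qParam 1 z * (2 * π * Complex.I)) (z : ℂ) := by
      have h0 : HasDerivAt (fun w : ℂ => 2 * π * Complex.I * w / ((1 : ℝ) : ℂ))
          (2 * π * Complex.I) (z : ℂ) := by
        simpa using ((hasDerivAt_id (z : ℂ)).const_mul (2 * π * Complex.I))
      exact h0.cexp
    have hd : DifferentiableAt ℂ (cuspFunction 1 F) (Function.Periodic.qParam 1 z) :=
      differentiableAt_cuspFunction one_pos hper hF hb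
        (Periodic.norm_qParam_lt_one one_pos z.im_pos)
    have h2 := hd.hasDerivAt.comp (z : ℂ) hq
    have h3 : deriv (F ∘ ofComplex) z
        = deriv (cuspFunction 1 F) (Function.Periodic.qParam 1 z) * (Function.Periodic.qParam 1 z * (2 * π * Complex.I)) := by
      rw [h1.deriv_eq]
      exact h2.deriv
    rw [Derivative.normalizedDerivOfComplex, h3]
    have : (2 * π * Complex.I : ℂ) ≠ 0 := by simp [Real.pi_ne_zero]
    field_simp
  have h5 : Tendsto (fun q : ℂ => q * deriv (cuspFunction 1 F) q) (𝓝 0) (𝓝 0) := by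
    have h6 : ContinuousAt (deriv (cuspFunction 1 F)) 0 := han.deriv.continuousAt
    have h7 : Tendsto (fun q : ℂ => q * deriv (cuspFunction 1 F) q) (𝓝 0)
        (𝓝 (0 * deriv (cuspFunction 1 F) 0)) := tendsto_id.mul h6.tendsto
    simpa using h7
  have h8 := h5.comp (qParam_tendsto_atImInfty one_pos)
  refine h8.congr ?_
  intro z
  exact (key z).symm

theorem tendsto_E2 : Tendsto E2 atImInfty (𝓝 1) := by
  have := tendsto_of_nice E2_mdifferentiable (fun τ => by
    simpa only [Function.Periodic.qParam, ofReal_one, div_one] using hasSum_qExpansion_E2 (z := τ))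
  simpa using this

theorem per_E2 : Function.Periodic (E2 ∘ ofComplex) ((1 : ℝ) : ℂ) :=
  per_of_qexp (fun τ => by
    simpa only [Function.Periodic.qParam, ofReal_one, div_one] using hasSum_qExpansion_E2 (z := τ))

theorem tendsto_E {k : ℕ} (hk : 3 ≤ k) (hk2 : Even k) :
    Tendsto (E hk : ℍ → ℂ) atImInfty (𝓝 1) := by
  have h := tendsto_of_nice (f := E hk) (c := fun m => (qExpansion 1 (E hk)).coeff m)
    (E hk).holo' (fun τ => ModularForm.hasSum_qExpansion (f := E hk) one_pos one_mem_strictPeriods_SL τ)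
  rwa [E_qExpansion_coeff_zero hk hk2] at h


theorem per_E {k : ℕ} (hk : 3 ≤ k) :
    Function.Periodic ((E hk : ℍ → ℂ) ∘ ofComplex) ((1 : ℝ) : ℂ) :=
  SlashInvariantFormClass.periodic_comp_ofComplex (E hk) one_mem_strictPeriods_SL

/-- First Ramanujan identity. -/
theorem ram_E2 (z : ℍ) : Derivative.normalizedDerivOfComplex E2 z = (E2 z ^ 2 - E₄ z) / 12 := by
  have hE2 := E2_mdifferentiable
  set F : ℍ → ℂ := Derivative.normalizedDerivOfComplex E2 - (12 : ℂ)⁻¹ • (E2 * E2 - (E₄ : ℍ → ℂ)) with hFdef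
  have hFm : MDiff F := by
    refine (Derivative.normalizedDerivOfComplex_mdifferentiable hE2).sub ?_
    exact ((hE2.mul hE2).sub E₄.holo').const_smul _
  have hE4inv : ∀ γ : SL(2, ℤ), (E₄ : ℍ → ℂ) ∣[(4 : ℤ)] γ = E₄ := by
    intro γ
    exact E₄.slash_action_eq' _ ⟨γ, rfl⟩
  have hFS : ∀ γ : SL(2, ℤ), γ = S ∨ γ = T → F ∣[(4 : ℤ)] γ = F := by
    intro γ hγ
    have h1 := Derivative.normalizedDerivOfComplex_SL_slash (k := 2) hE2 (γ := γ)
    have h2 := E2_slash_action γ
    have h3 : (E2 * E2) ∣[(4 : ℤ)] γ = (E2 ∣[(2 : ℤ)] γ) * (E2 ∣[(2 : ℤ)] γ) := by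
      have := ModularForm.mul_slash_SL2 2 2 γ E2 E2
      simpa using this
    have h4 : F ∣[(4 : ℤ)] γ = (Derivative.normalizedDerivOfComplex E2) ∣[(4 : ℤ)] γ
        - (12 : ℂ)⁻¹ • ((E2 * E2) ∣[(4 : ℤ)] γ - (E₄ : ℍ → ℂ) ∣[(4 : ℤ)] γ) := by
      rw [hFdef, sub_eq_add_neg, SlashAction.add_slash, SlashAction.neg_slash,
        SL_smul_slash, sub_eq_add_neg (E2 * E2), SlashAction.add_slash, SlashAction.neg_slash]
      simp only [sub_eq_add_neg]
    rw [h4, h3, hE4inv, h2]
    have h5 : (Derivative.normalizedDerivOfComplex E2) ∣[(4 : ℤ)] γ = Derivative.normalizedDerivOfComplex (E2 ∣[(2 : ℤ)] γ)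
        + (fun z : ℍ ↦ ((2 : ℤ) : ℂ) * (2 * π * Complex.I)⁻¹ * (γ 1 0 / denom γ z)
          * (E2 ∣[(2 : ℤ)] γ) z) := by
      rw [h1]; simp
    rw [h5, h2]
    rcases hγ with rfl | rfl
    · -- S
      have hD2 : D2 S = fun z : ℍ => (2 * π * Complex.I) / (z : ℂ) := by
        ext z; rw [D2_S]
      have hfun : E2 - (1 / (2 * riemannZeta 2)) • D2 S
          = E2 - (-(1 / (2 * riemannZeta 2) * (2 * π * Complex.I))) • (fun z : ℍ => -(z : ℂ)⁻¹) := by
        rw [hD2]
        ext z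
        simp only [Pi.sub_apply, Pi.smul_apply, smul_eq_mul]
        ring
      have hinvM : MDiff (fun z : ℍ => -(z : ℂ)⁻¹) := by
        rw [UpperHalfPlane.mdifferentiable_iff]
        have : DifferentiableOn ℂ (fun z : ℂ => -z⁻¹) {z | 0 < z.im} := by
          intro z hz
          have hz0 : z ≠ 0 := by rintro rfl; simp at hz
          exact ((differentiableAt_inv hz0).neg).differentiableWithinAt
        refine this.congr ?_
        intro z hz
        simp [ofComplex_apply_of_im_pos hz]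
      have hDinv : ∀ z : ℍ, Derivative.normalizedDerivOfComplex (fun z : ℍ => -(z : ℂ)⁻¹) z
          = (2 * π * Complex.I)⁻¹ * ((z : ℂ) ^ 2)⁻¹ := by
        intro z
        have h1 : ((fun z : ℍ => -(z : ℂ)⁻¹) ∘ ofComplex) =ᶠ[𝓝 (z : ℂ)] fun w => -w⁻¹ := by
          filter_upwards [isOpen_upperHalfPlaneSet.mem_nhds z.im_pos] with w hw
          simp [ofComplex_apply_of_im_pos hw]
        have h2 : HasDerivAt (fun w : ℂ => -w⁻¹) (((z : ℂ) ^ 2)⁻¹) (z : ℂ) := by
          have := (hasDerivAt_inv (ne_zero z)).neg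
          rw [neg_neg] at this
          exact this
        rw [Derivative.normalizedDerivOfComplex, h1.deriv_eq, h2.deriv]
      rw [hfun, Derivative.normalizedDerivOfComplex_sub _ _ hE2 (hinvM.const_smul _),
        Derivative.normalizedDerivOfComplex_smul _ _ hinvM]
      ext z
      have hS10 : ((S 1 0 : ℤ) : ℂ) = 1 := by simp [ModularGroup.S]
      simp only [hFdef, Pi.add_apply, Pi.sub_apply, Pi.smul_apply, Pi.mul_apply, smul_eq_mul,
        hDinv, riemannZeta_two, denom_S, hS10]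
      have hz : (z : ℂ) ≠ 0 := ne_zero z
      have hpi : (π : ℂ) ≠ 0 := by exact_mod_cast Real.pi_ne_zero
      push_cast
      field_simp
      ring_nf
      linear_combination (-72 * Complex.I + 24 * π * (z : ℂ) * E2 z) * Complex.I_sq
    · -- T
      rw [D2_T]
      ext z
      simp [hFdef, ModularGroup.T]
  have hF0 : IsZeroAtImInfty F := by
    have h1 : IsZeroAtImInfty (Derivative.normalizedDerivOfComplex E2) :=
      tendsto_D hE2 per_E2 isBoundedAtImInfty_E2
    have h2 : Tendsto (fun z => E2 z * E2 z - E₄ z) atImInfty (𝓝 (1 * 1 - 1)) :=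
      (tendsto_E2.mul tendsto_E2).sub (tendsto_E (by norm_num) ⟨2, rfl⟩)
    have h3 : Tendsto (fun z => Derivative.normalizedDerivOfComplex E2 z - (12 : ℂ)⁻¹ * (E2 z * E2 z - E₄ z)) atImInfty
        (𝓝 (0 - (12 : ℂ)⁻¹ * (1 * 1 - 1))) := Tendsto.sub h1 (h2.const_mul _)
    have h4 : (0 - (12 : ℂ)⁻¹ * (1 * 1 - 1) : ℂ) = 0 := by norm_num
    rw [h4] at h3
    exact h3
  have := lvl1_zero (by norm_num) hFm (hFS S (Or.inl rfl)) (hFS T (Or.inr rfl)) hF0 z
  simp only [hFdef, Pi.sub_apply, Pi.smul_apply, Pi.mul_apply, smul_eq_mul] at this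
  linear_combination this

/-- Second Ramanujan identity. -/
theorem ram_E4 (z : ℍ) : Derivative.normalizedDerivOfComplex (E₄ : ℍ → ℂ) z = (E2 z * E₄ z - E₆ z) / 3 := by
  have hE4m : MDiff (E₄ : ℍ → ℂ) := E₄.holo'
  set F : ℍ → ℂ := Derivative.serreDerivative (4 : ℤ) (E₄ : ℍ → ℂ) + (3 : ℂ)⁻¹ • (E₆ : ℍ → ℂ)
    with hFdef
  have hFm : MDiff F :=
    (Derivative.serreDerivative_mdifferentiable _ hE4m).add (E₆.holo'.const_smul _)
  have hF : ∀ γ : SL(2, ℤ), F ∣[(6 : ℤ)] γ = F := by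
    intro γ
    have h1 : (E₄ : ℍ → ℂ) ∣[(4 : ℤ)] γ = E₄ := E₄.slash_action_eq' _ ⟨γ, rfl⟩
    have h2 : (E₆ : ℍ → ℂ) ∣[(6 : ℤ)] γ = E₆ := E₆.slash_action_eq' _ ⟨γ, rfl⟩
    have h3 := Derivative.serreDerivative_slash_invariant (k := 4) hE4m h1
    rw [hFdef, SlashAction.add_slash, SL_smul_slash, h2]
    congr 1
  have hF0 : IsZeroAtImInfty F := by
    have h1 : IsZeroAtImInfty (Derivative.normalizedDerivOfComplex (E₄ : ℍ → ℂ)) :=
      tendsto_D hE4m (per_E _) (ModularFormClass.bdd_at_infty E₄)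
    have h2 := (tendsto_E2.mul (tendsto_E (k := 4) (by norm_num) ⟨2, rfl⟩)).const_mul
      (((4 : ℤ) : ℂ) * 12⁻¹)
    have h3 := (tendsto_E (k := 6) (by norm_num) ⟨3, rfl⟩).const_mul ((3 : ℂ)⁻¹)
    have h4 := (Tendsto.sub h1 h2).add h3
    have h5 : (0 - (((4 : ℤ) : ℂ) * 12⁻¹) * (1 * 1) + (3 : ℂ)⁻¹ * 1 : ℂ) = 0 := by norm_num
    rw [h5] at h4
    refine h4.congr ?_
    intro z
    simp [hFdef, Derivative.serreDerivative]
    ring
  have := lvl1_zero (by norm_num) hFm (hF S) (hF T) hF0 z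
  simp only [hFdef, Pi.add_apply, Pi.smul_apply, smul_eq_mul,
    Derivative.serreDerivative_apply] at this
  push_cast at this
  linear_combination this

end K3M
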