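import Pool.Agent.K3M.ModTri

/-! # K3M, modular side: relations between the level two functions -/

namespace K3M

open UpperHalfPlane hiding I
open ModularForm ModularGroup SlashInvariantForm Complex MatrixGroups Manifold Real Filter
open EisensteinSeries Topology Function


theorem rel1 (z : ℍ) : X1 z + X2 z + X3 z = 0 := by
  refine lvl1_zero' (k := 2) (F := fun z => X1 z + X2 z + X3 z) (by norm_num)
    ((X1_m.add X2_m).add X3_m) ?_ ?_ ?_ z
  · intro z w h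
    rw [X1_S h, X2_S h, X3_S h]; ring
  · intro z w h
    rw [X1_T h, X2_T h, X3_T h]; ring
  · have := (X1_lim.add X2_lim).add X3_lim
    rw [show (2 + -1 + -1 : ℂ) = 0 by norm_num] at this
    exact this

theorem rel2 (z : ℍ) : X1 z * X2 z + X2 z * X3 z + X3 z * X1 z + 3 * E₄ z = 0 := by
  refine lvl1_zero' (k := 4)
    (F := fun z => X1 z * X2 z + X2 z * X3 z + X3 z * X1 z + 3 * E₄ z) (by norm_num)
    ((((X1_m.mul X2_m).add (X2_m.mul X3_m)).add (X3_m.mul X1_m)).add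
      (E₄.holo'.const_smul (3 : ℂ))) ?_ ?_ ?_ z
  · intro z w h
    rw [X1_S h, X2_S h, X3_S h, modform_S E₄ h]
    simp only [zpow_ofNat]
    ring
  · intro z w h
    rw [X1_T h, X2_T h, X3_T h, modform_T E₄ h]; ring
  · have := (((X1_lim.mul X2_lim).add (X2_lim.mul X3_lim)).add (X3_lim.mul X1_lim)).add
      (tE4.const_mul (3 : ℂ))
    rw [show (2 * -1 + -1 * -1 + -1 * 2 + 3 * 1 : ℂ) = 0 by norm_num] at this
    exact this

theorem rel3 (z : ℍ) : X1 z * X2 z * X3 z - 2 * E₆ z = 0 := by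
  refine lvl1_zero' (k := 6)
    (F := fun z => X1 z * X2 z * X3 z - 2 * E₆ z) (by norm_num)
    (((X1_m.mul X2_m).mul X3_m).sub (E₆.holo'.const_smul (2 : ℂ))) ?_ ?_ ?_ z
  · intro z w h
    rw [X1_S h, X2_S h, X3_S h, modform_S E₆ h]
    simp only [zpow_ofNat]
    ring
  · intro z w h
    rw [X1_T h, X2_T h, X3_T h, modform_T E₆ h]; ring
  · have := ((X1_lim.mul X2_lim).mul X3_lim).sub (tE6.const_mul (2 : ℂ))
    rw [show (2 * -1 * -1 - 2 * 1 : ℂ) = 0 by norm_num] at this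
    exact this

/-- the three functions to be shown zero -/
noncomputable def T1 (z : ℍ) : ℂ := Z1 z - 5 * (X1 z * X1 z) + 4 * E₄ z
noncomputable def T2 (z : ℍ) : ℂ := Z2 z - 5 * (X2 z * X2 z) + 4 * E₄ z
noncomputable def T3 (z : ℍ) : ℂ := Z3 z - 5 * (X3 z * X3 z) + 4 * E₄ z

theorem T1_m : MDiff T1 :=
  (Z1_m.sub ((X1_m.mul X1_m).const_smul (5 : ℂ))).add (E₄.holo'.const_smul (4 : ℂ))
theorem T2_m : MDiff T2 :=
  (Z2_m.sub ((X2_m.mul X2_m).const_smul (5 : ℂ))).add (E₄.holo'.const_smul (4 : ℂ))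
theorem T3_m : MDiff T3 :=
  (Z3_m.sub ((X3_m.mul X3_m).const_smul (5 : ℂ))).add (E₄.holo'.const_smul (4 : ℂ))

theorem T1_lim : Tendsto T1 atImInfty (𝓝 0) := by
  have := (Z1_lim.sub ((X1_lim.mul X1_lim).const_mul (5 : ℂ))).add (tE4.const_mul (4 : ℂ))
  rw [show (16 - 5 * (2 * 2) + 4 * 1 : ℂ) = 0 by norm_num] at this
  exact this
theorem T2_lim : Tendsto T2 atImInfty (𝓝 0) := by
  have := (Z2_lim.sub ((X2_lim.mul X2_lim).const_mul (5 : ℂ))).add (tE4.const_mul (4 : ℂ))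
  rw [show (1 - 5 * (-1 * -1) + 4 * 1 : ℂ) = 0 by norm_num] at this
  exact this
theorem T3_lim : Tendsto T3 atImInfty (𝓝 0) := by
  have := (Z3_lim.sub ((X3_lim.mul X3_lim).const_mul (5 : ℂ))).add (tE4.const_mul (4 : ℂ))
  rw [show (1 - 5 * (-1 * -1) + 4 * 1 : ℂ) = 0 by norm_num] at this
  exact this

section S
variable {z w : ℍ} (h : (w : ℂ) * z = -1)
include h
theorem T1_S : T1 w = (z : ℂ) ^ (4 : ℤ) * T2 z := by
  rw [T1, T2, X1_S h, Z1_S h, modform_S E₄ h]; simp only [zpow_ofNat]; ring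
theorem T2_S : T2 w = (z : ℂ) ^ (4 : ℤ) * T1 z := by
  rw [T1, T2, X2_S h, Z2_S h, modform_S E₄ h]; simp only [zpow_ofNat]; ring
theorem T3_S : T3 w = (z : ℂ) ^ (4 : ℤ) * T3 z := by
  rw [T3, T3, X3_S h, Z3_S h, modform_S E₄ h]; simp only [zpow_ofNat]; ring
end S

section T
variable {z w : ℍ} (h : (w : ℂ) = z + 1)
include h
theorem T1_T : T1 w = T1 z := by
  rw [T1, T1, X1_T h, Z1_T h, modform_T E₄ h]
theorem T2_T : T2 w = T3 z := by
  rw [T2, T3, X2_T h, Z2_T h, modform_T E₄ h]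
theorem T3_T : T3 w = T2 z := by
  rw [T3, T2, X3_T h, Z3_T h, modform_T E₄ h]
end T

theorem t0 (z : ℍ) : T1 z + T2 z + T3 z = 0 := by
  refine lvl1_zero' (k := 4) (F := fun z => T1 z + T2 z + T3 z) (by norm_num)
    ((T1_m.add T2_m).add T3_m) ?_ ?_ ?_ z
  · intro z w h
    rw [T1_S h, T2_S h, T3_S h]; ring
  · intro z w h
    rw [T1_T h, T2_T h, T3_T h]; ring
  · have := (T1_lim.add T2_lim).add T3_lim
    rw [show (0 + 0 + 0 : ℂ) = 0 by norm_num] at this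
    exact this

theorem t1 (z : ℍ) : T1 z * X1 z + T2 z * X2 z + T3 z * X3 z = 0 := by
  refine lvl1_zero' (k := 6) (F := fun z => T1 z * X1 z + T2 z * X2 z + T3 z * X3 z)
    (by norm_num) (((T1_m.mul X1_m).add (T2_m.mul X2_m)).add (T3_m.mul X3_m)) ?_ ?_ ?_ z
  · intro z w h
    rw [T1_S h, T2_S h, T3_S h, X1_S h, X2_S h, X3_S h]
    simp only [zpow_ofNat]; ring
  · intro z w h
    rw [T1_T h, T2_T h, T3_T h, X1_T h, X2_T h, X3_T h]; ring
  · have := ((T1_lim.mul X1_lim).add (T2_lim.mul X2_lim)).add (T3_lim.mul X3_lim)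
    rw [show (0 * 2 + 0 * -1 + 0 * -1 : ℂ) = 0 by norm_num] at this
    exact this

theorem t2 (z : ℍ) :
    T1 z * (X1 z * X1 z) + T2 z * (X2 z * X2 z) + T3 z * (X3 z * X3 z) = 0 := by
  refine lvl1_zero' (k := 8)
    (F := fun z => T1 z * (X1 z * X1 z) + T2 z * (X2 z * X2 z) + T3 z * (X3 z * X3 z))
    (by norm_num)
    (((T1_m.mul (X1_m.mul X1_m)).add (T2_m.mul (X2_m.mul X2_m))).add
      (T3_m.mul (X3_m.mul X3_m))) ?_ ?_ ?_ z
  · intro z w h
    rw [T1_S h, T2_S h, T3_S h, X1_S h, X2_S h, X3_S h]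
    simp only [zpow_ofNat]; ring
  · intro z w h
    rw [T1_T h, T2_T h, T3_T h, X1_T h, X2_T h, X3_T h]; ring
  · have := ((T1_lim.mul (X1_lim.mul X1_lim)).add (T2_lim.mul (X2_lim.mul X2_lim))).add
      (T3_lim.mul (X3_lim.mul X3_lim))
    rw [show (0 * (2 * 2) + 0 * (-1 * -1) + 0 * (-1 * -1) : ℂ) = 0 by norm_num] at this
    exact this

theorem disc (z : ℍ) : ((X1 z - X2 z) * (X2 z - X3 z) * (X3 z - X1 z)) ^ 2
    = 186624 * ModularForm.discriminant z := by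
  have h1 := rel1 z
  have h2 := rel2 z
  have h3 := rel3 z
  have h4 := ModularForm.discriminant_eq_E₄_cube_sub_E₆_sq z
  rw [h4]
  have e1 : X3 z = -(X1 z + X2 z) := by linear_combination h1
  have e2 : E₄ z = (X1 z ^ 2 + X1 z * X2 z + X2 z ^ 2) / 3 := by
    rw [e1] at h2; linear_combination h2 / 3
  have e3 : E₆ z = -(X1 z * X2 z * (X1 z + X2 z)) / 2 := by
    rw [e1] at h3; linear_combination -h3 / 2
  rw [e1, e2, e3]
  ring

theorem disc_ne (z : ℍ) : X1 z - X2 z ≠ 0 ∧ X2 z - X3 z ≠ 0 ∧ X3 z - X1 z ≠ 0 := by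
  have h := disc z
  have hd := ModularForm.discriminant_ne_zero z
  have h1 : ((X1 z - X2 z) * (X2 z - X3 z) * (X3 z - X1 z)) ^ 2 ≠ 0 := by
    rw [h]; exact mul_ne_zero (by norm_num) hd
  refine ⟨?_, ?_, ?_⟩ <;> intro h0 <;> apply h1 <;> rw [h0] <;> ring

theorem relZ (z : ℍ) : T1 z = 0 ∧ T2 z = 0 ∧ T3 z = 0 := by
  have a0 := t0 z
  have a1 := t1 z
  have a2 := t2 z
  obtain ⟨d1, d2, d3⟩ := disc_ne z
  have b1 : T1 z * ((X1 z - X2 z) * (X3 z - X1 z)) = 0 := by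
    linear_combination (-X2 z * X3 z) * a0 + (X2 z + X3 z) * a1 - a2
  have b2 : T2 z * ((X1 z - X2 z) * (X2 z - X3 z)) = 0 := by
    linear_combination (-X1 z * X3 z) * a0 + (X1 z + X3 z) * a1 - a2
  have b3 : T3 z * ((X2 z - X3 z) * (X3 z - X1 z)) = 0 := by
    linear_combination (-X1 z * X2 z) * a0 + (X1 z + X2 z) * a1 - a2
  exact ⟨(mul_eq_zero.mp b1).resolve_right (mul_ne_zero d1 d3),
    (mul_eq_zero.mp b2).resolve_right (mul_ne_zero d1 d2),
    (mul_eq_zero.mp b3).resolve_right (mul_ne_zero d2 d3)⟩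

end K3M
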