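import Pool.Agent.K3M.ModAff

/-! # K3M, modular side: the three weight two functions of level two and their relations -/

namespace K3M

open UpperHalfPlane hiding I
open ModularForm ModularGroup SlashInvariantForm Complex MatrixGroups Manifold Real Filter
open EisensteinSeries Topology Function


/-- `2 z` -/
noncomputable def dbl (z : ℍ) : ℍ := aff 2 0 (by norm_num) z
/-- `z / 2` -/
noncomputable def hf (z : ℍ) : ℍ := aff (1 / 2) 0 (by norm_num) z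
/-- `(z + 1) / 2` -/
noncomputable def hp (z : ℍ) : ℍ := aff (1 / 2) (1 / 2) (by norm_num) z

theorem dbl_coe (z : ℍ) : (dbl z : ℂ) = 2 * z := by simp [dbl]
theorem hf_coe (z : ℍ) : (hf z : ℂ) = z / 2 := by simp [hf]; ring
theorem hp_coe (z : ℍ) : (hp z : ℂ) = (z + 1) / 2 := by simp [hp]; ring

noncomputable def X1 (z : ℍ) : ℂ := 4 * E2 (dbl z) - 2 * E2 z
noncomputable def X2 (z : ℍ) : ℂ := E2 (hf z) - 2 * E2 z
noncomputable def X3 (z : ℍ) : ℂ := E2 (hp z) - 2 * E2 z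

noncomputable def Z1 (z : ℍ) : ℂ := 16 * E₄ (dbl z)
noncomputable def Z2 (z : ℍ) : ℂ := E₄ (hf z)
noncomputable def Z3 (z : ℍ) : ℂ := E₄ (hp z)

theorem X1_m : MDiff X1 :=
  ((mdiff_aff E2_mdifferentiable _ _ _).const_smul (4 : ℂ)).sub
    (E2_mdifferentiable.const_smul (2 : ℂ))
theorem X2_m : MDiff X2 :=
  (mdiff_aff E2_mdifferentiable _ _ _).sub (E2_mdifferentiable.const_smul (2 : ℂ))
theorem X3_m : MDiff X3 :=
  (mdiff_aff E2_mdifferentiable _ _ _).sub (E2_mdifferentiable.const_smul (2 : ℂ))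
theorem Z1_m : MDiff Z1 := (mdiff_aff E₄.holo' _ _ _).const_smul (16 : ℂ)
theorem Z2_m : MDiff Z2 := mdiff_aff E₄.holo' _ _ _
theorem Z3_m : MDiff Z3 := mdiff_aff E₄.holo' _ _ _

theorem tE4 : Tendsto (E₄ : ℍ → ℂ) atImInfty (𝓝 1) := tendsto_E _ ⟨2, rfl⟩
theorem tE6 : Tendsto (E₆ : ℍ → ℂ) atImInfty (𝓝 1) := tendsto_E _ ⟨3, rfl⟩

theorem X1_lim : Tendsto X1 atImInfty (𝓝 2) := by
  have := ((tendsto_E2.comp (tendsto_aff 2 0 (by norm_num))).const_mul (4 : ℂ)).sub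
    (tendsto_E2.const_mul (2 : ℂ))
  norm_num at this
  exact this
theorem X2_lim : Tendsto X2 atImInfty (𝓝 (-1)) := by
  have := (tendsto_E2.comp (tendsto_aff (1 / 2) 0 (by norm_num))).sub
    (tendsto_E2.const_mul (2 : ℂ))
  rw [show (1 - 2 * 1 : ℂ) = -1 by norm_num] at this
  exact this
theorem X3_lim : Tendsto X3 atImInfty (𝓝 (-1)) := by
  have := (tendsto_E2.comp (tendsto_aff (1 / 2) (1 / 2) (by norm_num))).sub
    (tendsto_E2.const_mul (2 : ℂ))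
  rw [show (1 - 2 * 1 : ℂ) = -1 by norm_num] at this
  exact this
theorem Z1_lim : Tendsto Z1 atImInfty (𝓝 16) := by
  have := (tE4.comp (tendsto_aff 2 0 (by norm_num))).const_mul (16 : ℂ)
  norm_num at this
  exact this
theorem Z2_lim : Tendsto Z2 atImInfty (𝓝 1) :=
  tE4.comp (tendsto_aff (1 / 2) 0 (by norm_num))
theorem Z3_lim : Tendsto Z3 atImInfty (𝓝 1) :=
  tE4.comp (tendsto_aff (1 / 2) (1 / 2) (by norm_num))

section S

variable {z w : ℍ} (h : (w : ℂ) * z = -1)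
include h

theorem X1_S : X1 w = (z : ℂ) ^ (2 : ℤ) * X2 z := by
  have h1 : ((dbl w : ℍ) : ℂ) * (hf z : ℍ) = -1 := by
    rw [dbl_coe, hf_coe]; linear_combination h
  have h2 := E2_S h1
  have h3 := E2_S h
  rw [X1, X2, h2, h3, hf_coe]
  norm_cast
  ring

theorem X2_S : X2 w = (z : ℂ) ^ (2 : ℤ) * X1 z := by
  have h1 : ((hf w : ℍ) : ℂ) * (dbl z : ℍ) = -1 := by
    rw [dbl_coe, hf_coe]; linear_combination h
  have h2 := E2_S h1
  have h3 := E2_S h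
  rw [X1, X2, h2, h3, dbl_coe]
  norm_cast
  ring

omit h in
theorem chain (z : ℍ) (w : ℍ) (h : (w : ℂ) * z = -1) : ∃ v1 v2 v3 : ℍ,
    ((hp z : ℍ) : ℂ) = v1 + 1 ∧ (v2 : ℂ) * v1 = -1 ∧ (v2 : ℂ) = v3 + 1 + 1
      ∧ ((hp w : ℍ) : ℂ) * v3 = -1 := by
  have him : 0 < ((z : ℂ).im) := z.im_pos
  have hz := ne_zero z
  have hw := ne_zero w
  let v1 : ℍ := ⟨((z : ℂ) - 1) / 2, by
    rw [show ((z : ℂ) - 1) / 2 = (z : ℂ) * ((1 / 2 : ℝ) : ℂ) - ((1 / 2 : ℝ) : ℂ) by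
      push_cast; ring]
    simpa using him⟩
  let v2 : ℍ := ⟨-(v1 : ℂ)⁻¹, by
    have := v1.im_inv_neg_coe_pos
    rwa [inv_neg] at this⟩
  let v3 : ℍ := ⟨(v2 : ℂ) - 2, by simpa using v2.im_pos⟩
  have e1 : (v1 : ℂ) = ((z : ℂ) - 1) / 2 := rfl
  have e2 : (v2 : ℂ) = -(v1 : ℂ)⁻¹ := rfl
  have e3 : (v3 : ℂ) = (v2 : ℂ) - 2 := rfl
  have hv1 := ne_zero v1
  have hz1 : (z : ℂ) - 1 ≠ 0 := by
    intro h0
    apply hv1
    rw [e1, h0]; simp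
  refine ⟨v1, v2, v3, ?_, ?_, ?_, ?_⟩
  · rw [hp_coe, e1]; ring
  · rw [e2]; field_simp
  · rw [e3]; ring
  · have hw' : (w : ℂ) = -1 / z := by field_simp; linear_combination h
    rw [hp_coe, e3, e2, e1, hw']
    field_simp
    ring

theorem X3_S : X3 w = (z : ℂ) ^ (2 : ℤ) * X3 z := by
  obtain ⟨v1, v2, v3, h1, h2, h3, h4⟩ := chain z w h
  have a1 := E2_T h1
  have a2 := E2_S h2
  have v2' : (⟨(v3 : ℂ) + 1, by simpa using v3.im_pos⟩ : ℍ) = (⟨(v3 : ℂ) + 1, by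
    simpa using v3.im_pos⟩ : ℍ) := rfl
  have a3 : E2 v2 = E2 v3 := by
    have b1 : E2 v2 = E2 (⟨(v3 : ℂ) + 1, by simpa using v3.im_pos⟩ : ℍ) := E2_T h3
    have b2 : E2 (⟨(v3 : ℂ) + 1, by simpa using v3.im_pos⟩ : ℍ) = E2 v3 := E2_T rfl
    rw [b1, b2]
  have a4 := E2_S h4
  have a5 := E2_S h
  have c1 : (v1 : ℂ) = ((z : ℂ) - 1) / 2 := by
    rw [hp_coe] at h1; linear_combination -h1
  have c2 : (v3 : ℂ) * v1 = -(z : ℂ) := by
    have : (v3 : ℂ) = v2 - 2 := by rw [h3]; ring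
    rw [this, sub_mul, h2, c1]; ring
  have c3 : (v3 : ℂ) ^ 2 * v1 + v3 = 2 * (z : ℂ) := by
    have : (v3 : ℂ) ^ 2 * v1 + v3 = v3 * (v3 * v1 + 1) := by ring
    rw [this, c2]
    have e : (-(z : ℂ) + 1) = -2 * v1 := by rw [c1]; ring
    rw [e]
    linear_combination (-2) * c2
  rw [X3, X3, a4, a5, ← a3, a2, a1]
  norm_cast
  have c4 : (v3 : ℂ) ^ 2 * v1 ^ 2 = (z : ℂ) ^ 2 := by
    rw [← mul_pow, c2]; ring
  linear_combination (E2 v1) * c4 + kap * c3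

theorem Z1_S : Z1 w = (z : ℂ) ^ (4 : ℤ) * Z2 z := by
  have h1 : ((dbl w : ℍ) : ℂ) * (hf z : ℍ) = -1 := by
    rw [dbl_coe, hf_coe]; linear_combination h
  have h2 := modform_S E₄ h1
  rw [Z1, Z2, h2, hf_coe]
  norm_cast
  ring

theorem Z2_S : Z2 w = (z : ℂ) ^ (4 : ℤ) * Z1 z := by
  have h1 : ((hf w : ℍ) : ℂ) * (dbl z : ℍ) = -1 := by
    rw [dbl_coe, hf_coe]; linear_combination h
  have h2 := modform_S E₄ h1
  rw [Z1, Z2, h2, dbl_coe]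
  norm_cast
  ring

theorem Z3_S : Z3 w = (z : ℂ) ^ (4 : ℤ) * Z3 z := by
  obtain ⟨v1, v2, v3, h1, h2, h3, h4⟩ := chain z w h
  have a1 := modform_T E₄ h1
  have a2 := modform_S E₄ h2
  have a3 : E₄ v2 = E₄ v3 := by
    have b1 : E₄ v2 = E₄ (⟨(v3 : ℂ) + 1, by simpa using v3.im_pos⟩ : ℍ) := modform_T E₄ h3
    have b2 : E₄ (⟨(v3 : ℂ) + 1, by simpa using v3.im_pos⟩ : ℍ) = E₄ v3 := modform_T E₄ rfl
    rw [b1, b2]
  have a4 := modform_S E₄ h4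
  have c1 : (v1 : ℂ) = ((z : ℂ) - 1) / 2 := by
    rw [hp_coe] at h1; linear_combination -h1
  have c2 : (v3 : ℂ) * v1 = -(z : ℂ) := by
    have : (v3 : ℂ) = v2 - 2 := by rw [h3]; ring
    rw [this, sub_mul, h2, c1]; ring
  rw [Z3, Z3, a4, ← a3, a2, a1]
  norm_cast
  have c4 : (v3 : ℂ) ^ 4 * v1 ^ 4 = (z : ℂ) ^ 4 := by
    rw [← mul_pow, c2]; ring
  linear_combination (E₄ v1) * c4

end S

section T

variable {z w : ℍ} (h : (w : ℂ) = z + 1)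
include h

theorem E2dbl_T : E2 (dbl w) = E2 (dbl z) := by
  have b1 : E2 (dbl w) = E2 (⟨(dbl z : ℂ) + 1, by simpa using (dbl z).im_pos⟩ : ℍ) :=
    E2_T (by
      show (dbl w : ℂ) = (dbl z : ℂ) + 1 + 1
      rw [dbl_coe, dbl_coe, h]; ring)
  rw [b1]; exact E2_T rfl

theorem E4dbl_T : E₄ (dbl w) = E₄ (dbl z) := by
  have b1 : E₄ (dbl w) = E₄ (⟨(dbl z : ℂ) + 1, by simpa using (dbl z).im_pos⟩ : ℍ) :=
    modform_T E₄ (by
      show (dbl w : ℂ) = (dbl z : ℂ) + 1 + 1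
      rw [dbl_coe, dbl_coe, h]; ring)
  rw [b1]; exact modform_T E₄ rfl

theorem hf_T : hf w = hp z := by
  apply UpperHalfPlane.ext
  rw [hf_coe, hp_coe, h]

theorem hp_T : (hp w : ℂ) = hf z + 1 := by
  rw [hf_coe, hp_coe, h]; ring

theorem X1_T : X1 w = X1 z := by rw [X1, X1, E2dbl_T h, E2_T h]
theorem X2_T : X2 w = X3 z := by rw [X2, X3, hf_T h, E2_T h]
theorem X3_T : X3 w = X2 z := by rw [X2, X3, E2_T (hp_T h), E2_T h]
theorem Z1_T : Z1 w = Z1 z := by rw [Z1, Z1, E4dbl_T h]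
theorem Z2_T : Z2 w = Z3 z := by rw [Z2, Z3, hf_T h]
theorem Z3_T : Z3 w = Z2 z := by rw [Z2, Z3, modform_T E₄ (hp_T h)]

end T

end K3M
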