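import Pool.Agent.K3M.ThGen
import Pool.Agent.MM7.Defs

/-! # Theta constants: basic properties -/

namespace K3MTh

open Real Filter Topology MM7

/-- exponents of `th3`, `th4` -/
def x0 (n : ℤ) : ℝ := (n : ℝ) ^ 2
/-- exponents of `th2` -/
noncomputable def xh (n : ℤ) : ℝ := ((n : ℝ) + 1 / 2) ^ 2
/-- alternating sign -/
def sg (n : ℤ) : ℝ := (-1 : ℝ) ^ n.natAbs

theorem sg_abs (n : ℤ) : |sg n| = 1 := by
  rw [sg, abs_pow]; simp

theorem sg_even {n : ℤ} (h : Even n) : sg n = 1 := by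
  rw [sg]; exact (Int.natAbs_even.mpr h).neg_one_pow

theorem sg_odd {n : ℤ} (h : Odd n) : sg n = -1 := by
  rw [sg]; exact (Int.natAbs_odd.mpr h).neg_one_pow

theorem sg_add (m n : ℤ) : sg (m + n) = sg m * sg n := by
  rcases Int.even_or_odd m with hm | hm <;> rcases Int.even_or_odd n with hn | hn
  · rw [sg_even hm, sg_even hn, sg_even (hm.add hn)]; norm_num
  · rw [sg_even hm, sg_odd hn, sg_odd (hm.add_odd hn)]; norm_num
  · rw [sg_odd hm, sg_even hn, sg_odd (hm.add_even hn)]; norm_num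
  · rw [sg_odd hm, sg_odd hn, sg_even (hm.add_odd hn)]; norm_num

theorem good0 : Good x0 (fun _ => (1 : ℝ)) := by
  refine ⟨fun n => sq_nonneg _, fun ε hε => ?_⟩
  refine (HurwitzKernelBounds.summable_f_int 0 0 hε).congr (fun n => ?_)
  simp only [HurwitzKernelBounds.f_int, x0, pow_zero, abs_one, one_mul, add_zero]
  ring_nf

theorem goodh : Good xh (fun _ => (1 : ℝ)) := by
  refine ⟨fun n => sq_nonneg _, fun ε hε => ?_⟩
  refine (HurwitzKernelBounds.summable_f_int 0 (1 / 2) hε).congr (fun n => ?_)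
  simp only [HurwitzKernelBounds.f_int, xh, pow_zero, abs_one, one_mul]
  ring_nf

theorem Good.of_le {ι : Type*} {x c d : ι → ℝ} (h : Good x c) (hd : ∀ i, |d i| ≤ |c i|) :
    Good x d :=
  ⟨h.nonneg, fun ε hε => Summable.of_nonneg_of_le (fun i => by positivity)
    (fun i => mul_le_mul_of_nonneg_right (hd i) (Real.exp_pos _).le) (h.sum ε hε)⟩

theorem good4 : Good x0 sg := good0.of_le (fun n => by rw [sg_abs]; simp)

theorem th3_eq : th3 = SS x0 (fun _ => (1 : ℝ)) := by
  funext y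
  simp [th3, SS, x0]

theorem th2_eq : th2 = SS xh (fun _ => (1 : ℝ)) := by
  funext y
  simp [th2, SS, xh]

theorem th4_eq : th4 = SS x0 sg := by
  funext y
  simp [th4, SS, x0, sg]

theorem th3_summable {y : ℝ} (hy : 0 < y) :
    Summable fun n : ℤ => Real.exp (-(π * (n : ℝ) ^ 2 * y)) := by
  simpa [x0] using good0.summable hy

theorem th2_summable {y : ℝ} (hy : 0 < y) :
    Summable fun n : ℤ => Real.exp (-(π * ((n : ℝ) + 1 / 2) ^ 2 * y)) := by
  simpa [xh] using goodh.summable hy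

theorem th4_summable {y : ℝ} (hy : 0 < y) :
    Summable fun n : ℤ => sg n * Real.exp (-(π * (n : ℝ) ^ 2 * y)) := by
  simpa [x0] using good4.summable hy

theorem th3_pos {y : ℝ} (hy : 0 < y) : 0 < th3 y := by
  have h := (th3_summable hy).tsum_pos (fun n => (Real.exp_pos _).le) 0 (Real.exp_pos _)
  simpa [th3] using h

theorem th2_pos {y : ℝ} (hy : 0 < y) : 0 < th2 y := by
  have h := (th2_summable hy).tsum_pos (fun n => (Real.exp_pos _).le) 0 (Real.exp_pos _)
  simpa [th2] using h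

/-- inversion for `th3` -/
theorem th3_inv {y : ℝ} (hy : 0 < y) : th3 (1 / y) = √y * th3 y := by
  have h := Real.tsum_exp_neg_mul_int_sq (a := 1 / y) (by positivity)
  have e1 : th3 (1 / y) = ∑' n : ℤ, Real.exp (-π * (1 / y) * (n : ℝ) ^ 2) := by
    rw [th3]; congr 1; ext n; ring_nf
  have e2 : th3 y = ∑' n : ℤ, Real.exp (-π / (1 / y) * (n : ℝ) ^ 2) := by
    rw [th3]; congr 1; ext n
    congr 1
    field_simp
  rw [e1, h, ← e2]
  congr 1
  rw [Real.sqrt_eq_rpow, one_div y, Real.inv_rpow hy.le]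
  field_simp

theorem tsum_two {ι κ κ' : Type*} {g1 : κ → ι} {g2 : κ' → ι}
    (hb : Function.Bijective (Sum.elim g1 g2)) {f : ι → ℝ} (hf : Summable f) :
    ∑' i, f i = ∑' k, f (g1 k) + ∑' k, f (g2 k) := by
  have h0 : Summable (f ∘ Sum.elim g1 g2) := hf.comp_injective hb.1
  have h1 : Summable ((f ∘ Sum.elim g1 g2) ∘ Sum.inl) := h0.comp_injective Sum.inl_injective
  have h2 : Summable ((f ∘ Sum.elim g1 g2) ∘ Sum.inr) := h0.comp_injective Sum.inr_injective
  have h3 := (HasSum.sum h1.hasSum h2.hasSum).tsum_eq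
  have h4 := (Equiv.ofBijective _ hb).tsum_eq f
  rw [← h4]
  exact h3

theorem bij_parity : Function.Bijective
    (Sum.elim (fun n : ℤ => 2 * n) (fun n : ℤ => 2 * n + 1)) := by
  constructor
  · rintro (a | a) (b | b) h <;> simp only [Sum.elim_inl, Sum.elim_inr] at h
    · congr 1; omega
    · omega
    · omega
    · congr 1; omega
  · intro n
    rcases Int.even_or_odd' n with ⟨k, hk | hk⟩
    · exact ⟨Sum.inl k, by simp [hk]⟩
    · exact ⟨Sum.inr k, by simp [hk]⟩

theorem tsum_parity {f : ℤ → ℝ} (hf : Summable f) :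
    ∑' n, f n = ∑' n, f (2 * n) + ∑' n, f (2 * n + 1) :=
  tsum_two bij_parity hf

/-- quartering -/
theorem th3_quart {y : ℝ} (hy : 0 < y) : th3 y = th3 (4 * y) + th2 (4 * y) := by
  rw [th3, tsum_parity (th3_summable hy), th3, th2]
  congr 1 <;>
  · congr 1; ext n; push_cast; ring_nf

theorem th4_quart {y : ℝ} (hy : 0 < y) : th4 y = th3 (4 * y) - th2 (4 * y) := by
  have h0 : th4 y = ∑' n : ℤ, sg n * Real.exp (-(π * (n : ℝ) ^ 2 * y)) := rfl
  rw [h0, tsum_parity (th4_summable hy), th3, th2, sub_eq_add_neg, ← tsum_neg]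
  congr 1
  · congr 1; ext n
    rw [sg_even (even_two_mul n), one_mul]; push_cast; ring_nf
  · congr 1; ext n
    rw [sg_odd (odd_two_mul_add_one n), neg_one_mul]; push_cast; ring_nf

/-- inversion for `th2` -/
theorem th2_inv {y : ℝ} (hy : 0 < y) : th2 (1 / y) = √y * th4 y := by
  have h1 := th3_quart (y := 1 / (4 * y)) (by positivity)
  have h2 := th4_quart hy
  have h3 := th3_quart hy
  have h4 := th3_inv (y := 4 * y) (by positivity)
  have h5 := th3_inv hy
  have e1 : 4 * (1 / (4 * y)) = 1 / y := by field_simp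
  have e2 : √(4 * y) = 2 * √y := by
    rw [Real.sqrt_mul (by norm_num), show (4 : ℝ) = 2 ^ 2 by norm_num,
      Real.sqrt_sq (by norm_num)]
  rw [e1] at h1
  rw [e2] at h4
  have : th2 (1 / y) = th3 (1 / (4 * y)) - th3 (1 / y) := by rw [h1]; ring
  rw [this, h4, h5, h2, h3]; ring

/-- inversion for `th4` -/
theorem th4_inv {y : ℝ} (hy : 0 < y) : th4 (1 / y) = √y * th2 y := by
  have h := th2_inv (y := 1 / y) (by positivity)
  rw [one_div_one_div] at h
  have hs : √y * √(1 / y) = 1 := by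
    rw [← Real.sqrt_mul hy.le, mul_one_div_cancel hy.ne', Real.sqrt_one]
  rw [h, ← mul_assoc, hs, one_mul]

theorem th4_pos {y : ℝ} (hy : 0 < y) : 0 < th4 y := by
  have h := th2_inv hy
  have h1 := th2_pos (y := 1 / y) (by positivity)
  rw [h] at h1
  exact (pos_iff_pos_of_mul_pos h1).mp (Real.sqrt_pos.mpr hy)

end K3MTh
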