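import Pool.Agent.K3M.ThLanden

/-! # Theta constants: derivatives, bounds and limits -/

namespace K3MTh

open Real Filter Topology MM7

/-- `D th3`, `D = -(1/π) d/dy` -/
noncomputable def d3 (y : ℝ) : ℝ := SS x0 (fun n => 1 * x0 n) y
/-- `D th4` -/
noncomputable def d4 (y : ℝ) : ℝ := SS x0 (fun n => sg n * x0 n) y
/-- `D th2` -/
noncomputable def d2 (y : ℝ) : ℝ := SS xh (fun n => 1 * xh n) y
/-- `D^2 th3` -/
noncomputable def dd3 (y : ℝ) : ℝ := SS x0 (fun n => 1 * x0 n * x0 n) y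

theorem hasDerivAt_th3 {y : ℝ} (hy : 0 < y) : HasDerivAt th3 (-π * d3 y) y := by
  rw [th3_eq]; exact good0.hasDerivAt hy
theorem hasDerivAt_th4 {y : ℝ} (hy : 0 < y) : HasDerivAt th4 (-π * d4 y) y := by
  rw [th4_eq]; exact good4.hasDerivAt hy
theorem hasDerivAt_th2 {y : ℝ} (hy : 0 < y) : HasDerivAt th2 (-π * d2 y) y := by
  rw [th2_eq]; exact goodh.hasDerivAt hy
theorem hasDerivAt_d3 {y : ℝ} (hy : 0 < y) : HasDerivAt d3 (-π * dd3 y) y :=
  good0.mulx.hasDerivAt hy

theorem x0_ge {n : ℤ} (h : x0 n ≠ 0) : 1 ≤ x0 n := by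
  have hn : n ≠ 0 := by rintro rfl; exact h (by simp [x0])
  have h1 : 1 ≤ |n| := Int.one_le_abs hn
  have h2 : (1 : ℝ) ≤ |(n : ℝ)| := by exact_mod_cast h1
  rw [x0, ← sq_abs]
  nlinarith

theorem Good.s1 {ι : Type*} {x c : ι → ℝ} (h : Good x c) :
    Summable fun i => |c i| * Real.exp (-(π * x i)) := by
  simpa using h.sum 1 one_pos

/-- all the constants in one -/
theorem exists_bounds : ∃ C : ℝ, 0 < C ∧ ∀ y, 1 ≤ y →
    |d3 y| ≤ C * Real.exp (-(π * y)) ∧ |dd3 y| ≤ C * Real.exp (-(π * y)) ∧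
    th2 y ≤ C * Real.exp (-(π * (1 / 4) * y)) ∧ th4 y ≤ C ∧ th3 y ≤ C := by
  have b1 := fun y (hy : 1 ≤ y) => SS_bound (x := x0) (c := fun n => 1 * x0 n) 1
    (fun i hi => x0_ge (right_ne_zero_of_mul hi)) good0.mulx.s1 hy
  have b2 := fun y (hy : 1 ≤ y) => SS_bound (x := x0) (c := fun n => 1 * x0 n * x0 n) 1
    (fun i hi => x0_ge (right_ne_zero_of_mul hi)) good0.mulx.mulx.s1 hy
  have b3 := fun y (hy : 1 ≤ y) => SS_bound (x := xh) (c := fun _ => (1 : ℝ)) (1 / 4)
    (fun i _ => by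
      rw [xh]
      have : (0 : ℝ) ≤ (i : ℝ) * ((i : ℝ) + 1) := by
        rcases le_or_gt 0 i with h | h
        · have : (0 : ℝ) ≤ i := by exact_mod_cast h
          positivity
        · have h1 : (i : ℝ) + 1 ≤ 0 := by exact_mod_cast (by omega : i + 1 ≤ 0)
          have h2 : (i : ℝ) ≤ 0 := by linarith
          exact mul_nonneg_of_nonpos_of_nonpos h2 h1
      nlinarith) goodh.s1 hy
  have b4 := fun y (hy : 1 ≤ y) => SS_bound (x := x0) (c := sg) 0
    (fun i _ => good0.nonneg i) good4.s1 hy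
  have b5 := fun y (hy : 1 ≤ y) => SS_bound (x := x0) (c := fun _ => (1 : ℝ)) 0
    (fun i _ => good0.nonneg i) good0.s1 hy
  set C1 := ∑' i : ℤ, |1 * x0 i| * Real.exp (-(π * (x0 i - 1))) with hC1
  set C2 := ∑' i : ℤ, |1 * x0 i * x0 i| * Real.exp (-(π * (x0 i - 1))) with hC2
  set C3 := ∑' i : ℤ, |(1 : ℝ)| * Real.exp (-(π * (xh i - 1 / 4))) with hC3
  set C4 := ∑' i : ℤ, |sg i| * Real.exp (-(π * (x0 i - 0))) with hC4
  set C5 := ∑' i : ℤ, |(1 : ℝ)| * Real.exp (-(π * (x0 i - 0))) with hC5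
  have p1 : 0 ≤ C1 := tsum_nonneg fun i => by positivity
  have p2 : 0 ≤ C2 := tsum_nonneg fun i => by positivity
  have p3 : 0 ≤ C3 := tsum_nonneg fun i => by positivity
  have p4 : 0 ≤ C4 := tsum_nonneg fun i => by positivity
  have p5 : 0 ≤ C5 := tsum_nonneg fun i => by positivity
  refine ⟨C1 + C2 + C3 + C4 + C5 + 1, by positivity, fun y hy => ⟨?_, ?_, ?_, ?_, ?_⟩⟩
  · refine (b1 y hy).trans ?_
    rw [show π * 1 * y = π * y by ring]
    exact mul_le_mul_of_nonneg_right (by linarith) (Real.exp_pos _).le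
  · refine (b2 y hy).trans ?_
    rw [show π * 1 * y = π * y by ring]
    exact mul_le_mul_of_nonneg_right (by linarith) (Real.exp_pos _).le
  · have := (le_abs_self _).trans (b3 y hy)
    rw [th2_eq]
    refine this.trans ?_
    exact mul_le_mul_of_nonneg_right (by linarith) (Real.exp_pos _).le
  · have := (le_abs_self _).trans (b4 y hy)
    rw [th4_eq]
    refine this.trans ?_
    simp only [mul_zero, zero_mul, neg_zero, Real.exp_zero, mul_one]
    linarith
  · have := (le_abs_self _).trans (b5 y hy)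
    rw [th3_eq]
    refine this.trans ?_
    simp only [mul_zero, zero_mul, neg_zero, Real.exp_zero, mul_one]
    linarith

theorem th3_ge_one {y : ℝ} (hy : 0 < y) : 1 ≤ th3 y := by
  have h := (th3_summable hy).le_tsum (0 : ℤ) (fun n _ => (Real.exp_pos _).le)
  simpa [th3] using h

theorem tsum_pm (c : ℤ → ℝ) :
    (∑' n : ℤ, if x0 n - 1 = 0 then c n else 0) = c 1 + c (-1) := by
  have h : ∀ n : ℤ, n ∉ ({1, -1} : Finset ℤ) → (if x0 n - 1 = 0 then c n else 0) = 0 := by
    intro n hn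
    rw [if_neg]
    intro h
    have h1 : (n : ℝ) ^ 2 = 1 := by rw [x0] at h; linarith
    have h2 : n ^ 2 = 1 := by exact_mod_cast h1
    have h3 : (n - 1) * (n + 1) = 0 := by linear_combination h2
    apply hn
    rcases mul_eq_zero.mp h3 with h4 | h4
    · simp; left; omega
    · simp; right; omega
  rw [tsum_eq_sum (fun n hn => h n hn), Finset.sum_pair (by norm_num)]
  simp [x0]

theorem tsum_h (c : ℤ → ℝ) :
    (∑' n : ℤ, if xh n - 1 / 4 = 0 then c n else 0) = c 0 + c (-1) := by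
  have h : ∀ n : ℤ, n ∉ ({0, -1} : Finset ℤ) → (if xh n - 1 / 4 = 0 then c n else 0) = 0 := by
    intro n hn
    rw [if_neg]
    intro h
    have h1 : (n : ℝ) * ((n : ℝ) + 1) = 0 := by rw [xh] at h; linear_combination h
    have h2 : n * (n + 1) = 0 := by exact_mod_cast h1
    apply hn
    rcases mul_eq_zero.mp h2 with h4 | h4
    · simp; left; omega
    · simp; right; omega
  rw [tsum_eq_sum (fun n hn => h n hn), Finset.sum_pair (by norm_num)]
  rw [if_pos (by rw [xh]; norm_num), if_pos (by rw [xh]; norm_num)]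

theorem shift {ι : Type*} (x c : ι → ℝ) (t y : ℝ) :
    Real.exp (π * t * y) * SS x c y = SS (fun i => x i - t) c y := by
  rw [SS, SS, ← tsum_mul_left]
  congr 1; ext i
  rw [mul_left_comm, ← Real.exp_add]
  ring_nf

theorem shift_sum {ι : Type*} {x c : ι → ℝ} (h : Good x c) (t : ℝ) :
    Summable fun i => |c i| * Real.exp (-(π * (x i - t))) := by
  refine (h.s1.mul_right (Real.exp (π * t))).congr (fun i => ?_)
  rw [mul_assoc, ← Real.exp_add]; ring_nf

theorem d3_lim : Tendsto (fun y => Real.exp (π * 1 * y) * d3 y) atTop (𝓝 2) := by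
  have h := SS_tendsto (x := fun n => x0 n - 1) (c := fun n => 1 * x0 n)
    (fun n hn => sub_nonneg.mpr (x0_ge (right_ne_zero_of_mul hn))) (shift_sum good0.mulx 1)
  rw [tsum_pm (fun n => 1 * x0 n)] at h
  have e : (1 * x0 1 + 1 * x0 (-1) : ℝ) = 2 := by simp [x0]; norm_num
  rw [e] at h
  exact h.congr (fun y => (shift _ _ _ _).symm)

theorem d4_lim : Tendsto (fun y => Real.exp (π * 1 * y) * d4 y) atTop (𝓝 (-2)) := by
  have h := SS_tendsto (x := fun n => x0 n - 1) (c := fun n => sg n * x0 n)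
    (fun n hn => sub_nonneg.mpr (x0_ge (right_ne_zero_of_mul hn))) (shift_sum good4.mulx 1)
  rw [tsum_pm (fun n => sg n * x0 n)] at h
  have e : (sg 1 * x0 1 + sg (-1) * x0 (-1) : ℝ) = -2 := by simp [x0, sg]; norm_num
  rw [e] at h
  exact h.congr (fun y => (shift _ _ _ _).symm)

theorem xh_ge (n : ℤ) : 1 / 4 ≤ xh n := by
  rw [xh]
  have : (0 : ℝ) ≤ (n : ℝ) * ((n : ℝ) + 1) := by
    rcases le_or_gt 0 n with h | h
    · have : (0 : ℝ) ≤ n := by exact_mod_cast h
      positivity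
    · have h1 : (n : ℝ) + 1 ≤ 0 := by exact_mod_cast (by omega : n + 1 ≤ 0)
      have h2 : (n : ℝ) ≤ 0 := by linarith
      exact mul_nonneg_of_nonpos_of_nonpos h2 h1
  nlinarith

theorem th2_lim' : Tendsto (fun y => Real.exp (π * (1 / 4) * y) * th2 y) atTop (𝓝 2) := by
  have h := SS_tendsto (x := fun n => xh n - 1 / 4) (c := fun _ => (1 : ℝ))
    (fun n _ => sub_nonneg.mpr (xh_ge n)) (shift_sum goodh (1 / 4))
  rw [tsum_h (fun _ => (1 : ℝ))] at h
  have e : (1 + 1 : ℝ) = 2 := by norm_num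
  rw [e] at h
  rw [th2_eq]
  exact h.congr (fun y => (shift _ _ _ _).symm)

theorem tsum_0 (c : ℤ → ℝ) : (∑' n : ℤ, if x0 n = 0 then c n else 0) = c 0 := by
  rw [tsum_eq_single 0 (fun n hn => by
    rw [if_neg]
    intro h
    have h2 : (n : ℝ) = 0 := by rw [x0] at h; exact pow_eq_zero_iff two_ne_zero |>.mp h
    exact hn (by exact_mod_cast h2))]
  simp [x0]

theorem th3_lim : Tendsto th3 atTop (𝓝 1) := by
  have h := SS_tendsto (x := x0) (c := fun _ => (1 : ℝ)) (fun n _ => good0.nonneg n) good0.s1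
  rw [tsum_0 (fun _ => (1 : ℝ))] at h
  rwa [th3_eq]

theorem th4_lim : Tendsto th4 atTop (𝓝 1) := by
  have h := SS_tendsto (x := x0) (c := sg) (fun n _ => good0.nonneg n) good4.s1
  rw [tsum_0 sg] at h
  have e : sg 0 = 1 := sg_even (by decide)
  rw [e] at h
  rwa [th4_eq]

theorem exp_lim {t : ℝ} (ht : 0 < t) : Tendsto (fun y : ℝ => Real.exp (-(π * t * y))) atTop (𝓝 0) := by
  have hπ := Real.pi_pos
  have h2 : Tendsto (fun y : ℝ => -(π * t * y)) atTop atBot := by
    have : Tendsto (fun y : ℝ => π * t * y) atTop atTop :=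
      tendsto_id.const_mul_atTop (by positivity)
    exact tendsto_neg_atTop_atBot.comp this
  exact Real.tendsto_exp_atBot.comp h2

theorem th2_lim : Tendsto th2 atTop (𝓝 0) := by
  have h := th2_lim'.mul (exp_lim (t := 1 / 4) (by norm_num))
  rw [mul_zero] at h
  refine h.congr (fun y => ?_)
  rw [mul_right_comm, ← Real.exp_add]
  simp

end K3MTh
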