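import Mathlib

/-! # Exponential series `∑ c_i exp(-π x_i y)`: derivatives, bounds, limits -/

namespace K3MTh

open Real Filter Topology

variable {ι : Type*}

/-- the series `∑ c_i exp(-π x_i y)` -/
noncomputable def SS (x c : ι → ℝ) (y : ℝ) : ℝ := ∑' i, c i * Real.exp (-(π * x i * y))

/-- admissible exponents and coefficients -/
structure Good (x c : ι → ℝ) : Prop where
  nonneg : ∀ i, 0 ≤ x i
  sum : ∀ ε : ℝ, 0 < ε → Summable fun i => |c i| * Real.exp (-(π * x i * ε))

theorem Good.summable {x c : ι → ℝ} (h : Good x c) {y : ℝ} (hy : 0 < y) :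
    Summable fun i => c i * Real.exp (-(π * x i * y)) := by
  refine (h.sum y hy).of_norm_bounded (fun i => ?_)
  rw [norm_mul, Real.norm_eq_abs, Real.norm_eq_abs, abs_of_pos (Real.exp_pos _)]

theorem mul_exp_le {x ε : ℝ} (hx : 0 ≤ x) (hε : 0 < ε) :
    x * Real.exp (-(π * x * ε)) ≤ (2 / (π * ε)) * Real.exp (-(π * x * (ε / 2))) := by
  have h1 : Real.exp (-(π * x * ε))
      = Real.exp (-(π * x * (ε / 2))) * Real.exp (-(π * x * (ε / 2))) := by
    rw [← Real.exp_add]; ring_nf
  have h2 : (π * x * (ε / 2)) * Real.exp (-(π * x * (ε / 2))) ≤ 1 := by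
    have h3 := Real.add_one_le_exp (π * x * (ε / 2))
    have h4 : 0 < Real.exp (π * x * (ε / 2)) := Real.exp_pos _
    rw [Real.exp_neg, ← div_eq_mul_inv, div_le_one h4]
    linarith
  have hπ := Real.pi_pos
  have h5 : x * Real.exp (-(π * x * (ε / 2))) ≤ 2 / (π * ε) := by
    rw [le_div_iff₀ (by positivity)]
    nlinarith
  rw [h1, ← mul_assoc]
  exact mul_le_mul_of_nonneg_right h5 (Real.exp_pos _).le

theorem Good.mulx {x c : ι → ℝ} (h : Good x c) : Good x (fun i => c i * x i) := by
  refine ⟨h.nonneg, fun ε hε => ?_⟩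
  have h1 := (h.sum (ε / 2) (by linarith)).mul_left (2 / (π * ε))
  refine Summable.of_nonneg_of_le (fun i => by positivity) (fun i => ?_) h1
  rw [abs_mul, abs_of_nonneg (h.nonneg i), mul_assoc]
  calc |c i| * (x i * Real.exp (-(π * x i * ε)))
      ≤ |c i| * ((2 / (π * ε)) * Real.exp (-(π * x i * (ε / 2)))) :=
        mul_le_mul_of_nonneg_left (mul_exp_le (h.nonneg i) hε) (abs_nonneg _)
    _ = 2 / (π * ε) * (|c i| * Real.exp (-(π * x i * (ε / 2)))) := by ring

theorem Good.hasDerivAt {x c : ι → ℝ} (h : Good x c) {y : ℝ} (hy : 0 < y) :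
    HasDerivAt (SS x c) (-π * SS x (fun i => c i * x i) y) y := by
  have hu : Summable fun i => π * (|c i * x i| * Real.exp (-(π * x i * (y / 2)))) :=
    (h.mulx.sum (y / 2) (by linarith)).mul_left π
  have key := hasDerivAt_tsum_of_isPreconnected (t := Set.Ioi (y / 2)) (y₀ := y) (y := y)
    (g := fun i z => c i * Real.exp (-(π * x i * z)))
    (g' := fun i z => -(π * x i) * (c i * Real.exp (-(π * x i * z)))) hu isOpen_Ioi
    isPreconnected_Ioi ?_ ?_ (by simp; linarith) (h.summable hy) (by simp; linarith)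
  · have e : -π * SS x (fun i => c i * x i) y
        = ∑' i, -(π * x i) * (c i * Real.exp (-(π * x i * y))) := by
      rw [SS, ← tsum_mul_left]
      congr 1; ext i; ring
    rw [e]; exact key
  · intro i z _
    have h1 : HasDerivAt (fun z : ℝ => -(π * x i * z)) (-(π * x i)) z := by
      have := ((hasDerivAt_id z).const_mul (π * x i)).neg
      rw [mul_one] at this
      exact this
    have h2 := (h1.exp).const_mul (c i)
    refine h2.congr_deriv ?_
    ring
  · intro i z hz
    have hz' : y / 2 < z := hz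
    have hxi := h.nonneg i
    have hπ := Real.pi_pos
    rw [norm_mul, norm_mul, norm_neg, Real.norm_eq_abs, Real.norm_eq_abs, Real.norm_eq_abs,
      abs_of_pos (Real.exp_pos _), abs_of_nonneg (by positivity : 0 ≤ π * x i), abs_mul,
      abs_of_nonneg hxi]
    have h3 : Real.exp (-(π * x i * z)) ≤ Real.exp (-(π * x i * (y / 2))) := by
      apply Real.exp_le_exp.mpr
      have : π * x i * (y / 2) ≤ π * x i * z := mul_le_mul_of_nonneg_left hz'.le (by positivity)
      linarith
    calc π * x i * (|c i| * Real.exp (-(π * x i * z)))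
        ≤ π * x i * (|c i| * Real.exp (-(π * x i * (y / 2)))) := by gcongr
      _ = π * (|c i| * x i * Real.exp (-(π * x i * (y / 2)))) := by ring

theorem SS_bound {x c : ι → ℝ} (x0 : ℝ) (hx : ∀ i, c i ≠ 0 → x0 ≤ x i)
    (hs : Summable fun i => |c i| * Real.exp (-(π * x i))) {y : ℝ} (hy : 1 ≤ y) :
    |SS x c y| ≤ (∑' i, |c i| * Real.exp (-(π * (x i - x0)))) * Real.exp (-(π * x0 * y)) := by
  have hπ := Real.pi_pos
  have hs2 : Summable fun i => |c i| * Real.exp (-(π * (x i - x0))) := by
    refine (hs.mul_right (Real.exp (π * x0))).congr (fun i => ?_)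
    rw [mul_assoc, ← Real.exp_add]; ring_nf
  have hs3 := hs2.mul_right (Real.exp (-(π * x0 * y)))
  rw [SS, ← tsum_mul_right, ← Real.norm_eq_abs]
  refine tsum_of_norm_bounded hs3.hasSum (fun i => ?_)
  rw [norm_mul, Real.norm_eq_abs, Real.norm_eq_abs, abs_of_pos (Real.exp_pos _)]
  by_cases hc : c i = 0
  · rw [hc]; simp
  · have h1 := hx i hc
    have h2 : |c i| * Real.exp (-(π * (x i - x0))) * Real.exp (-(π * x0 * y))
        = |c i| * Real.exp (-(π * (x i - x0)) + -(π * x0 * y)) := by
      rw [Real.exp_add]; ring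
    rw [h2]
    refine mul_le_mul_of_nonneg_left (Real.exp_le_exp.mpr ?_) (abs_nonneg _)
    nlinarith [mul_nonneg hπ.le (mul_nonneg (sub_nonneg.mpr h1) (sub_nonneg.mpr hy))]

theorem SS_tendsto {x c : ι → ℝ} (hx : ∀ i, c i ≠ 0 → 0 ≤ x i)
    (hs : Summable fun i => |c i| * Real.exp (-(π * x i))) :
    Tendsto (SS x c) atTop (𝓝 (∑' i, if x i = 0 then c i else 0)) := by
  have hπ := Real.pi_pos
  refine tendsto_tsum_of_dominated_convergence hs (fun i => ?_) ?_
  · by_cases hxi : x i = 0
    · simp [hxi]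
    · rw [if_neg hxi]
      by_cases hc : c i = 0
      · simp [hc]
      · have h1 : 0 < x i := lt_of_le_of_ne (hx i hc) (Ne.symm hxi)
        have h2 : Tendsto (fun y : ℝ => -(π * x i * y)) atTop atBot := by
          have : Tendsto (fun y : ℝ => π * x i * y) atTop atTop :=
            tendsto_id.const_mul_atTop (by positivity)
          exact tendsto_neg_atTop_atBot.comp this
        have h3 := (Real.tendsto_exp_atBot.comp h2).const_mul (c i)
        simpa using h3
  · filter_upwards [eventually_ge_atTop (1 : ℝ)] with y hy i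
    rw [norm_mul, Real.norm_eq_abs, Real.norm_eq_abs, abs_of_pos (Real.exp_pos _)]
    by_cases hc : c i = 0
    · simp [hc]
    · have h1 := hx i hc
      refine mul_le_mul_of_nonneg_left (Real.exp_le_exp.mpr ?_) (abs_nonneg _)
      nlinarith [mul_nonneg (mul_nonneg hπ.le h1) (sub_nonneg.mpr hy)]

end K3MTh
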