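import Pool.Agent.K3M.ThBasic

/-! # Theta constants: Landen identities and Jacobi identity -/

namespace K3MTh

open Real Filter Topology MM7

theorem bij_land : Function.Bijective
    (Sum.elim (fun p : ℤ × ℤ => (p.1 + p.2, p.1 - p.2))
      (fun p : ℤ × ℤ => (p.1 + p.2 + 1, p.1 - p.2))) := by
  constructor
  · rintro (⟨a, b⟩ | ⟨a, b⟩) (⟨c, d⟩ | ⟨c, d⟩) h <;>
      simp only [Sum.elim_inl, Sum.elim_inr, Prod.mk.injEq] at h
    · congr 2 <;> omega
    · omega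
    · omega
    · congr 2 <;> omega
  · rintro ⟨m, n⟩
    rcases Int.even_or_odd' (m - n) with ⟨k, hk | hk⟩
    · exact ⟨Sum.inl (n + k, k), by simp only [Sum.elim_inl, Prod.mk.injEq]; omega⟩
    · exact ⟨Sum.inr (n + k, k), by simp only [Sum.elim_inr, Prod.mk.injEq]; omega⟩

theorem prodl {ι κ : Type*} {f : ι → ℝ} {g : κ → ℝ} (hf : Summable f) (hg : Summable g) :
    (∑' n, f n) * (∑' n, g n) = ∑' p : ι × κ, f p.1 * g p.2 :=
  tsum_mul_tsum_of_summable_norm hf.norm hg.norm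

theorem sum_prodl {ι κ : Type*} {f : ι → ℝ} {g : κ → ℝ} (hf : Summable f) (hg : Summable g) :
    Summable fun p : ι × κ => f p.1 * g p.2 :=
  summable_mul_of_summable_norm hf.norm hg.norm

theorem E_same (y : ℝ) (a b : ℤ) :
    Real.exp (-(π * ((a + b : ℤ) : ℝ) ^ 2 * y)) * Real.exp (-(π * ((a - b : ℤ) : ℝ) ^ 2 * y))
      = Real.exp (-(π * (a : ℝ) ^ 2 * (2 * y))) * Real.exp (-(π * (b : ℝ) ^ 2 * (2 * y))) := by
  rw [← Real.exp_add, ← Real.exp_add]; push_cast; ring_nf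

theorem E_diff (y : ℝ) (a b : ℤ) :
    Real.exp (-(π * ((a + b + 1 : ℤ) : ℝ) ^ 2 * y)) * Real.exp (-(π * ((a - b : ℤ) : ℝ) ^ 2 * y))
      = Real.exp (-(π * ((a : ℝ) + 1 / 2) ^ 2 * (2 * y)))
        * Real.exp (-(π * ((b : ℝ) + 1 / 2) ^ 2 * (2 * y))) := by
  rw [← Real.exp_add, ← Real.exp_add]; push_cast; ring_nf

theorem sg_sub (m n : ℤ) : sg (m - n) = sg m * sg n := by
  have h : sg (-n) = sg n := by rw [sg, sg, Int.natAbs_neg]
  rw [sub_eq_add_neg, sg_add, h]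

theorem sg_sq (n : ℤ) : sg n * sg n = 1 := by
  rw [← sg_add]; exact sg_even ⟨n, rfl⟩

theorem th3_sq {y : ℝ} (hy : 0 < y) : th3 y ^ 2 = th3 (2 * y) ^ 2 + th2 (2 * y) ^ 2 := by
  have hs := th3_summable hy
  have h2 : 0 < 2 * y := by positivity
  have hs3 := th3_summable h2
  have hs2 := th2_summable h2
  rw [sq, sq, sq]
  have e1 : th3 y * th3 y = _ := prodl hs hs
  have e2 : th3 (2 * y) * th3 (2 * y) = _ := prodl hs3 hs3
  have e3 : th2 (2 * y) * th2 (2 * y) = _ := prodl hs2 hs2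
  rw [e1, e2, e3, tsum_two bij_land (sum_prodl hs hs)]
  congr 1
  · congr 1; ext p; exact E_same y p.1 p.2
  · congr 1; ext p; exact E_diff y p.1 p.2

theorem th4_sq {y : ℝ} (hy : 0 < y) : th4 y ^ 2 = th3 (2 * y) ^ 2 - th2 (2 * y) ^ 2 := by
  have hs := th4_summable hy
  have h2 : 0 < 2 * y := by positivity
  have hs3 := th3_summable h2
  have hs2 := th2_summable h2
  rw [sq, sq, sq]
  have h4 : th4 y = ∑' n : ℤ, sg n * Real.exp (-(π * (n : ℝ) ^ 2 * y)) := rfl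
  have e1 := prodl hs hs
  rw [← h4] at e1
  have e2 : th3 (2 * y) * th3 (2 * y) = _ := prodl hs3 hs3
  have e3 : th2 (2 * y) * th2 (2 * y) = _ := prodl hs2 hs2
  rw [e1, e2, e3, tsum_two bij_land (sum_prodl hs hs), sub_eq_add_neg, ← tsum_neg]
  congr 1
  · congr 1; ext p
    have h1 := E_same y p.1 p.2
    have h3 : sg (p.1 + p.2) * sg (p.1 - p.2) = 1 := by
      rw [sg_add, sg_sub]
      calc sg p.1 * sg p.2 * (sg p.1 * sg p.2) = (sg p.1 * sg p.1) * (sg p.2 * sg p.2) := by ring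
        _ = 1 := by rw [sg_sq, sg_sq]; norm_num
    calc _ = (sg (p.1 + p.2) * sg (p.1 - p.2))
          * (Real.exp (-(π * ((p.1 + p.2 : ℤ) : ℝ) ^ 2 * y))
            * Real.exp (-(π * ((p.1 - p.2 : ℤ) : ℝ) ^ 2 * y))) := by ring
      _ = _ := by rw [h3, h1, one_mul]
  · congr 1; ext p
    have h1 := E_diff y p.1 p.2
    have h3 : sg (p.1 + p.2 + 1) * sg (p.1 - p.2) = -1 := by
      rw [sg_add, sg_add, sg_sub, sg_odd odd_one]
      calc sg p.1 * sg p.2 * -1 * (sg p.1 * sg p.2)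
          = -((sg p.1 * sg p.1) * (sg p.2 * sg p.2)) := by ring
        _ = -1 := by rw [sg_sq, sg_sq]; norm_num
    calc _ = (sg (p.1 + p.2 + 1) * sg (p.1 - p.2))
          * (Real.exp (-(π * ((p.1 + p.2 + 1 : ℤ) : ℝ) ^ 2 * y))
            * Real.exp (-(π * ((p.1 - p.2 : ℤ) : ℝ) ^ 2 * y))) := by ring
      _ = _ := by rw [h3, h1]; ring

theorem odd_sum_zero (t : ℝ) :
    ∑' n : ℤ, sg n * Real.exp (-(π * ((n : ℝ) + 1 / 2) ^ 2 * t)) = 0 := by
  let e : ℤ ≃ ℤ := (Equiv.neg ℤ).trans (Equiv.subRight 1)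
  have h1 := e.tsum_eq (fun n : ℤ => sg n * Real.exp (-(π * ((n : ℝ) + 1 / 2) ^ 2 * t)))
  have h2 : ∀ n : ℤ, sg (e n) * Real.exp (-(π * (((e n : ℤ) : ℝ) + 1 / 2) ^ 2 * t))
      = -(sg n * Real.exp (-(π * ((n : ℝ) + 1 / 2) ^ 2 * t))) := by
    intro n
    have e1 : e n = -n - 1 := rfl
    have e2 : sg (-n - 1) = -sg n := by
      rw [sg_sub, sg_odd odd_one]
      have : sg (-n) = sg n := by rw [sg, sg, Int.natAbs_neg]
      rw [this]; ring
    rw [e1, e2]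
    push_cast
    ring_nf
  simp only [h2] at h1
  rw [tsum_neg] at h1
  linarith

theorem th34 {y : ℝ} (hy : 0 < y) : th3 y * th4 y = th4 (2 * y) ^ 2 := by
  have hs3 := th3_summable hy
  have hs4 := th4_summable hy
  have h2 : 0 < 2 * y := by positivity
  have hs4' := th4_summable h2
  have hsh : Summable fun n : ℤ => sg n * Real.exp (-(π * ((n : ℝ) + 1 / 2) ^ 2 * (2 * y))) := by
    refine (th2_summable h2).of_norm_bounded (fun n => ?_)
    rw [norm_mul, Real.norm_eq_abs, sg_abs, one_mul, Real.norm_eq_abs,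
      abs_of_pos (Real.exp_pos _)]
  rw [sq]
  have h4 : ∀ y, th4 y = ∑' n : ℤ, sg n * Real.exp (-(π * (n : ℝ) ^ 2 * y)) := fun _ => rfl
  have h33 : ∀ y, th3 y = ∑' n : ℤ, Real.exp (-(π * (n : ℝ) ^ 2 * y)) := fun _ => rfl
  have e1 := prodl hs3 hs4
  rw [← h4, ← h33] at e1
  have e2 := prodl hs4' hs4'
  rw [← h4] at e2
  have e3 := prodl hsh hsh
  rw [odd_sum_zero, zero_mul] at e3
  rw [e1, e2, tsum_two bij_land (sum_prodl hs3 hs4)]
  have e4 : ∑' k : ℤ × ℤ, (Real.exp (-(π * ((k.1 + k.2 + 1 : ℤ) : ℝ) ^ 2 * y))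
      * (sg (k.1 - k.2) * Real.exp (-(π * ((k.1 - k.2 : ℤ) : ℝ) ^ 2 * y)))) = 0 := by
    rw [e3]
    congr 1; ext p
    have h1 := E_diff y p.1 p.2
    rw [sg_sub]
    linear_combination (sg p.1 * sg p.2) * h1
  simp only
  rw [e4, add_zero]
  congr 1; ext p
  have h1 := E_same y p.1 p.2
  rw [sg_sub]
  linear_combination (sg p.1 * sg p.2) * h1

/-- Jacobi's identity -/
theorem jacobi {y : ℝ} (hy : 0 < y) : th3 y ^ 4 = th2 y ^ 4 + th4 y ^ 4 := by
  have h : 0 < y / 2 := by positivity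
  have e : 2 * (y / 2) = y := by ring
  have h1 := th3_sq h
  have h2 := th4_sq h
  have h3 := th34 h
  rw [e] at h1 h2 h3
  have h4 : th4 y ^ 4 = (th3 (y / 2) ^ 2) * (th4 (y / 2) ^ 2) := by
    rw [← mul_pow, h3]; ring
  rw [h4, h1, h2]; ring

/-- `θ₂(y)² = 2 θ₂(2y) θ₃(2y)` -/
theorem th2_sq {y : ℝ} (hy : 0 < y) : th2 y ^ 2 = 2 * th2 (2 * y) * th3 (2 * y) := by
  have h1 := th3_sq hy
  have h2 := th4_sq hy
  have h3 := jacobi hy
  have p2 := th2_pos hy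
  have q2 := th2_pos (y := 2 * y) (by positivity)
  have q3 := th3_pos (y := 2 * y) (by positivity)
  have h4 : (th2 y ^ 2) ^ 2 = (2 * th2 (2 * y) * th3 (2 * y)) ^ 2 := by
    have e1 : th2 y ^ 4 = (th3 y ^ 2) ^ 2 - (th4 y ^ 2) ^ 2 := by linear_combination -h3
    have e2 : (th2 y ^ 2) ^ 2 = th2 y ^ 4 := by ring
    rw [e2, e1, h1, h2]; ring
  exact (pow_left_inj₀ (by positivity) (by positivity) two_ne_zero).mp h4

end K3MTh
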