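import Pool.Agent.K3M.ThDer

/-! # Theta constants: the first order relations `(R1)` and the second order relation `(R2)` -/

namespace K3MTh

open Real Filter Topology MM7

theorem dbl_th3 {y : ℝ} (hy : 0 < y) :
    HasDerivAt (fun y => th3 (2 * y)) (-π * d3 (2 * y) * 2) y := by
  have h1 := hasDerivAt_th3 (y := 2 * y) (by positivity)
  have h2 : HasDerivAt (fun y : ℝ => 2 * y) 2 y := by
    simpa using (hasDerivAt_id y).const_mul (2 : ℝ)
  exact h1.comp y h2

theorem dbl_th4 {y : ℝ} (hy : 0 < y) :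
    HasDerivAt (fun y => th4 (2 * y)) (-π * d4 (2 * y) * 2) y := by
  have h1 := hasDerivAt_th4 (y := 2 * y) (by positivity)
  have h2 : HasDerivAt (fun y : ℝ => 2 * y) 2 y := by
    simpa using (hasDerivAt_id y).const_mul (2 : ℝ)
  exact h1.comp y h2

/-- doubling of `D th3` -/
theorem dd_th3 {y : ℝ} (hy : 0 < y) :
    4 * th3 (2 * y) * d3 (2 * y) = th3 y * d3 y + th4 y * d4 y := by
  have h1 := (dbl_th3 hy).pow 2
  have h2 := (((hasDerivAt_th3 hy).pow 2).add ((hasDerivAt_th4 hy).pow 2)).div_const 2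
  have h3 : (fun y => th3 (2 * y)) ^ 2 =ᶠ[𝓝 y] fun y => (th3 ^ 2 + th4 ^ 2) y / 2 := by
    filter_upwards [isOpen_Ioi.mem_nhds hy] with z hz
    simp only [Pi.pow_apply, Pi.add_apply]
    rw [th3_sq hz, th4_sq hz]; ring
  have h4 := h1.unique (h2.congr_of_eventuallyEq h3)
  have hπ := Real.pi_ne_zero
  have h5 : π * (4 * th3 (2 * y) * d3 (2 * y) - (th3 y * d3 y + th4 y * d4 y)) = 0 := by
    push_cast at h4
    linear_combination -h4
  have h6 := (mul_eq_zero.mp h5).resolve_left hπ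
  linear_combination h6

/-- doubling of `D th4` -/
theorem dd_th4 {y : ℝ} (hy : 0 < y) :
    4 * th4 (2 * y) * d4 (2 * y) = d3 y * th4 y + th3 y * d4 y := by
  have h1 := (dbl_th4 hy).pow 2
  have h2 := (hasDerivAt_th3 hy).mul (hasDerivAt_th4 hy)
  have h3 : (fun y => th4 (2 * y)) ^ 2 =ᶠ[𝓝 y] th3 * th4 := by
    filter_upwards [isOpen_Ioi.mem_nhds hy] with z hz
    simp only [Pi.pow_apply, Pi.mul_apply]
    rw [th34 hz]
  have h4 := h1.unique (h2.congr_of_eventuallyEq h3)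
  have hπ := Real.pi_ne_zero
  have h5 : π * (4 * th4 (2 * y) * d4 (2 * y) - (d3 y * th4 y + th3 y * d4 y)) = 0 := by
    push_cast at h4
    linear_combination -h4
  have h6 := (mul_eq_zero.mp h5).resolve_left hπ
  linear_combination h6

/-- `D log (θ₃/θ₄)` -/
noncomputable def FF (y : ℝ) : ℝ := d3 y / th3 y - d4 y / th4 y

theorem th2_dbl4 {y : ℝ} (hy : 0 < y) :
    th2 (2 * y) ^ 4 = th2 y ^ 4 * ((th3 y ^ 2 - th4 y ^ 2) / (4 * (th3 y ^ 2 + th4 y ^ 2))) := by
  have h1 := th3_sq hy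
  have h2 := th4_sq hy
  have h3 := jacobi hy
  have p3 := th3_pos hy
  have p4 := th4_pos hy
  have e1 : th2 (2 * y) ^ 2 = (th3 y ^ 2 - th4 y ^ 2) / 2 := by rw [h1, h2]; ring
  have e2 : th2 y ^ 4 = (th3 y ^ 2 - th4 y ^ 2) * (th3 y ^ 2 + th4 y ^ 2) := by
    linear_combination -h3
  have e3 : th2 (2 * y) ^ 4 = (th2 (2 * y) ^ 2) ^ 2 := by ring
  rw [e3, e1, e2]
  field_simp
  ring

theorem FF_dbl {y : ℝ} (hy : 0 < y) :
    FF (2 * y) = FF y * ((th3 y ^ 2 - th4 y ^ 2) / (4 * (th3 y ^ 2 + th4 y ^ 2))) := by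
  have h2 : 0 < 2 * y := by positivity
  have p3 := th3_pos hy
  have p4 := th4_pos hy
  have q3 := th3_pos h2
  have q4 := th4_pos h2
  have e1 := dd_th3 hy
  have e2 := dd_th4 hy
  have a1 : th3 (2 * y) ^ 2 = (th3 y ^ 2 + th4 y ^ 2) / 2 := by
    rw [th3_sq hy, th4_sq hy]; ring
  have a2 := th34 hy
  have b1 : d3 (2 * y) / th3 (2 * y) = (th3 y * d3 y + th4 y * d4 y) / (4 * th3 (2 * y) ^ 2) := by
    rw [← e1]; field_simp
  have b2 : d4 (2 * y) / th4 (2 * y) = (d3 y * th4 y + th3 y * d4 y) / (4 * th4 (2 * y) ^ 2) := by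
    rw [← e2]; field_simp
  rw [FF, b1, b2, a1, ← a2, FF]
  field_simp
  ring

theorem pow_two_mul_tendsto {y : ℝ} (hy : 0 < y) :
    Tendsto (fun k : ℕ => (2 : ℝ) ^ k * y) atTop atTop :=
  (tendsto_pow_atTop_atTop_of_one_lt one_lt_two).atTop_mul_const hy

/-- the first relation -/
theorem R1 {y : ℝ} (hy : 0 < y) : FF y = th2 y ^ 4 / 4 := by
  set R : ℝ → ℝ := fun y => FF y / th2 y ^ 4 with hR
  have hdbl : ∀ z, 0 < z → R (2 * z) = R z := by
    intro z hz
    have p2 := th2_pos hz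
    have p3 := th3_pos hz
    have p4 := th4_pos hz
    have q2 := th2_pos (y := 2 * z) (by positivity)
    have h0 : (th3 z ^ 2 - th4 z ^ 2) / (4 * (th3 z ^ 2 + th4 z ^ 2)) ≠ 0 := by
      intro h0
      have := th2_dbl4 hz
      rw [h0, mul_zero] at this
      exact (pow_pos q2 4).ne' this
    simp only [hR]
    rw [FF_dbl hz, th2_dbl4 hz, mul_div_mul_right _ _ h0]
  have hk : ∀ k : ℕ, R ((2 : ℝ) ^ k * y) = R y := by
    intro k
    induction k with
    | zero => simp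
    | succ k ih =>
      rw [pow_succ', mul_assoc, hdbl _ (by positivity), ih]
  have hlim : Tendsto R atTop (𝓝 (1 / 4)) := by
    have h1 := (((d3_lim.mul th4_lim).sub (th3_lim.mul d4_lim)).div (th3_lim.mul th4_lim)
      (by norm_num)).div (th2_lim'.pow 4) (by norm_num)
    have e : ((2 * 1 - 1 * -2) / (1 * 1) / 2 ^ 4 : ℝ) = 1 / 4 := by norm_num
    rw [e] at h1
    refine h1.congr' ?_
    filter_upwards [eventually_gt_atTop (0 : ℝ)] with z hz
    have p2 := th2_pos hz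
    have p3 := th3_pos hz
    have p4 := th4_pos hz
    simp only [hR, FF, Pi.div_apply]
    have e1 : (Real.exp (π * (1 / 4) * z) * th2 z) ^ 4 = Real.exp (π * 1 * z) * th2 z ^ 4 := by
      rw [mul_pow, ← Real.exp_nat_mul]
      congr 2
      push_cast; ring
    rw [e1]
    have e2 := Real.exp_pos (π * 1 * z)
    field_simp
  have h2 : Tendsto (fun k : ℕ => R ((2 : ℝ) ^ k * y)) atTop (𝓝 (1 / 4)) :=
    hlim.comp (pow_two_mul_tendsto hy)
  simp only [hk] at h2
  have h3 := tendsto_nhds_unique tendsto_const_nhds h2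
  have p2 := th2_pos hy
  simp only [hR] at h3
  rw [div_eq_iff (by positivity)] at h3
  rw [h3]; ring

/-- `p = D log θ₃⁴` -/
noncomputable def pth (y : ℝ) : ℝ := 4 * d3 y / th3 y
/-- `D p` -/
noncomputable def dpth (y : ℝ) : ℝ := 4 * (dd3 y / th3 y - (d3 y / th3 y) ^ 2)

theorem hasDerivAt_pth {y : ℝ} (hy : 0 < y) : HasDerivAt pth (-π * dpth y) y := by
  have p3 := th3_pos hy
  have h1 := ((hasDerivAt_d3 hy).const_mul 4).div (hasDerivAt_th3 hy) p3.ne'
  refine h1.congr_deriv ?_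
  rw [dpth]
  field_simp
  ring

theorem d3_eq {y : ℝ} (hy : 0 < y) : d3 y = th3 y * pth y / 4 := by
  have p3 := th3_pos hy
  rw [pth]; field_simp

theorem d4_eq {y : ℝ} (hy : 0 < y) : d4 y = th4 y * (pth y - th2 y ^ 4) / 4 := by
  have p3 := th3_pos hy
  have p4 := th4_pos hy
  have h := R1 hy
  rw [FF] at h
  have e1 : d4 y / th4 y = (pth y - th2 y ^ 4) / 4 := by
    rw [pth]; linear_combination -h
  rw [div_eq_iff p4.ne'] at e1
  rw [e1]; ring

theorem d2_eq {y : ℝ} (hy : 0 < y) : d2 y = th2 y * (pth y + th4 y ^ 4) / 4 := by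
  have p2 := th2_pos hy
  have h1 := ((hasDerivAt_th3 hy).pow 4)
  have h2 := ((hasDerivAt_th2 hy).pow 4).add ((hasDerivAt_th4 hy).pow 4)
  have h3 : th3 ^ 4 =ᶠ[𝓝 y] th2 ^ 4 + th4 ^ 4 := by
    filter_upwards [isOpen_Ioi.mem_nhds hy] with z hz
    exact jacobi hz
  have h4 := h1.unique (h2.congr_of_eventuallyEq h3)
  rw [d3_eq hy, d4_eq hy] at h4
  have hj := jacobi hy
  have hπ := Real.pi_pos
  push_cast at h4
  have h5 : π * th2 y ^ 3 * (d2 y - th2 y * (pth y + th4 y ^ 4) / 4) = 0 := by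
    linear_combination h4 / 4 + (π * pth y / 4) * hj
  have h6 : π * th2 y ^ 3 ≠ 0 := by positivity
  have h7 := (mul_eq_zero.mp h5).resolve_left h6
  linear_combination h7

end K3MTh
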