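import Pool.Agent.K3M.ThR

/-! # Theta constants: the second order relation `(R2)`: `D p = (p² + (θ₂θ₄)⁴)/2` -/

namespace K3MTh

open Real Filter Topology MM7

/-- doubling of `p` -/
theorem pth_dbl {y : ℝ} (hy : 0 < y) :
    pth (2 * y) = pth y / 2 - th4 y ^ 2 * (th3 y ^ 2 - th4 y ^ 2) / 2 := by
  have h2 : 0 < 2 * y := by positivity
  have p3 := th3_pos hy
  have p4 := th4_pos hy
  have q3 := th3_pos h2
  have e1 := dd_th3 hy
  have a1 : th3 (2 * y) ^ 2 = (th3 y ^ 2 + th4 y ^ 2) / 2 := by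
    rw [th3_sq hy, th4_sq hy]; ring
  have hj := jacobi hy
  have e2 : th2 y ^ 4 = (th3 y ^ 2 - th4 y ^ 2) * (th3 y ^ 2 + th4 y ^ 2) := by
    linear_combination -hj
  have b1 : pth (2 * y) = (th3 y * d3 y + th4 y * d4 y) / th3 (2 * y) ^ 2 := by
    rw [← e1, pth]; field_simp
  rw [b1, a1, d3_eq hy, d4_eq hy, e2]
  have : 0 < th3 y ^ 2 + th4 y ^ 2 := by positivity
  field_simp
  ring

theorem dpth_dbl {y : ℝ} (hy : 0 < y) :
    4 * dpth (2 * y) = dpth y - th4 y ^ 2 * th3 y ^ 2 * (pth y - th2 y ^ 4 / 2)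
      + th4 y ^ 4 * (pth y - th2 y ^ 4) := by
  have h2 : 0 < 2 * y := by positivity
  have hl := hasDerivAt_pth h2
  have hm : HasDerivAt (fun y : ℝ => 2 * y) 2 y := by
    simpa using (hasDerivAt_id y).const_mul (2 : ℝ)
  have h1 := hl.comp y hm
  have h3 := ((hasDerivAt_pth hy).div_const 2).sub
    ((((hasDerivAt_th4 hy).pow 2).mul
      (((hasDerivAt_th3 hy).pow 2).sub ((hasDerivAt_th4 hy).pow 2))).div_const 2)
  have h4 : pth ∘ (fun y => 2 * y) =ᶠ[𝓝 y]
      (fun y => pth y / 2) - fun y => (th4 ^ 2 * (th3 ^ 2 - th4 ^ 2)) y / 2 := by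
    filter_upwards [isOpen_Ioi.mem_nhds hy] with z hz
    simp only [Function.comp_apply, Pi.sub_apply, Pi.mul_apply, Pi.pow_apply]
    exact pth_dbl hz
  have h5 := h1.unique (h3.congr_of_eventuallyEq h4)
  have hπ := Real.pi_ne_zero
  simp only [Pi.sub_apply, Pi.pow_apply] at h5
  rw [d3_eq hy, d4_eq hy] at h5
  push_cast at h5
  have h6 : π * (4 * dpth (2 * y) - (dpth y - th4 y ^ 2 * th3 y ^ 2 * (pth y - th2 y ^ 4 / 2)
      + th4 y ^ 4 * (pth y - th2 y ^ 4))) = 0 := by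
    linear_combination -2 * h5
  have h7 := (mul_eq_zero.mp h6).resolve_left hπ
  linear_combination h7

noncomputable def GG (y : ℝ) : ℝ := dpth y - (pth y ^ 2 + (th2 y * th4 y) ^ 4) / 2

theorem GG_dbl {y : ℝ} (hy : 0 < y) : GG (2 * y) = GG y / 4 := by
  have p3 := th3_pos hy
  have p4 := th4_pos hy
  have hj := jacobi hy
  have e1 := th3_sq hy
  have e2 := th4_sq hy
  have e3 := th34 hy
  have f2 : th2 (2 * y) ^ 2 = (th3 y ^ 2 - th4 y ^ 2) / 2 := by rw [e1, e2]; ring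
  have a2 : th2 y ^ 4 = (th3 y ^ 2 - th4 y ^ 2) * (th3 y ^ 2 + th4 y ^ 2) := by
    linear_combination -hj
  have hh : (th2 (2 * y) * th4 (2 * y)) ^ 4
      = ((th3 y ^ 2 - th4 y ^ 2) / 2) ^ 2 * (th3 y * th4 y) ^ 2 := by
    rw [← f2, e3]; ring
  have hh2 : (th2 y * th4 y) ^ 4
      = (th3 y ^ 2 - th4 y ^ 2) * (th3 y ^ 2 + th4 y ^ 2) * th4 y ^ 4 := by
    rw [← a2]; ring
  have h1 := dpth_dbl hy
  rw [a2] at h1
  rw [GG, GG, hh, hh2, pth_dbl hy]
  linear_combination h1 / 4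

/-- the second relation -/
theorem R2 {y : ℝ} (hy : 0 < y) : dpth y = (pth y ^ 2 + (th2 y * th4 y) ^ 4) / 2 := by
  obtain ⟨C, hC, hb⟩ := exists_bounds
  have hk : ∀ k : ℕ, GG y = (4 : ℝ) ^ k * GG ((2 : ℝ) ^ k * y) := by
    intro k
    induction k with
    | zero => simp
    | succ k ih =>
      rw [pow_succ' 2, mul_assoc, GG_dbl (by positivity), ih, pow_succ]; ring
  have hbd : ∀ z, 1 ≤ z → |GG z| ≤ (4 * (C + C ^ 2) + 8 * C ^ 2 + C ^ 8) * Real.exp (-(π * z)) := by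
    intro z hz
    obtain ⟨c1, c2, c3, c4, c5⟩ := hb z hz
    have hz0 : 0 < z := by linarith
    have t1 := th3_ge_one hz0
    have t2 := th2_pos hz0
    have t4 := th4_pos hz0
    set E := Real.exp (-(π * z)) with hE
    have hE0 : 0 < E := Real.exp_pos _
    have hE1 : E ≤ 1 := by
      rw [hE]; apply Real.exp_le_one_iff.mpr
      have := Real.pi_pos; nlinarith
    have a1 : |dd3 z / th3 z| ≤ C * E := by
      rw [abs_div, abs_of_pos (by linarith : 0 < th3 z)]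
      exact (div_le_self (abs_nonneg _) t1).trans c2
    have a2 : |d3 z / th3 z| ≤ C * E := by
      rw [abs_div, abs_of_pos (by linarith : 0 < th3 z)]
      exact (div_le_self (abs_nonneg _) t1).trans c1
    have a3 : |(d3 z / th3 z) ^ 2| ≤ C ^ 2 * E := by
      rw [abs_pow]
      calc |d3 z / th3 z| ^ 2 ≤ (C * E) ^ 2 := pow_le_pow_left₀ (abs_nonneg _) a2 2
        _ = C ^ 2 * (E * E) := by ring
        _ ≤ C ^ 2 * (E * 1) := by gcongr
        _ = C ^ 2 * E := by ring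
    have a4 : |dpth z| ≤ 4 * (C + C ^ 2) * E := by
      rw [dpth, abs_mul, abs_of_pos (by norm_num : (0 : ℝ) < 4)]
      calc 4 * |dd3 z / th3 z - (d3 z / th3 z) ^ 2|
          ≤ 4 * (|dd3 z / th3 z| + |(d3 z / th3 z) ^ 2|) := by
            gcongr; exact abs_sub _ _
        _ ≤ 4 * (C * E + C ^ 2 * E) := by gcongr
        _ = 4 * (C + C ^ 2) * E := by ring
    have a5 : |pth z ^ 2| ≤ 16 * C ^ 2 * E := by
      have : pth z = 4 * (d3 z / th3 z) := by rw [pth]; ring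
      rw [this, mul_pow, abs_mul]
      calc |(4 : ℝ) ^ 2| * |(d3 z / th3 z) ^ 2| ≤ |(4 : ℝ) ^ 2| * (C ^ 2 * E) := by gcongr
        _ = 16 * C ^ 2 * E := by rw [abs_of_pos (by norm_num)]; ring
    have a6 : (th2 z * th4 z) ^ 4 ≤ C ^ 8 * E := by
      have : th2 z * th4 z ≤ C * Real.exp (-(π * (1 / 4) * z)) * C :=
        mul_le_mul c3 c4 t4.le (by positivity)
      calc (th2 z * th4 z) ^ 4 ≤ (C * Real.exp (-(π * (1 / 4) * z)) * C) ^ 4 :=
            pow_le_pow_left₀ (by positivity) this 4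
        _ = C ^ 8 * (Real.exp (-(π * (1 / 4) * z))) ^ 4 := by ring
        _ = C ^ 8 * E := by
            rw [← Real.exp_nat_mul, hE]; congr 2; push_cast; ring
    have a7 : |(th2 z * th4 z) ^ 4| ≤ C ^ 8 * E := by
      rw [abs_of_pos (by positivity)]; exact a6
    rw [GG]
    calc |dpth z - (pth z ^ 2 + (th2 z * th4 z) ^ 4) / 2|
        ≤ |dpth z| + |(pth z ^ 2 + (th2 z * th4 z) ^ 4) / 2| := abs_sub _ _
      _ ≤ |dpth z| + (|pth z ^ 2| + |(th2 z * th4 z) ^ 4|) / 2 := by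
          rw [abs_div, abs_of_pos (by norm_num : (0 : ℝ) < 2)]
          gcongr; exact abs_add_le _ _
      _ ≤ 4 * (C + C ^ 2) * E + (16 * C ^ 2 * E + C ^ 8 * E) / 2 := by gcongr
      _ ≤ (4 * (C + C ^ 2) + 8 * C ^ 2 + C ^ 8) * E := by
          have : 0 ≤ C ^ 8 * E := by positivity
          linarith
  set K := 4 * (C + C ^ 2) + 8 * C ^ 2 + C ^ 8 with hK
  have hlim : Tendsto (fun z : ℝ => z ^ 2 * Real.exp (-(π * z))) atTop (𝓝 0) := by
    have h1 := Real.tendsto_pow_mul_exp_neg_atTop_nhds_zero 2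
    have h2 : Tendsto (fun z : ℝ => π * z) atTop atTop :=
      tendsto_id.const_mul_atTop Real.pi_pos
    have h3 := (h1.comp h2).const_mul (1 / π ^ 2)
    rw [mul_zero] at h3
    refine h3.congr (fun z => ?_)
    have := Real.pi_pos
    simp only [Function.comp_apply]
    field_simp
  have h0 : Tendsto (fun k : ℕ => |GG y|) atTop (𝓝 0) := by
    have h1 := (hlim.comp (pow_two_mul_tendsto hy)).const_mul (K / y ^ 2)
    rw [mul_zero] at h1
    refine tendsto_of_tendsto_of_tendsto_of_le_of_le' tendsto_const_nhds h1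
      (Eventually.of_forall fun k => abs_nonneg _) ?_
    filter_upwards [(pow_two_mul_tendsto hy).eventually_ge_atTop 1] with k hk1
    have e1 := hbd _ hk1
    rw [hk k, abs_mul, abs_of_pos (by positivity : (0 : ℝ) < 4 ^ k)]
    calc (4 : ℝ) ^ k * |GG (2 ^ k * y)| ≤ 4 ^ k * (K * Real.exp (-(π * (2 ^ k * y)))) := by
          gcongr
      _ = K / y ^ 2 * ((2 ^ k * y) ^ 2 * Real.exp (-(π * (2 ^ k * y)))) := by
          have e4 : (4 : ℝ) ^ k = (2 ^ k) ^ 2 := by
            rw [← pow_mul, mul_comm k 2, pow_mul]; norm_num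
          rw [e4]; field_simp
  have h1 := tendsto_nhds_unique tendsto_const_nhds h0
  have h2 := abs_eq_zero.mp h1
  rw [GG] at h2
  linarith

end K3MTh
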