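import Pool.Agent.K3M.ThLanden

/-! # Theta constants: `ww (√7) = 1` -/

namespace K3MTh

open Real Filter Topology MM7

/-- the norm form of `ℤ[(1+√-7)/2]` -/
def QQ (p : ℤ × ℤ) : ℝ := (p.1 : ℝ) ^ 2 + p.1 * p.2 + 2 * (p.2 : ℝ) ^ 2

/-- theta series of `ℤ[(1+√-7)/2]` -/
noncomputable def NN (t : ℝ) : ℝ := ∑' p : ℤ × ℤ, Real.exp (-(π * QQ p * t))

theorem bij_N : Function.Bijective
    (Sum.elim (fun p : ℤ × ℤ => (p.1 - p.2, 2 * p.2))
      (fun p : ℤ × ℤ => (p.1 - p.2, 2 * p.2 + 1))) := by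
  constructor
  · rintro (⟨a, b⟩ | ⟨a, b⟩) (⟨c, d⟩ | ⟨c, d⟩) h <;>
      simp only [Sum.elim_inl, Sum.elim_inr, Prod.mk.injEq] at h
    · congr 2 <;> omega
    · omega
    · omega
    · congr 2 <;> omega
  · rintro ⟨m, n⟩
    rcases Int.even_or_odd' n with ⟨k, hk | hk⟩
    · exact ⟨Sum.inl (m + k, k), by simp only [Sum.elim_inl, Prod.mk.injEq]; omega⟩
    · exact ⟨Sum.inr (m + k, k), by simp only [Sum.elim_inr, Prod.mk.injEq]; omega⟩

theorem N_l (t : ℝ) (p : ℤ × ℤ) :
    Real.exp (-(π * QQ (p.1 - p.2, 2 * p.2) * t))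
      = Real.exp (-(π * (p.1 : ℝ) ^ 2 * t)) * Real.exp (-(π * (p.2 : ℝ) ^ 2 * (7 * t))) := by
  rw [← Real.exp_add, QQ]; push_cast; ring_nf

theorem N_r (t : ℝ) (p : ℤ × ℤ) :
    Real.exp (-(π * QQ (p.1 - p.2, 2 * p.2 + 1) * t))
      = Real.exp (-(π * ((p.1 : ℝ) + 1 / 2) ^ 2 * t))
        * Real.exp (-(π * ((p.2 : ℝ) + 1 / 2) ^ 2 * (7 * t))) := by
  rw [← Real.exp_add, QQ]; push_cast; ring_nf

theorem N_summable {t : ℝ} (ht : 0 < t) :
    Summable fun p : ℤ × ℤ => Real.exp (-(π * QQ p * t)) := by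
  have h7 : 0 < 7 * t := by positivity
  have h1 := sum_prodl (th3_summable ht) (th3_summable h7)
  have h2 := sum_prodl (th2_summable ht) (th2_summable h7)
  have h3 : Summable ((fun p : ℤ × ℤ => Real.exp (-(π * QQ p * t))) ∘
      (Equiv.ofBijective _ bij_N)) := by
    refine Summable.sum _ ?_ ?_
    · exact h1.congr (fun p => (N_l t p).symm)
    · exact h2.congr (fun p => (N_r t p).symm)
  exact ((Equiv.ofBijective _ bij_N).summable_iff).mp h3

theorem NN_eq {t : ℝ} (ht : 0 < t) :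
    NN t = th3 t * th3 (7 * t) + th2 t * th2 (7 * t) := by
  have h7 : 0 < 7 * t := by positivity
  have h1 := prodl (th3_summable ht) (th3_summable h7)
  have h2 := prodl (th2_summable ht) (th2_summable h7)
  have e3 : ∀ y, th3 y = ∑' n : ℤ, Real.exp (-(π * (n : ℝ) ^ 2 * y)) := fun _ => rfl
  have e2 : ∀ y, th2 y = ∑' n : ℤ, Real.exp (-(π * ((n : ℝ) + 1 / 2) ^ 2 * y)) := fun _ => rfl
  rw [← e3, ← e3] at h1
  rw [← e2, ← e2] at h2
  rw [NN, tsum_two bij_N (N_summable ht), h1, h2]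
  congr 1
  · congr 1; ext p; exact N_l t p
  · congr 1; ext p; exact N_r t p

theorem NN_sg {t : ℝ} (ht : 0 < t) :
    ∑' p : ℤ × ℤ, sg p.2 * Real.exp (-(π * QQ p * t))
      = th3 t * th3 (7 * t) - th2 t * th2 (7 * t) := by
  have h7 : 0 < 7 * t := by positivity
  have h1 := prodl (th3_summable ht) (th3_summable h7)
  have h2 := prodl (th2_summable ht) (th2_summable h7)
  have e3 : ∀ y, th3 y = ∑' n : ℤ, Real.exp (-(π * (n : ℝ) ^ 2 * y)) := fun _ => rfl
  have e2 : ∀ y, th2 y = ∑' n : ℤ, Real.exp (-(π * ((n : ℝ) + 1 / 2) ^ 2 * y)) := fun _ => rfl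
  rw [← e3, ← e3] at h1
  rw [← e2, ← e2] at h2
  have hs : Summable fun p : ℤ × ℤ => sg p.2 * Real.exp (-(π * QQ p * t)) := by
    refine (N_summable ht).of_norm_bounded (fun p => ?_)
    rw [norm_mul, Real.norm_eq_abs, sg_abs, one_mul, Real.norm_eq_abs,
      abs_of_pos (Real.exp_pos _)]
  rw [tsum_two bij_N hs, h1, h2, sub_eq_add_neg, ← tsum_neg]
  congr 1
  · congr 1; ext p
    rw [sg_even (even_two_mul p.2), one_mul]; exact N_l t p
  · congr 1; ext p
    rw [sg_odd (odd_two_mul_add_one p.2), neg_one_mul]; exact congrArg Neg.neg (N_r t p)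

theorem sum1 (t : ℝ) :
    ∑' p : ℤ × ℤ, (if Even p.1 then Real.exp (-(π * QQ p * t)) else 0) = NN (2 * t) := by
  have hinj : Function.Injective (fun q : ℤ × ℤ => (-2 * q.2, q.1 + q.2)) := by
    rintro ⟨a, b⟩ ⟨c, d⟩ h
    simp only [Prod.mk.injEq] at h
    congr 1 <;> omega
  have h := hinj.tsum_eq (f := fun p : ℤ × ℤ =>
    (if Even p.1 then Real.exp (-(π * QQ p * t)) else 0)) (by
      rintro ⟨m, n⟩ hmn
      have hm : Even m := by
        by_contra hne
        exact hmn (by simp [hne])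
      obtain ⟨k, hk⟩ := hm
      exact ⟨(n + k, -k), by simp only [Prod.mk.injEq]; omega⟩)
  rw [← h, NN]
  congr 1; ext q
  rw [if_pos (by simp)]
  congr 1
  simp only [QQ]; push_cast; ring

theorem sum2 (t : ℝ) :
    ∑' p : ℤ × ℤ, (if Even (p.1 + p.2) then Real.exp (-(π * QQ p * t)) else 0) = NN (2 * t) := by
  have hinj : Function.Injective (fun q : ℤ × ℤ => (q.1 + 2 * q.2, -q.1)) := by
    rintro ⟨a, b⟩ ⟨c, d⟩ h
    simp only [Prod.mk.injEq] at h
    congr 1 <;> omega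
  have h := hinj.tsum_eq (f := fun p : ℤ × ℤ =>
    (if Even (p.1 + p.2) then Real.exp (-(π * QQ p * t)) else 0)) (by
      rintro ⟨m, n⟩ hmn
      have hm : Even (m + n) := by
        by_contra hne
        exact hmn (by simp [hne])
      obtain ⟨k, hk⟩ := hm
      exact ⟨(-n, k), by simp only [Prod.mk.injEq]; omega⟩)
  rw [← h, NN]
  congr 1; ext q
  rw [if_pos (by simp)]
  congr 1
  simp only [QQ]; push_cast; ring

theorem sum3 (t : ℝ) :
    ∑' p : ℤ × ℤ, (if Even p.1 ∧ Even p.2 then Real.exp (-(π * QQ p * t)) else 0)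
      = NN (4 * t) := by
  have hinj : Function.Injective (fun q : ℤ × ℤ => (2 * q.1, 2 * q.2)) := by
    rintro ⟨a, b⟩ ⟨c, d⟩ h
    simp only [Prod.mk.injEq] at h
    congr 1 <;> omega
  have h := hinj.tsum_eq (f := fun p : ℤ × ℤ =>
    (if Even p.1 ∧ Even p.2 then Real.exp (-(π * QQ p * t)) else 0)) (by
      rintro ⟨m, n⟩ hmn
      have hm : Even m ∧ Even n := by
        by_contra hne
        exact hmn (by simp only [if_neg hne])
      obtain ⟨⟨k, hk⟩, ⟨l, hl⟩⟩ := hm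
      exact ⟨(k, l), by simp only [Prod.mk.injEq]; omega⟩)
  rw [← h, NN]
  congr 1; ext q
  rw [if_pos ⟨by simp, by simp⟩]
  congr 1
  simp only [QQ]; push_cast; ring

theorem NN_rel {t : ℝ} (ht : 0 < t) :
    th2 t * th2 (7 * t) = 2 * NN (2 * t) - 2 * NN (4 * t) := by
  have h0 := N_summable ht
  have s1 : Summable fun p : ℤ × ℤ => (if Even p.1 then Real.exp (-(π * QQ p * t)) else 0) := by
    refine h0.of_norm_bounded (fun p => ?_)
    split_ifs
    · rw [Real.norm_eq_abs, abs_of_pos (Real.exp_pos _)]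
    · simp; positivity
  have s2 : Summable fun p : ℤ × ℤ =>
      (if Even (p.1 + p.2) then Real.exp (-(π * QQ p * t)) else 0) := by
    refine h0.of_norm_bounded (fun p => ?_)
    split_ifs
    · rw [Real.norm_eq_abs, abs_of_pos (Real.exp_pos _)]
    · simp; positivity
  have s3 : Summable fun p : ℤ × ℤ =>
      (if Even p.1 ∧ Even p.2 then Real.exp (-(π * QQ p * t)) else 0) := by
    refine h0.of_norm_bounded (fun p => ?_)
    split_ifs
    · rw [Real.norm_eq_abs, abs_of_pos (Real.exp_pos _)]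
    · simp; positivity
  have key : ∑' p : ℤ × ℤ, sg p.2 * Real.exp (-(π * QQ p * t))
      = NN t - 2 * NN (2 * t) - 2 * NN (2 * t) + 4 * NN (4 * t) := by
    have e : ∀ p : ℤ × ℤ, sg p.2 * Real.exp (-(π * QQ p * t))
        = Real.exp (-(π * QQ p * t))
          - 2 * (if Even p.1 then Real.exp (-(π * QQ p * t)) else 0)
          - 2 * (if Even (p.1 + p.2) then Real.exp (-(π * QQ p * t)) else 0)
          + 4 * (if Even p.1 ∧ Even p.2 then Real.exp (-(π * QQ p * t)) else 0) := by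
      rintro ⟨m, n⟩
      simp only
      rcases Int.even_or_odd m with hm | hm <;> rcases Int.even_or_odd n with hn | hn
      · rw [if_pos hm, if_pos (hm.add hn), if_pos ⟨hm, hn⟩, sg_even hn]; ring
      · have h1 : ¬ Even (m + n) := Int.not_even_iff_odd.mpr (hm.add_odd hn)
        have h2 : ¬ (Even m ∧ Even n) := fun h => (Int.not_even_iff_odd.mpr hn) h.2
        rw [if_pos hm, if_neg h1, if_neg h2, sg_odd hn]; ring
      · have h0 : ¬ Even m := Int.not_even_iff_odd.mpr hm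
        have h1 : ¬ Even (m + n) := Int.not_even_iff_odd.mpr (hm.add_even hn)
        have h2 : ¬ (Even m ∧ Even n) := fun h => h0 h.1
        rw [if_neg h0, if_neg h1, if_neg h2, sg_even hn]; ring
      · have h0 : ¬ Even m := Int.not_even_iff_odd.mpr hm
        have h2 : ¬ (Even m ∧ Even n) := fun h => h0 h.1
        rw [if_neg h0, if_pos (hm.add_odd hn), if_neg h2, sg_odd hn]; ring
    simp_rw [e]
    rw [Summable.tsum_add ((h0.sub (s1.mul_left 2)).sub (s2.mul_left 2)) (s3.mul_left 4),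
      Summable.tsum_sub (h0.sub (s1.mul_left 2)) (s2.mul_left 2),
      Summable.tsum_sub h0 (s1.mul_left 2), tsum_mul_left, tsum_mul_left, tsum_mul_left,
      sum1, sum2, sum3]
    rfl
  rw [NN_sg ht, NN_eq ht] at key
  linarith

theorem th3_four_X : th3 (√7) ^ 2 = 4 * (th2 (√7) * th4 (√7)) := by
  set y := √7 with hy
  have hy0 : 0 < y := Real.sqrt_pos.mpr (by norm_num)
  have hyy : y * y = 7 := Real.mul_self_sqrt (by norm_num)
  set r := √y with hr
  have hr0 : 0 < r := Real.sqrt_pos.mpr hy0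
  have hrr : r * r = y := Real.mul_self_sqrt hy0.le
  have p3 := th3_pos hy0
  have p4 := th4_pos hy0
  have p2 := th2_pos hy0
  have ht : 0 < 1 / y := by positivity
  have e7 : 7 * (1 / y) = y := by
    field_simp; rw [← hyy]; ring
  have hrel := NN_rel ht
  rw [e7, th2_inv hy0] at hrel
  -- N(4t)
  have h4 := NN_eq (t := 4 * (1 / y)) (by positivity)
  have e4 : 7 * (4 * (1 / y)) = 4 * y := by linear_combination 4 * e7
  have i3 := th3_inv (y := y / 4) (by positivity)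
  have i2 := th2_inv (y := y / 4) (by positivity)
  have e5 : 1 / (y / 4) = 4 * (1 / y) := by field_simp
  have e6 : √(y / 4) = r / 2 := by
    rw [Real.sqrt_div hy0.le, show (4 : ℝ) = 2 ^ 2 by norm_num, Real.sqrt_sq (by norm_num)]
  rw [e5, e6] at i3 i2
  have q1 := th3_quart (y := y / 4) (by positivity)
  have q2 := th4_quart (y := y / 4) (by positivity)
  have e8 : 4 * (y / 4) = y := by ring
  rw [e8] at q1 q2
  have q3 := th3_quart hy0
  have q4 := th4_quart hy0
  have a3 : th3 (4 * y) = (th3 y + th4 y) / 2 := by rw [q3, q4]; ring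
  have a2 : th2 (4 * y) = (th3 y - th4 y) / 2 := by rw [q3, q4]; ring
  rw [e4, i3, i2, q1, q2, a3, a2] at h4
  -- N(2t)
  have h2 := NN_eq (t := 2 * (1 / y)) (by positivity)
  have e9 : 7 * (2 * (1 / y)) = 2 * y := by linear_combination 2 * e7
  have j3 := th3_inv (y := y / 2) (by positivity)
  have j2 := th2_inv (y := y / 2) (by positivity)
  have f5 : 1 / (y / 2) = 2 * (1 / y) := by field_simp
  rw [f5] at j3 j2
  rw [e9, j3, j2] at h2
  set ρ := √(y / 2) with hρ
  have hρρ : ρ * ρ = y / 2 := Real.mul_self_sqrt (by positivity)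
  have k3 := th3_sq (y := y / 2) (by positivity)
  have k4 := th4_sq (y := y / 2) (by positivity)
  have k34 := th34 (y := y / 2) (by positivity)
  have f8 : 2 * (y / 2) = y := by ring
  rw [f8] at k3 k4 k34
  have l3 := th3_sq hy0
  have l4 := th4_sq hy0
  have l2 := th2_sq hy0
  have hj := jacobi hy0
  have m3 : th3 (2 * y) ^ 2 = (th3 y ^ 2 + th4 y ^ 2) / 2 := by rw [l3, l4]; ring
  have m2 : th2 (2 * y) ^ 2 = (th3 y ^ 2 - th4 y ^ 2) / 2 := by rw [l3, l4]; ring
  have hN2 : NN (2 * (1 / y)) ^ 2 = y / 2 * (th3 y ^ 4 + 2 * (th2 y * th4 y) ^ 2) := by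
    have : NN (2 * (1 / y)) ^ 2 = (ρ * ρ) * (th3 (y / 2) ^ 2 * th3 (2 * y) ^ 2
        + th4 (y / 2) ^ 2 * th2 (2 * y) ^ 2
        + (th3 (y / 2) * th4 (y / 2)) * (2 * th2 (2 * y) * th3 (2 * y))) := by
      rw [h2]; ring
    rw [this, hρρ, k3, k4, m3, m2, k34, ← l2]; ring
  have hN2' : NN (2 * (1 / y)) = r / 2 * (th3 y ^ 2 + 2 * (th2 y * th4 y)) := by
    linear_combination -hrel / 2 + h4
  rw [hN2'] at hN2
  have h8 : th3 y ^ 2 * (th3 y ^ 2 - 4 * (th2 y * th4 y)) = 0 := by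
    have h9 : y * (th3 y ^ 2 * (th3 y ^ 2 - 4 * (th2 y * th4 y))) = 0 := by
      linear_combination -4 * hN2 + (th3 y ^ 2 + 2 * (th2 y * th4 y)) ^ 2 * hrr
    exact (mul_eq_zero.mp h9).resolve_left hy0.ne'
  have h10 := (mul_eq_zero.mp h8).resolve_left (by positivity)
  linarith

theorem ww_seven : ww (√7) = 1 := by
  have h := th3_four_X
  have hy0 : 0 < √(7 : ℝ) := Real.sqrt_pos.mpr (by norm_num)
  have p2 := th2_pos hy0
  have p4 := th4_pos hy0
  have e : th3 (√7) ^ 8 = 256 * th2 (√7) ^ 4 * th4 (√7) ^ 4 := by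
    calc th3 (√7) ^ 8 = (th3 (√7) ^ 2) ^ 4 := by ring
      _ = _ := by rw [h]; ring
  rw [ww, e, div_self]
  positivity

end K3MTh
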