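import Pool.Agent.K3M.ThR2
import Pool.Agent.K3M.ThSeven
import Pool.Agent.K3M.Law0

/-! # The theta constants satisfy the level two system `K3M.Sys` -/

namespace K3MTh

open Real Filter Topology MM7

/-- `e = θ₄⁴ - θ₂⁴` -/
noncomputable def eth (y : ℝ) : ℝ := th4 y ^ 4 - th2 y ^ 4
/-- `h = (θ₂ θ₄)⁴` -/
noncomputable def hth (y : ℝ) : ℝ := (th2 y * th4 y) ^ 4

theorem sqrt_hth {y : ℝ} (hy : 0 < y) : √(hth y) = th2 y ^ 2 * th4 y ^ 2 := by
  have p2 := th2_pos hy
  have p4 := th4_pos hy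
  rw [hth, show (th2 y * th4 y) ^ 4 = (th2 y ^ 2 * th4 y ^ 2) ^ 2 by ring,
    Real.sqrt_sq (by positivity)]

theorem Psi_eq {y : ℝ} (hy : 0 < y) : Psi y = eth y * √(hth y) := by
  rw [sqrt_hth hy, Psi, eth]; ring

theorem hasDerivAt_eth {y : ℝ} (hy : 0 < y) :
    HasDerivAt eth (-π * (pth y * eth y - 2 * hth y)) y := by
  have h := ((hasDerivAt_th4 hy).pow 4).sub ((hasDerivAt_th2 hy).pow 4)
  refine h.congr_deriv ?_
  rw [d4_eq hy, d2_eq hy, eth, hth]
  push_cast
  ring

theorem hasDerivAt_hth {y : ℝ} (hy : 0 < y) :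
    HasDerivAt hth (-π * hth y * (2 * pth y + eth y)) y := by
  have h := ((hasDerivAt_th2 hy).mul (hasDerivAt_th4 hy)).pow 4
  refine h.congr_deriv ?_
  rw [d4_eq hy, d2_eq hy, eth, hth]
  simp only [Pi.mul_apply]
  push_cast
  ring

theorem hasDerivAt_pth' {y : ℝ} (hy : 0 < y) :
    HasDerivAt pth (-(π / 2) * (pth y ^ 2 + hth y)) y := by
  refine (hasDerivAt_pth hy).congr_deriv ?_
  rw [R2 hy, hth]; ring

theorem ww_eq {y : ℝ} (hy : 0 < y) : ww y = 256 * hth y / (eth y ^ 2 + 4 * hth y) := by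
  have p3 := th3_pos hy
  have hj := jacobi hy
  have e : eth y ^ 2 + 4 * hth y = th3 y ^ 8 := by
    rw [eth, hth, show th3 y ^ 8 = (th3 y ^ 4) ^ 2 by ring, hj]; ring
  rw [e, hth, ww]; ring

theorem hth_pos {y : ℝ} (hy : 0 < y) : 0 < hth y := by
  have p2 := th2_pos hy
  have p4 := th4_pos hy
  rw [hth]; positivity

theorem eth_one : eth 1 = 0 := by
  have h := th2_inv (y := 1) one_pos
  simp only [div_one, Real.sqrt_one, one_mul] at h
  rw [eth, h]; ring

theorem pth_one : pth 1 = 1 / π := by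
  have hπ := Real.pi_pos
  have p3 := th3_pos one_pos
  have h1 := hasDerivAt_th3 one_pos
  have hinv : HasDerivAt (fun y : ℝ => 1 / y) (-1) 1 := by
    have := hasDerivAt_inv (one_ne_zero (α := ℝ))
    simpa [one_div] using this
  have h2 : HasDerivAt (fun y : ℝ => th3 (1 / y)) (-π * d3 1 * -1) 1 := by
    have h1' : HasDerivAt th3 (-π * d3 1) (1 / (1 : ℝ)) := by simpa using h1
    exact h1'.comp 1 hinv
  have h3 : HasDerivAt (fun y : ℝ => √y * th3 y) (1 / (2 * √1) * th3 1 + √1 * (-π * d3 1)) 1 :=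
    (Real.hasDerivAt_sqrt one_ne_zero).mul h1
  have h4 : (fun y : ℝ => th3 (1 / y)) =ᶠ[𝓝 1] fun y => √y * th3 y := by
    filter_upwards [isOpen_Ioi.mem_nhds (one_pos : (0 : ℝ) < 1)] with z hz
    exact th3_inv hz
  have h5 := h2.unique (h3.congr_of_eventuallyEq h4)
  rw [Real.sqrt_one] at h5
  have h6 : π * d3 1 * 4 = th3 1 := by linarith
  rw [pth, div_eq_div_iff p3.ne' hπ.ne']
  linarith

theorem eth_lim : Tendsto eth atTop (𝓝 1) := by
  have h := (th4_lim.pow 4).sub (th2_lim.pow 4)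
  norm_num at h
  exact h

/-- the instance of the abstract system -/
theorem sys : Pool.Agent.K3M.Sys eth pth hth ww where
  he := fun v hv => hasDerivAt_eth hv
  hp := fun v hv => hasDerivAt_pth' hv
  hh := fun v hv => hasDerivAt_hth hv
  hw := fun v hv => ww_eq hv
  hpos := fun v hv => hth_pos hv
  e_one := eth_one
  p_one := pth_one
  e_lim := eth_lim
  p_bd := by
    obtain ⟨C, hC, hb⟩ := exists_bounds
    refine ⟨4 * C, fun v hv => ?_⟩
    have hv0 : 0 < v := by linarith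
    have t1 := th3_ge_one hv0
    have h1 := (hb v hv).1
    rw [pth, abs_div, abs_mul, abs_of_pos (by norm_num : (0 : ℝ) < 4),
      abs_of_pos (by linarith : 0 < th3 v)]
    refine (div_le_self (by positivity) t1).trans ?_
    rw [show -π * v = -(π * v) by ring]
    linarith
  h_bd := by
    obtain ⟨C, hC, hb⟩ := exists_bounds
    refine ⟨C ^ 8, fun v hv => ?_⟩
    have hv0 : 0 < v := by linarith
    obtain ⟨-, -, c3, c4, -⟩ := hb v hv
    have p2 := th2_pos hv0
    have p4 := th4_pos hv0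
    have : th2 v * th4 v ≤ C * Real.exp (-(π * (1 / 4) * v)) * C :=
      mul_le_mul c3 c4 p4.le (by positivity)
    calc hth v = (th2 v * th4 v) ^ 4 := rfl
      _ ≤ (C * Real.exp (-(π * (1 / 4) * v)) * C) ^ 4 :=
          pow_le_pow_left₀ (by positivity) this 4
      _ = C ^ 8 * (Real.exp (-(π * (1 / 4) * v))) ^ 4 := by ring
      _ = C ^ 8 * Real.exp (-π * v) := by
          rw [← Real.exp_nat_mul]; congr 2; push_cast; ring
  w_seven := ww_seven

/-! ### further facts -/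

theorem ww_pos {y : ℝ} (hy : 0 < y) : 0 < ww y := by
  have p2 := th2_pos hy
  have p3 := th3_pos hy
  have p4 := th4_pos hy
  rw [ww]; positivity

theorem ww_inv {y : ℝ} (hy : 0 < y) : ww (1 / y) = ww y := by
  have p3 := th3_pos hy
  have hs : 0 < √y := Real.sqrt_pos.mpr hy
  rw [ww, ww, th3_inv hy, th2_inv hy, th4_inv hy]
  field_simp

theorem Psi_inv {y : ℝ} (hy : 0 < y) : Psi (1 / y) = -(y ^ 4) * Psi y := by
  have hs : √y * √y = y := Real.mul_self_sqrt hy.le
  rw [Psi, Psi, th2_inv hy, th4_inv hy]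
  have e : y ^ 4 = (√y) ^ 8 := by
    calc y ^ 4 = (√y * √y) ^ 4 := by rw [hs]
      _ = (√y) ^ 8 := by ring
  rw [e]; ring

theorem hasDerivAt_ww {y : ℝ} (hy : 0 < y) : HasDerivAt ww (-π * eth y * ww y) y := by
  have p2 := th2_pos hy
  have p3 := th3_pos hy
  have p4 := th4_pos hy
  have h := ((((hasDerivAt_th2 hy).pow 4).const_mul 256).mul ((hasDerivAt_th4 hy).pow 4)).div
    ((hasDerivAt_th3 hy).pow 8) (pow_ne_zero 8 p3.ne')
  refine h.congr_deriv ?_
  rw [d4_eq hy, d2_eq hy, d3_eq hy, eth, ww]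
  simp only [Pi.mul_apply, Pi.pow_apply]
  have hj := jacobi hy
  field_simp
  push_cast
  ring

theorem hasDerivAt_log_ww {y : ℝ} (hy : 0 < y) :
    HasDerivAt (fun y => Real.log (ww y)) (-π * eth y) y := by
  have h := (hasDerivAt_ww hy).log (ww_pos hy).ne'
  refine h.congr_deriv ?_
  have := (ww_pos hy).ne'
  field_simp

theorem ww_continuousOn : ContinuousOn ww (Set.Ioi 0) := fun y hy =>
  (hasDerivAt_ww hy).continuousAt.continuousWithinAt

theorem Psi_continuousOn : ContinuousOn Psi (Set.Ioi 0) := by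
  intro y hy
  have h : HasDerivAt Psi _ y := ((((hasDerivAt_th2 hy).pow 2).mul ((hasDerivAt_th4 hy).pow 2)).mul
    (((hasDerivAt_th4 hy).pow 4).sub ((hasDerivAt_th2 hy).pow 4)))
  exact h.continuousAt.continuousWithinAt

end K3MTh
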